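import Mathlib

/-!
Chebyshev: the sum of the reciprocals of the primes in `(Y, 4Y]` is at least `c / log (4Y)`.
-/

set_option autoImplicit false

namespace Pool.Agent.K9h59.VS

open Finset Real

/-- the primes in `(Y, 4Y]` -/
def PY (Y : ℕ) : Finset ℕ := (Ioc Y (4 * Y)).filter Nat.Prime

lemma theta_diff : ∃ Y₀ : ℕ, ∀ Y : ℕ, Y₀ ≤ Y → (Y : ℝ) ≤
    Chebyshev.theta (4 * Y : ℕ) - Chebyshev.theta (Y : ℕ) := by
  obtain ⟨C, hC⟩ := Chebyshev.psi_sub_theta_le_mul_sqrt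
  have h1 : Filter.Tendsto (fun Y : ℕ => Real.log (4 * Y + 1) / (4 * Y + 1) + |C| * (2 * √(4 * Y + 1)) / (4 * Y + 1))
      Filter.atTop (nhds 0) := by
    have hat : Filter.Tendsto (fun Y : ℕ => (4 * (Y : ℝ) + 1)) Filter.atTop Filter.atTop := by
      refine Filter.tendsto_atTop_add_const_right _ _ ?_
      exact (tendsto_natCast_atTop_atTop (R := ℝ)).const_mul_atTop (by norm_num)
    have e1 : Filter.Tendsto (fun t : ℝ => Real.log t / t) Filter.atTop (nhds 0) := by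
      have := Real.isLittleO_log_id_atTop.tendsto_div_nhds_zero
      simpa using this
    have e2 : Filter.Tendsto (fun t : ℝ => |C| * (2 * √t) / t) Filter.atTop (nhds 0) := by
      have e3 : Filter.Tendsto (fun t : ℝ => √t) Filter.atTop Filter.atTop := Real.tendsto_sqrt_atTop
      have e4 : Filter.Tendsto (fun t : ℝ => (2 * |C|) * (√t)⁻¹) Filter.atTop (nhds 0) := by
        have := (e3.inv_tendsto_atTop).const_mul (2 * |C|)
        simpa using this
      refine e4.congr' ?_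
      filter_upwards [Filter.eventually_gt_atTop 0] with t ht
      have h0 : 0 < √t := Real.sqrt_pos.2 ht
      have h5 : √t * √t = t := Real.mul_self_sqrt ht.le
      field_simp
      rw [sq, h5]
    have := (e1.comp hat).add (e2.comp hat)
    simpa using this
  have h2 : ∀ᶠ Y : ℕ in Filter.atTop, Real.log (4 * Y + 1) / (4 * Y + 1) + |C| * (2 * √(4 * Y + 1)) / (4 * Y + 1) < 1 / 16 :=
    h1.eventually_lt_const (by norm_num)
  obtain ⟨Y₀, hY₀⟩ := Filter.eventually_atTop.1 (h2.and (Filter.eventually_ge_atTop 1))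
  refine ⟨Y₀, fun Y hY => ?_⟩
  obtain ⟨h3, h4⟩ := hY₀ Y hY
  have hY1 : (1 : ℝ) ≤ Y := by exact_mod_cast h4
  have hp : (0 : ℝ) < 4 * Y + 1 := by positivity
  have h5 : Real.log (4 * Y + 1) + |C| * (2 * √(4 * Y + 1)) < (4 * Y + 1) / 16 := by
    rw [← add_div, div_lt_div_iff₀ hp (by norm_num)] at h3
    linarith
  have h6 := Chebyshev.psi_ge (4 * Y)
  have h7 := hC ((4 * Y : ℕ) : ℝ)
  have h8 := Chebyshev.theta_le_log4_mul_x (x := (Y : ℝ)) (by positivity)
  have h9 : Real.log 4 = 2 * Real.log 2 := by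
    rw [show (4 : ℝ) = 2 ^ 2 by norm_num, Real.log_pow]; norm_num
  have h10 : C * √((4 * Y : ℕ) : ℝ) ≤ |C| * (2 * √(4 * Y + 1)) := by
    have e1 : √((4 * Y : ℕ) : ℝ) ≤ √(4 * Y + 1) := by
      apply Real.sqrt_le_sqrt
      push_cast
      linarith
    calc C * √((4 * Y : ℕ) : ℝ) ≤ |C| * √((4 * Y : ℕ) : ℝ) :=
          mul_le_mul_of_nonneg_right (le_abs_self C) (Real.sqrt_nonneg _)
      _ ≤ |C| * √(4 * Y + 1) := mul_le_mul_of_nonneg_left e1 (abs_nonneg C)
      _ ≤ |C| * (2 * √(4 * Y + 1)) := by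
          apply mul_le_mul_of_nonneg_left _ (abs_nonneg C)
          have := Real.sqrt_nonneg (4 * (Y : ℝ) + 1)
          linarith
  have h11 := Real.log_two_gt_d9
  push_cast at h6 h7 h10 ⊢
  rw [h9] at h8
  nlinarith

/-- the lower bound for the sum of reciprocals -/
theorem recip_lower : ∃ c : ℝ, 0 < c ∧ ∀ Y : ℕ, 1 ≤ Y →
    c / Real.log (4 * Y) ≤ ∑ p ∈ PY Y, 1 / (p : ℝ) := by
  obtain ⟨Y₀, hY₀⟩ := theta_diff
  refine ⟨min (1 / 4) (1 / (4 * (Y₀ + 1))), lt_min (by norm_num) (by positivity), fun Y hY => ?_⟩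
  have hY1 : (1 : ℝ) ≤ Y := by exact_mod_cast hY
  have hlog : 1 ≤ Real.log (4 * Y) := by
    have h1 : Real.log 4 ≤ Real.log (4 * Y) := Real.log_le_log (by norm_num) (by linarith)
    have h9 : Real.log 4 = 2 * Real.log 2 := by
      rw [show (4 : ℝ) = 2 ^ 2 by norm_num, Real.log_pow]; norm_num
    have := Real.log_two_gt_d9
    linarith
  by_cases hc : Y₀ ≤ Y
  · have h1 := hY₀ Y hc
    have h2 : Chebyshev.theta (4 * Y : ℕ) - Chebyshev.theta (Y : ℕ) = ∑ p ∈ PY Y, Real.log p := by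
      unfold Chebyshev.theta PY
      rw [Nat.floor_natCast, Nat.floor_natCast]
      rw [sum_filter, sum_filter, sum_filter]
      have e1 : Ioc 0 (4 * Y) = Ioc 0 Y ∪ Ioc Y (4 * Y) :=
        (Ioc_union_Ioc_eq_Ioc (by omega) (by omega)).symm
      rw [e1, sum_union]
      · ring
      · rw [disjoint_left]
        intro a ha hb
        rw [mem_Ioc] at ha hb
        omega
    have h3 : ∑ p ∈ PY Y, Real.log p ≤ 4 * Y * Real.log (4 * Y) * ∑ p ∈ PY Y, 1 / (p : ℝ) := by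
      rw [mul_sum]
      refine sum_le_sum fun p hp => ?_
      unfold PY at hp
      rw [mem_filter, mem_Ioc] at hp
      have hp0 : (0 : ℝ) < p := by exact_mod_cast hp.2.pos
      have hp4 : (p : ℝ) ≤ 4 * Y := by exact_mod_cast hp.1.2
      have e1 : Real.log p ≤ Real.log (4 * Y) := Real.log_le_log hp0 hp4
      have e2 : 0 ≤ Real.log (4 * Y) := by linarith
      rw [mul_one_div, le_div_iff₀ hp0]
      calc Real.log p * p ≤ Real.log (4 * Y) * (4 * Y) := mul_le_mul e1 hp4 hp0.le e2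
        _ = _ := by ring
    rw [h2] at h1
    have h4 : (Y : ℝ) ≤ 4 * Y * Real.log (4 * Y) * ∑ p ∈ PY Y, 1 / (p : ℝ) := h1.trans h3
    have h5 : 1 ≤ 4 * Real.log (4 * Y) * ∑ p ∈ PY Y, 1 / (p : ℝ) := by
      have e0 : (0 : ℝ) < Y := by linarith
      by_contra hcon
      push Not at hcon
      have : (Y : ℝ) * (4 * Real.log (4 * Y) * ∑ p ∈ PY Y, 1 / (p : ℝ)) < Y * 1 :=
        mul_lt_mul_of_pos_left hcon e0
      linarith
    rw [div_le_iff₀ (by linarith)]
    calc min (1 / 4 : ℝ) (1 / (4 * (Y₀ + 1))) ≤ 1 / 4 := min_le_left _ _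
      _ ≤ _ := by linarith
  · push Not at hc
    obtain ⟨p, hp, h1, h2⟩ := Nat.exists_prime_lt_and_le_two_mul Y (by omega)
    have hpm : p ∈ PY Y := by
      unfold PY
      rw [mem_filter, mem_Ioc]
      exact ⟨⟨h1, by omega⟩, hp⟩
    have h3 : 1 / (p : ℝ) ≤ ∑ p ∈ PY Y, 1 / (p : ℝ) :=
      single_le_sum (f := fun p : ℕ => 1 / (p : ℝ)) (fun _ _ => by positivity) hpm
    refine le_trans ?_ h3
    have hp0 : (0 : ℝ) < p := by exact_mod_cast hp.pos
    have hp2 : (p : ℝ) ≤ 4 * (Y₀ + 1) := by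
      have : p ≤ 4 * (Y₀ + 1) := by omega
      exact_mod_cast this
    calc min (1 / 4 : ℝ) (1 / (4 * (Y₀ + 1))) / Real.log (4 * Y)
        ≤ min (1 / 4 : ℝ) (1 / (4 * (Y₀ + 1))) := div_le_self (le_min (by norm_num) (by positivity)) hlog
      _ ≤ 1 / (4 * (Y₀ + 1)) := min_le_right _ _
      _ ≤ 1 / (p : ℝ) := one_div_le_one_div_of_le hp0 hp2

end Pool.Agent.K9h59.VS
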