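import Pool.Agent.Helper112.LS

/-!
A large sieve inequality for sets avoiding divisors: if no `n + k` (`n ∈ E`, `k ∈ I`) is divisible by
one of the moduli `D f`, `f ∈ T`, then `|E| |I| (∑ 1 / D f) ^ 2 ≤ 6 (N + F ^ 2) G`, with `G` the sum of
`σ(gcd(D f, D g)) / (D f * D g)`.
-/

set_option autoImplicit false

namespace Pool.Agent.K9h59.VS

open Finset Pool.Agent.Helper112

/-- orthogonality of the additive characters modulo `d` -/
lemma orth (d : ℕ) (hd : 1 ≤ d) (m : ℤ) :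
    ∑ a ∈ range d, ee ((m : ℝ) * ((a : ℝ) / d)) = if (d : ℤ) ∣ m then (d : ℂ) else 0 := by
  have hd0 : (d : ℝ) ≠ 0 := by positivity
  have h1 : ∀ a : ℕ, ee ((m : ℝ) * ((a : ℝ) / d)) = ee ((m : ℝ) / d) ^ a := by
    intro a
    rw [← ls_ee_nat_mul]
    congr 1
    ring
  simp only [h1]
  split_ifs with h
  · obtain ⟨c, hc⟩ := h
    have h2 : ee ((m : ℝ) / d) = 1 := by
      rw [hc]
      push_cast
      rw [mul_div_cancel_left₀ _ hd0]
      exact ls_ee_int c
    rw [h2]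
    simp
  · have h2 : ee ((m : ℝ) / d) ≠ 1 := by
      intro h3
      obtain ⟨c, hc⟩ := ls_ee_eq_one h3
      apply h
      refine ⟨c, ?_⟩
      have h4 : (m : ℝ) = d * c := by
        rw [div_eq_iff hd0] at hc
        rw [hc]; ring
      exact_mod_cast h4
    have h3 : ee ((m : ℝ) / d) ^ d = 1 := by
      rw [← ls_ee_nat_mul, mul_div_cancel₀ _ hd0]
      exact ls_ee_int m
    have h4 := geom_sum_mul (ee ((m : ℝ) / d)) d
    rw [h3, sub_self] at h4
    rcases mul_eq_zero.1 h4 with h5 | h5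
    · exact h5
    · exact absurd (sub_eq_zero.1 h5) h2

/-- the fractions with denominator `d` in lowest terms -/
lemma range_sum (d : ℕ) (hd : 1 ≤ d) (g : ℝ → ℂ) :
    ∑ a ∈ range d, g ((a : ℝ) / d) =
      ∑ q ∈ d.divisors, ∑ b ∈ (range q).filter (fun b => b.Coprime q), g ((b : ℝ) / q) := by
  rw [Finset.sum_sigma']
  refine Finset.sum_nbij' (fun a => (⟨d / Nat.gcd a d, a / Nat.gcd a d⟩ : Σ _ : ℕ, ℕ))
    (fun r => r.2 * (d / r.1)) ?_ ?_ ?_ ?_ ?_
  · intro a ha
    rw [mem_range] at ha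
    have hg : 0 < Nat.gcd a d := Nat.gcd_pos_of_pos_right _ (by omega)
    simp only [mem_sigma, Nat.mem_divisors, mem_filter, mem_range]
    refine ⟨⟨Nat.div_dvd_of_dvd (Nat.gcd_dvd_right a d), by omega⟩, ?_, ?_⟩
    · rw [Nat.div_lt_iff_lt_mul hg, Nat.div_mul_cancel (Nat.gcd_dvd_right a d)]
      exact ha
    · exact Nat.coprime_div_gcd_div_gcd hg
  · rintro ⟨q, b⟩ hr
    simp only [mem_sigma, Nat.mem_divisors, mem_filter, mem_range] at hr
    obtain ⟨⟨hq, _⟩, hb, _⟩ := hr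
    rw [mem_range]
    have hq0 : 0 < q := Nat.pos_of_dvd_of_pos hq (by omega)
    calc b * (d / q) < q * (d / q) := by
          apply Nat.mul_lt_mul_of_pos_right hb
          exact Nat.div_pos (Nat.le_of_dvd (by omega) hq) hq0
      _ = d := Nat.mul_div_cancel' hq
  · intro a ha
    rw [mem_range] at ha
    have hg : 0 < Nat.gcd a d := Nat.gcd_pos_of_pos_right _ (by omega)
    simp only
    rw [Nat.div_div_self (Nat.gcd_dvd_right a d) (by omega)]
    exact Nat.div_mul_cancel (Nat.gcd_dvd_left a d)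
  · rintro ⟨q, b⟩ hr
    simp only [mem_sigma, Nat.mem_divisors, mem_filter, mem_range] at hr
    obtain ⟨⟨hq, _⟩, hb, hc⟩ := hr
    have hq0 : 0 < q := Nat.pos_of_dvd_of_pos hq (by omega)
    have hdq : 0 < d / q := Nat.div_pos (Nat.le_of_dvd (by omega) hq) hq0
    have h0 : q * (d / q) = d := Nat.mul_div_cancel' hq
    have h1 : Nat.gcd (b * (d / q)) d = d / q := by
      calc Nat.gcd (b * (d / q)) d = Nat.gcd (b * (d / q)) (q * (d / q)) := by rw [h0]
        _ = Nat.gcd b q * (d / q) := Nat.gcd_mul_right _ _ _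
        _ = d / q := by rw [Nat.Coprime.gcd_eq_one hc, one_mul]
    simp only
    rw [h1, Nat.div_div_self hq (by omega), Nat.mul_div_cancel _ hdq]
  · intro a ha
    rw [mem_range] at ha
    have hg : 0 < Nat.gcd a d := Nat.gcd_pos_of_pos_right _ (by omega)
    simp only
    congr 1
    rw [Nat.cast_div (Nat.gcd_dvd_left a d) (by positivity),
      Nat.cast_div (Nat.gcd_dvd_right a d) (by positivity)]
    rw [div_div_div_cancel_right₀ (by positivity)]

/-- the mean square of an exponential sum over elements distinct modulo `q` -/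
lemma W_sum (q : ℕ) (hq : 1 ≤ q) (I : Finset ℕ)
    (hI : ∀ k ∈ I, ∀ k' ∈ I, (q : ℤ) ∣ (k : ℤ) - k' → k = k') :
    ∑ b ∈ range q, ‖∑ k ∈ I, ee (k * ((b : ℝ) / q))‖ ^ 2 = q * I.card := by
  have h : ((∑ b ∈ range q, ‖∑ k ∈ I, ee (k * ((b : ℝ) / q))‖ ^ 2 : ℝ) : ℂ) = ((q * I.card : ℝ) : ℂ) := by
    push_cast
    calc ∑ b ∈ range q, ((‖∑ k ∈ I, ee (k * ((b : ℝ) / q))‖ : ℝ) : ℂ) ^ 2
        = ∑ b ∈ range q, ∑ k ∈ I, ∑ k' ∈ I, ee ((((k : ℤ) - k' : ℤ) : ℝ) * ((b : ℝ) / q)) := by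
          refine sum_congr rfl fun b _ => ?_
          rw [← Complex.ofReal_pow, ← Complex.normSq_eq_norm_sq, ← Complex.mul_conj, map_sum,
            sum_mul_sum]
          refine sum_congr rfl fun k _ => sum_congr rfl fun k' _ => ?_
          rw [ls_conj_ee, ← ls_ee_add]
          congr 1
          push_cast
          ring
      _ = ∑ k ∈ I, ∑ k' ∈ I, ∑ b ∈ range q, ee ((((k : ℤ) - k' : ℤ) : ℝ) * ((b : ℝ) / q)) := by
          rw [sum_comm]
          refine sum_congr rfl fun k _ => ?_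
          rw [sum_comm]
      _ = ∑ k ∈ I, ∑ k' ∈ I, if k = k' then (q : ℂ) else 0 := by
          refine sum_congr rfl fun k hk => sum_congr rfl fun k' hk' => ?_
          rw [orth q hq]
          by_cases e : k = k'
          · subst e
            simp
          · rw [if_neg e, if_neg (fun h => e (hI k hk k' hk' h))]
      _ = (q : ℂ) * I.card := by
          rw [sum_congr rfl (fun k hk => by rw [sum_ite_eq, if_pos hk])]
          rw [sum_const, nsmul_eq_mul]
          ring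
  exact_mod_cast h

section
variable {ι : Type*}

/-- sum of the reciprocals of the moduli divisible by `q` -/
noncomputable def sg (T : Finset ι) (D : ι → ℕ) (q : ℕ) : ℝ :=
  ∑ f ∈ T.filter (fun f => q ∣ D f), 1 / (D f : ℝ)

lemma sg_nonneg (T : Finset ι) (D : ι → ℕ) (q : ℕ) : 0 ≤ sg T D q :=
  sum_nonneg fun _ _ => by positivity

/-- the expansion into additive characters of the number of divisibilities -/
lemma expand (E I : Finset ℕ) (T : Finset ι) (D : ι → ℕ) (F : ℕ)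
    (hD : ∀ f ∈ T, 1 ≤ D f ∧ D f ≤ F)
    (hav : ∀ n ∈ E, ∀ k ∈ I, ∀ f ∈ T, ¬ D f ∣ n + k) :
    ∑ q ∈ Icc 1 F, ∑ b ∈ (range q).filter (fun b => b.Coprime q),
      (sg T D q : ℂ) * ((∑ n ∈ E, ee (n * ((b : ℝ) / q))) * ∑ k ∈ I, ee (k * ((b : ℝ) / q))) = 0 := by
  set g : ℝ → ℂ := fun t => (∑ n ∈ E, ee (n * t)) * ∑ k ∈ I, ee (k * t) with hg
  have h1 : ∀ f ∈ T, ∑ a ∈ range (D f), g ((a : ℝ) / (D f : ℕ)) = 0 := by
    intro f hf
    calc ∑ a ∈ range (D f), g ((a : ℝ) / (D f : ℕ))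
        = ∑ a ∈ range (D f), ∑ n ∈ E, ∑ k ∈ I,
            ee ((((n + k : ℕ) : ℤ) : ℝ) * ((a : ℝ) / (D f : ℕ))) := by
          refine sum_congr rfl fun a _ => ?_
          simp only [hg]
          rw [sum_mul_sum]
          refine sum_congr rfl fun n _ => sum_congr rfl fun k _ => ?_
          rw [← ls_ee_add]
          congr 1
          push_cast
          ring
      _ = ∑ n ∈ E, ∑ k ∈ I, ∑ a ∈ range (D f),
            ee ((((n + k : ℕ) : ℤ) : ℝ) * ((a : ℝ) / (D f : ℕ))) := by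
          rw [sum_comm]
          refine sum_congr rfl fun n _ => ?_
          rw [sum_comm]
      _ = 0 := by
          refine sum_eq_zero fun n hn => sum_eq_zero fun k hk => ?_
          rw [orth _ (hD f hf).1, if_neg]
          intro h
          exact hav n hn k hk f hf (by exact_mod_cast h)
  have h2 : ∀ f ∈ T, ∑ q ∈ (Icc 1 F).filter (fun q => q ∣ D f),
      ∑ b ∈ (range q).filter (fun b => b.Coprime q), g ((b : ℝ) / (q : ℕ)) = 0 := by
    intro f hf
    rw [← h1 f hf, range_sum _ (hD f hf).1]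
    refine sum_congr ?_ fun _ _ => rfl
    ext q
    simp only [mem_filter, mem_Icc, Nat.mem_divisors]
    constructor
    · rintro ⟨_, h⟩
      exact ⟨h, by have := (hD f hf).1; omega⟩
    · rintro ⟨h, _⟩
      have := (hD f hf).1
      exact ⟨⟨Nat.pos_of_dvd_of_pos h (by omega), (Nat.le_of_dvd (by omega) h).trans (hD f hf).2⟩, h⟩
  have h3 : ∑ q ∈ Icc 1 F, ∑ b ∈ (range q).filter (fun b => b.Coprime q),
      (sg T D q : ℂ) * g ((b : ℝ) / q) =
      ∑ f ∈ T, (1 / (D f : ℂ)) * ∑ q ∈ (Icc 1 F).filter (fun q => q ∣ D f),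
        ∑ b ∈ (range q).filter (fun b => b.Coprime q), g ((b : ℝ) / (q : ℕ)) := by
    calc ∑ q ∈ Icc 1 F, ∑ b ∈ (range q).filter (fun b => b.Coprime q),
        (sg T D q : ℂ) * g ((b : ℝ) / q)
        = ∑ q ∈ Icc 1 F, ∑ f ∈ T, if q ∣ D f then (1 / (D f : ℂ)) *
            ∑ b ∈ (range q).filter (fun b => b.Coprime q), g ((b : ℝ) / q) else 0 := by
          refine sum_congr rfl fun q _ => ?_
          rw [← mul_sum, ← sum_filter, ← sum_mul]
          congr 1
          unfold sg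
          push_cast
          rfl
      _ = ∑ f ∈ T, ∑ q ∈ Icc 1 F, if q ∣ D f then (1 / (D f : ℂ)) *
            ∑ b ∈ (range q).filter (fun b => b.Coprime q), g ((b : ℝ) / q) else 0 := sum_comm
      _ = _ := by
          refine sum_congr rfl fun f _ => ?_
          rw [← sum_filter, mul_sum]
  rw [h3]
  refine sum_eq_zero fun f hf => ?_
  rw [h2 f hf, mul_zero]

/-- the sum of `q * sg q ^ 2` -/
lemma sg_sq (T : Finset ι) (D : ι → ℕ) (F : ℕ) (hD : ∀ f ∈ T, 1 ≤ D f ∧ D f ≤ F) :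
    ∑ q ∈ Icc 1 F, (q : ℝ) * sg T D q ^ 2 ≤
      ∑ f ∈ T, ∑ g ∈ T, (∑ q ∈ (Nat.gcd (D f) (D g)).divisors, (q : ℝ)) / (D f * D g) := by
  have h1 : ∀ q : ℕ, (q : ℝ) * sg T D q ^ 2 =
      ∑ f ∈ T, ∑ g ∈ T, if q ∣ D f ∧ q ∣ D g then (q : ℝ) / (D f * D g) else 0 := by
    intro q
    unfold sg
    rw [sq, sum_mul_sum, sum_filter, mul_sum]
    refine sum_congr rfl fun f _ => ?_
    by_cases hf : q ∣ D f
    · rw [if_pos hf, sum_filter, mul_sum]
      refine sum_congr rfl fun g _ => ?_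
      by_cases hg : q ∣ D g
      · rw [if_pos hg, if_pos ⟨hf, hg⟩]
        rw [div_mul_div_comm, one_mul, mul_one_div]
      · rw [if_neg hg, if_neg (fun h => hg h.2), mul_zero]
    · rw [if_neg hf, mul_zero]
      symm
      exact sum_eq_zero fun g _ => if_neg (fun h => hf h.1)
  calc ∑ q ∈ Icc 1 F, (q : ℝ) * sg T D q ^ 2
      = ∑ q ∈ Icc 1 F, ∑ f ∈ T, ∑ g ∈ T,
          if q ∣ D f ∧ q ∣ D g then (q : ℝ) / (D f * D g) else 0 := sum_congr rfl fun q _ => h1 q
    _ = ∑ f ∈ T, ∑ g ∈ T, ∑ q ∈ Icc 1 F,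
          if q ∣ D f ∧ q ∣ D g then (q : ℝ) / (D f * D g) else 0 := by
        rw [sum_comm]
        refine sum_congr rfl fun f _ => ?_
        rw [sum_comm]
    _ ≤ _ := by
        refine sum_le_sum fun f hf => sum_le_sum fun g hg => ?_
        rw [← sum_filter, sum_div]
        refine sum_le_sum_of_subset_of_nonneg ?_ (fun _ _ _ => by positivity)
        intro q hq
        rw [mem_filter] at hq
        rw [Nat.mem_divisors]
        refine ⟨Nat.dvd_gcd hq.2.1 hq.2.2, ?_⟩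
        have := (hD f hf).1
        exact (Nat.gcd_pos_of_pos_left _ (by omega)).ne'

/-- **Key inequality.** -/
theorem key (N F : ℕ) (E I : Finset ℕ) (hE : E ⊆ Icc 1 N) (T : Finset ι) (D : ι → ℕ)
    (hD : ∀ f ∈ T, 1 ≤ D f ∧ D f ≤ F)
    (hav : ∀ n ∈ E, ∀ k ∈ I, ∀ f ∈ T, ¬ D f ∣ n + k)
    (hI : ∀ f ∈ T, ∀ q, q ∣ D f → q ≠ 1 →
      ∀ k ∈ I, ∀ k' ∈ I, (q : ℤ) ∣ (k : ℤ) - k' → k = k') :
    (E.card : ℝ) * I.card * (∑ f ∈ T, 1 / (D f : ℝ)) ^ 2 ≤
      6 * (N + (F : ℝ) ^ 2) *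
        ∑ f ∈ T, ∑ g ∈ T, (∑ q ∈ (Nat.gcd (D f) (D g)).divisors, (q : ℝ)) / (D f * D g) := by
  classical
  set G : ℝ := ∑ f ∈ T, ∑ g ∈ T, (∑ q ∈ (Nat.gcd (D f) (D g)).divisors, (q : ℝ)) / (D f * D g) with hG
  have hG0 : 0 ≤ G := sum_nonneg fun _ _ => sum_nonneg fun _ _ => by positivity
  rcases Nat.eq_zero_or_pos E.card with hE0 | hE0
  · rw [hE0]
    simp only [Nat.cast_zero, zero_mul]
    positivity
  rcases Nat.eq_zero_or_pos I.card with hI0 | hI0
  · rw [hI0]
    simp only [Nat.cast_zero, mul_zero, zero_mul]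
    positivity
  rcases T.eq_empty_or_nonempty with hT | ⟨f₀, hf₀⟩
  · rw [hT, sum_empty]
    simp only [ne_eq, OfNat.ofNat_ne_zero, not_false_eq_true, zero_pow, mul_zero]
    positivity
  have hF : 1 ≤ F := (hD f₀ hf₀).1.trans (hD f₀ hf₀).2
  set S : ℝ → ℂ := fun t => ∑ n ∈ E, ee (n * t) with hS
  set W : ℝ → ℂ := fun t => ∑ k ∈ I, ee (k * t) with hW
  set σ : ℝ := ∑ f ∈ T, 1 / (D f : ℝ) with hσ
  have hσ0 : 0 ≤ σ := sum_nonneg fun _ _ => by positivity
  have h1 := expand E I T D F hD hav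
  have h2 : Icc 1 F = insert 1 (Icc 2 F) := by
    ext q
    simp only [mem_Icc, mem_insert]
    omega
  have h3 : (1 : ℕ) ∉ Icc 2 F := by simp
  rw [h2, sum_insert h3] at h1
  have h4 : ∑ b ∈ (range 1).filter (fun b => b.Coprime 1),
      (sg T D 1 : ℂ) * ((∑ n ∈ E, ee (n * ((b : ℝ) / (1 : ℕ)))) * ∑ k ∈ I, ee (k * ((b : ℝ) / (1 : ℕ)))) =
      ((σ * (E.card * I.card) : ℝ) : ℂ) := by
    have e1 : (range 1).filter (fun b => b.Coprime 1) = {0} := by
      ext b
      simp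
    rw [e1, sum_singleton]
    have e2 : sg T D 1 = σ := by
      unfold sg
      rw [hσ]
      congr 1
      exact filter_true_of_mem fun f _ => one_dvd _
    rw [e2]
    push_cast
    simp [ls_ee_zero]
  rw [h4] at h1
  -- the terms `q ≥ 2`
  set Sig : Finset (Σ _ : ℕ, ℕ) := (Icc 2 F).sigma (fun q => (range q).filter (fun b => b.Coprime q))
    with hSig
  have h5 : σ * (E.card * I.card) ≤ ∑ r ∈ Sig, ‖S ((r.2 : ℝ) / r.1)‖ * (sg T D r.1 * ‖W ((r.2 : ℝ) / r.1)‖) := by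
    have e1 : ((σ * (E.card * I.card) : ℝ) : ℂ) =
        -∑ r ∈ Sig, (sg T D r.1 : ℂ) * (S ((r.2 : ℝ) / r.1) * W ((r.2 : ℝ) / r.1)) := by
      rw [hSig, Finset.sum_sigma]
      rw [← eq_neg_iff_add_eq_zero] at h1
      exact h1
    have e2 : σ * (E.card * I.card) = ‖((σ * (E.card * I.card) : ℝ) : ℂ)‖ := by
      rw [Complex.norm_real, Real.norm_of_nonneg (by positivity)]
    rw [e2, e1, norm_neg]
    refine (norm_sum_le _ _).trans (sum_le_sum fun r _ => ?_)
    rw [norm_mul, norm_mul, Complex.norm_real, Real.norm_of_nonneg (sg_nonneg _ _ _)]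
    apply le_of_eq
    ring
  have h6 : (σ * (E.card * I.card)) ^ 2 ≤ (∑ r ∈ Sig, ‖S ((r.2 : ℝ) / r.1)‖ ^ 2) *
      ∑ r ∈ Sig, (sg T D r.1 * ‖W ((r.2 : ℝ) / r.1)‖) ^ 2 :=
    (pow_le_pow_left₀ (by positivity) h5 2).trans (sum_mul_sq_le_sq_mul_sq _ _ _)
  have h7 : ∑ r ∈ Sig, ‖S ((r.2 : ℝ) / r.1)‖ ^ 2 ≤ 6 * (N + (F : ℝ) ^ 2) * E.card := by
    have e1 := additive_large_sieve N F (fun n => if n ∈ E then 1 else 0)
    have e2 : ∑ n ∈ Icc 1 N, ‖(if n ∈ E then (1 : ℂ) else 0)‖ ^ 2 = E.card := by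
      have : ∀ n ∈ Icc 1 N, ‖(if n ∈ E then (1 : ℂ) else 0)‖ ^ 2 = if n ∈ E then (1 : ℝ) else 0 := by
        intro n _
        split_ifs <;> simp
      rw [sum_congr rfl this, ← sum_filter]
      rw [filter_mem_eq_inter, inter_eq_right.2 hE]
      simp
    rw [e2] at e1
    refine le_trans ?_ e1
    rw [hSig, Finset.sum_sigma]
    have e3 : ∀ (f a : ℕ), ∑ n ∈ Icc 1 N, (if n ∈ E then (1 : ℂ) else 0) * ee (n * a / f) = S ((a : ℝ) / f) := by
      intro f a
      simp only [ite_mul, one_mul, zero_mul]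
      rw [← sum_filter, filter_mem_eq_inter, inter_eq_right.2 hE]
      simp only [hS]
      refine sum_congr rfl fun n _ => ?_
      rw [mul_div_assoc]
    simp only [e3]
    refine sum_le_sum_of_subset_of_nonneg ?_ (fun _ _ _ => by positivity)
    intro q hq
    rw [mem_Icc] at hq ⊢
    omega
  have h8 : ∑ r ∈ Sig, (sg T D r.1 * ‖W ((r.2 : ℝ) / r.1)‖) ^ 2 ≤ I.card * G := by
    rw [hSig, Finset.sum_sigma]
    calc ∑ q ∈ Icc 2 F, ∑ b ∈ (range q).filter (fun b => b.Coprime q),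
        (sg T D q * ‖W ((b : ℝ) / q)‖) ^ 2
        ≤ ∑ q ∈ Icc 2 F, (q : ℝ) * sg T D q ^ 2 * I.card := by
          refine sum_le_sum fun q hq => ?_
          rw [mem_Icc] at hq
          by_cases hq2 : ∃ f ∈ T, q ∣ D f
          · obtain ⟨f, hf, hqf⟩ := hq2
            have e1 := W_sum q (by omega) I (hI f hf q hqf (by omega))
            calc ∑ b ∈ (range q).filter (fun b => b.Coprime q), (sg T D q * ‖W ((b : ℝ) / q)‖) ^ 2
                ≤ ∑ b ∈ range q, (sg T D q * ‖W ((b : ℝ) / q)‖) ^ 2 :=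
                  sum_le_sum_of_subset_of_nonneg (filter_subset _ _) (fun _ _ _ => by positivity)
              _ = sg T D q ^ 2 * ∑ b ∈ range q, ‖W ((b : ℝ) / q)‖ ^ 2 := by
                  rw [mul_sum]
                  exact sum_congr rfl fun b _ => by ring
              _ = _ := by rw [e1]; ring
          · have e1 : sg T D q = 0 := by
              unfold sg
              rw [filter_false_of_mem, sum_empty]
              intro f hf hqf
              exact hq2 ⟨f, hf, hqf⟩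
            rw [e1]
            simp
      _ = I.card * ∑ q ∈ Icc 2 F, (q : ℝ) * sg T D q ^ 2 := by
          rw [mul_sum]
          exact sum_congr rfl fun b _ => by ring
      _ ≤ I.card * ∑ q ∈ Icc 1 F, (q : ℝ) * sg T D q ^ 2 := by
          refine mul_le_mul_of_nonneg_left ?_ (by positivity)
          refine sum_le_sum_of_subset_of_nonneg ?_ (fun _ _ _ => by positivity)
          intro q hq
          rw [mem_Icc] at hq ⊢
          omega
      _ ≤ _ := mul_le_mul_of_nonneg_left (sg_sq T D F hD) (by positivity)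
  have hEp : (0 : ℝ) < E.card := by exact_mod_cast hE0
  have hIp : (0 : ℝ) < I.card := by exact_mod_cast hI0
  have h9 : (σ * (E.card * I.card)) ^ 2 ≤ 6 * (N + (F : ℝ) ^ 2) * E.card * (I.card * G) :=
    h6.trans (mul_le_mul h7 h8 (sum_nonneg fun _ _ => by positivity) (by positivity))
  have h10 : (E.card * I.card : ℝ) * ((E.card : ℝ) * I.card * σ ^ 2) ≤
      (E.card * I.card : ℝ) * (6 * (N + (F : ℝ) ^ 2) * G) := by
    calc (E.card * I.card : ℝ) * ((E.card : ℝ) * I.card * σ ^ 2) = (σ * (E.card * I.card)) ^ 2 := by ring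
      _ ≤ _ := h9
      _ = _ := by ring
  exact le_of_mul_le_mul_left h10 (by positivity)

end

end Pool.Agent.K9h59.VS
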