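import Pool.Agent.K9h59.VS.A
import Pool.Agent.K9h59.VS.B

/-!
The inequality for the products of `R` primes, one from each of the ranges `(4^j K, 4^(j+1) K]`.
-/

set_option autoImplicit false

namespace Pool.Agent.K9h59.VS

open Finset

/-- the tuples of primes -/
def TT (R K : ℕ) : Finset (Fin R → ℕ) := Fintype.piFinset (fun j : Fin R => PY (4 ^ (j : ℕ) * K))

/-- their product -/
def DD {R : ℕ} (f : Fin R → ℕ) : ℕ := ∏ j, f j

lemma mem_TT {R K : ℕ} {f : Fin R → ℕ} (hf : f ∈ TT R K) (j : Fin R) :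
    4 ^ (j : ℕ) * K < f j ∧ f j ≤ 4 ^ ((j : ℕ) + 1) * K ∧ (f j).Prime := by
  unfold TT at hf
  rw [Fintype.mem_piFinset] at hf
  have := hf j
  unfold PY at this
  rw [mem_filter, mem_Ioc] at this
  exact ⟨this.1.1, by rw [pow_succ]; linarith [this.1.2], this.2⟩

lemma TT_gt {R K : ℕ} {f : Fin R → ℕ} (hf : f ∈ TT R K) (j : Fin R) : K < f j := by
  have h := (mem_TT hf j).1
  have : K ≤ 4 ^ (j : ℕ) * K := Nat.le_mul_of_pos_left _ (by positivity)
  omega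

lemma TT_le {R K : ℕ} {f : Fin R → ℕ} (hf : f ∈ TT R K) (j : Fin R) : f j ≤ 4 ^ R * K := by
  refine (mem_TT hf j).2.1.trans ?_
  exact Nat.mul_le_mul_right _ (Nat.pow_le_pow_right (by norm_num) j.2)

lemma TT_ne {R K : ℕ} {f g : Fin R → ℕ} (hf : f ∈ TT R K) (hg : g ∈ TT R K) {i j : Fin R}
    (hij : i ≠ j) : f i ≠ g j := by
  have key : ∀ {f g : Fin R → ℕ}, f ∈ TT R K → g ∈ TT R K → ∀ {i j : Fin R}, i < j → f i < g j := by
    intro f g hf hg i j h
    have h1 := (mem_TT hf i).2.1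
    have h2 := (mem_TT hg j).1
    have h3 : 4 ^ ((i : ℕ) + 1) * K ≤ 4 ^ (j : ℕ) * K :=
      Nat.mul_le_mul_right _ (Nat.pow_le_pow_right (by norm_num) h)
    omega
  rcases lt_or_gt_of_ne hij with h | h
  · exact (key hf hg h).ne
  · exact (key hg hf h).ne'

lemma DD_pos {R K : ℕ} {f : Fin R → ℕ} (hf : f ∈ TT R K) : 1 ≤ DD f :=
  Nat.one_le_iff_ne_zero.2 (prod_ne_zero_iff.2 fun j _ => (mem_TT hf j).2.2.ne_zero)

lemma DD_le {R K : ℕ} {f : Fin R → ℕ} (hf : f ∈ TT R K) : DD f ≤ (4 ^ R * K) ^ R := by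
  calc DD f ≤ ∏ _j : Fin R, 4 ^ R * K := prod_le_prod' fun j _ => TT_le hf j
    _ = _ := by rw [prod_const, card_univ, Fintype.card_fin]

lemma dvd_DD_gt {R K : ℕ} {f : Fin R → ℕ} (hf : f ∈ TT R K) {q : ℕ} (hq : q ∣ DD f) (h1 : q ≠ 1) :
    K < q := by
  obtain ⟨p, hp, hpq⟩ := Nat.exists_prime_and_dvd h1
  have h2 : p ∣ DD f := hpq.trans hq
  obtain ⟨j, _, hj⟩ := (hp.prime.dvd_finsetProd_iff _).1 h2
  have h3 : p = f j := (Nat.prime_dvd_prime_iff_eq hp (mem_TT hf j).2.2).1 hj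
  have h4 := TT_gt hf j
  have h5 : 0 < q := Nat.pos_of_dvd_of_pos hq (DD_pos hf)
  have := Nat.le_of_dvd h5 hpq
  omega

open scoped Pointwise in
lemma card_divisors_prod {R : ℕ} (f : Fin R → ℕ) (hf : ∀ j, (f j).Prime) (s : Finset (Fin R)) :
    (∏ j ∈ s, f j).divisors.card ≤ 2 ^ s.card := by
  classical
  induction s using Finset.induction_on with
  | empty => simp
  | insert a s ha ih =>
    rw [prod_insert ha, card_insert_of_notMem ha, Nat.divisors_mul, pow_succ, mul_comm (2 ^ _) 2]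
    refine card_mul_le.trans (Nat.mul_le_mul ?_ ih)
    rw [Nat.Prime.divisors (hf a)]
    exact card_le_two

lemma gcd_prod_dvd {R : ℕ} (f : Fin R → ℕ) (m : ℕ) (s : Finset (Fin R)) :
    Nat.gcd (∏ j ∈ s, f j) m ∣ ∏ j ∈ s, Nat.gcd (f j) m := by
  classical
  induction s using Finset.induction_on with
  | empty => simp
  | insert a s ha ih =>
    rw [prod_insert ha, prod_insert ha, Nat.gcd_comm]
    refine (Nat.gcd_mul_right_dvd_mul_gcd _ _ _).trans ?_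
    rw [Nat.gcd_comm m (f a), Nat.gcd_comm m]
    exact mul_dvd_mul_left _ ih

lemma gcd_DD_dvd {R K : ℕ} {f g : Fin R → ℕ} (hf : f ∈ TT R K) (hg : g ∈ TT R K) :
    Nat.gcd (DD f) (DD g) ∣ ∏ j, Nat.gcd (f j) (g j) := by
  refine (gcd_prod_dvd f (DD g) univ).trans (prod_dvd_prod_of_dvd _ _ fun i _ => ?_)
  rw [Nat.gcd_comm]
  refine (gcd_prod_dvd g (f i) univ).trans ?_
  rw [prod_eq_single i]
  · rw [Nat.gcd_comm]
  · intro j _ hj
    have := (Nat.coprime_primes (mem_TT hg j).2.2 (mem_TT hf i).2.2).2 (TT_ne hg hf hj)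
    exact this
  · intro h
    exact absurd (mem_univ _) h

lemma sigma_gcd_le {R K : ℕ} {f g : Fin R → ℕ} (hf : f ∈ TT R K) (hg : g ∈ TT R K) :
    (∑ q ∈ (Nat.gcd (DD f) (DD g)).divisors, (q : ℝ)) / (DD f * DD g) ≤
      2 ^ R * ∏ j, ((Nat.gcd (f j) (g j) : ℝ) / (f j * g j)) := by
  have hf0 : 0 < DD f := DD_pos hf
  have hg0 : 0 < DD g := DD_pos hg
  have h1 : (∑ q ∈ (Nat.gcd (DD f) (DD g)).divisors, (q : ℝ)) ≤ 2 ^ R * (Nat.gcd (DD f) (DD g) : ℝ) := by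
    have e1 : ((Nat.gcd (DD f) (DD g)).divisors.card : ℝ) ≤ 2 ^ R := by
      have e2 : (Nat.gcd (DD f) (DD g)).divisors.card ≤ 2 ^ R := by
        refine (card_le_card (Nat.divisors_subset_of_dvd hf0.ne' (Nat.gcd_dvd_left _ _))).trans ?_
        have := card_divisors_prod f (fun j => (mem_TT hf j).2.2) univ
        rwa [card_univ, Fintype.card_fin] at this
      exact_mod_cast e2
    calc (∑ q ∈ (Nat.gcd (DD f) (DD g)).divisors, (q : ℝ))
        ≤ ∑ _q ∈ (Nat.gcd (DD f) (DD g)).divisors, (Nat.gcd (DD f) (DD g) : ℝ) := by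
          refine sum_le_sum fun q hq => ?_
          exact_mod_cast Nat.divisor_le hq
      _ = (Nat.gcd (DD f) (DD g)).divisors.card * (Nat.gcd (DD f) (DD g) : ℝ) := by
          rw [sum_const, nsmul_eq_mul]
      _ ≤ _ := mul_le_mul_of_nonneg_right e1 (by positivity)
  have h2 : (Nat.gcd (DD f) (DD g) : ℝ) ≤ ∏ j, (Nat.gcd (f j) (g j) : ℝ) := by
    have : Nat.gcd (DD f) (DD g) ≤ ∏ j, Nat.gcd (f j) (g j) :=
      Nat.le_of_dvd (prod_pos fun j _ => Nat.gcd_pos_of_pos_left _ (mem_TT hf j).2.2.pos)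
        (gcd_DD_dvd hf hg)
    exact_mod_cast this
  have h3 : (0 : ℝ) < (DD f : ℝ) * DD g := by positivity
  calc (∑ q ∈ (Nat.gcd (DD f) (DD g)).divisors, (q : ℝ)) / (DD f * DD g)
      ≤ 2 ^ R * (∏ j, (Nat.gcd (f j) (g j) : ℝ)) / (DD f * DD g) := by
        apply div_le_div_of_nonneg_right _ h3.le
        exact h1.trans (mul_le_mul_of_nonneg_left h2 (by positivity))
    _ = _ := by
        rw [prod_div_distrib, prod_mul_distrib]
        unfold DD
        push_cast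
        ring

/-- the sum of reciprocals over the `j`-th range -/
noncomputable def ss (K j : ℕ) : ℝ := ∑ p ∈ PY (4 ^ j * K), 1 / (p : ℝ)

lemma sum_TT (R K : ℕ) : ∑ f ∈ TT R K, 1 / (DD f : ℝ) = ∏ j : Fin R, ss K j := by
  unfold ss
  rw [prod_univ_sum]
  unfold TT
  refine sum_congr rfl fun f _ => ?_
  unfold DD
  push_cast
  rw [prod_div_distrib, prod_const_one]

lemma gcd_sum_le (Y : ℕ) : ∑ p ∈ PY Y, ∑ p' ∈ PY Y, ((Nat.gcd p p' : ℝ) / (p * p')) ≤
    (∑ p ∈ PY Y, 1 / (p : ℝ)) ^ 2 + ∑ p ∈ PY Y, 1 / (p : ℝ) := by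
  rw [sq, sum_mul_sum, ← sum_add_distrib]
  refine sum_le_sum fun p hp => ?_
  unfold PY at hp
  rw [mem_filter] at hp
  have hp0 : (0 : ℝ) < p := by exact_mod_cast hp.2.pos
  have h1 : ∀ p' ∈ PY Y, ((Nat.gcd p p' : ℝ) / (p * p')) ≤
      1 / (p : ℝ) * (1 / (p' : ℝ)) + if p = p' then 1 / (p : ℝ) else 0 := by
    intro p' hp'
    unfold PY at hp'
    rw [mem_filter] at hp'
    by_cases e : p = p'
    · subst e
      rw [if_pos rfl, Nat.gcd_self]
      have : (p : ℝ) / (p * p) = 1 / p := by field_simp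
      rw [this]
      have : 0 ≤ 1 / (p : ℝ) * (1 / (p : ℝ)) := by positivity
      linarith
    · rw [if_neg e, (Nat.coprime_primes hp.2 hp'.2).2 e]
      rw [Nat.cast_one, div_mul_div_comm, one_mul, add_zero]
  refine (sum_le_sum h1).trans ?_
  rw [sum_add_distrib, sum_ite_eq]
  have hp2 : p ∈ PY Y := by
    unfold PY
    rw [mem_filter]
    exact hp
  rw [if_pos hp2]

lemma G_le (R K : ℕ) : ∑ f ∈ TT R K, ∑ g ∈ TT R K,
    (∑ q ∈ (Nat.gcd (DD f) (DD g)).divisors, (q : ℝ)) / (DD f * DD g) ≤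
      2 ^ R * ∏ j : Fin R, (ss K j ^ 2 + ss K j) := by
  calc ∑ f ∈ TT R K, ∑ g ∈ TT R K,
      (∑ q ∈ (Nat.gcd (DD f) (DD g)).divisors, (q : ℝ)) / (DD f * DD g)
      ≤ ∑ f ∈ TT R K, ∑ g ∈ TT R K, 2 ^ R * ∏ j, ((Nat.gcd (f j) (g j) : ℝ) / (f j * g j)) :=
        sum_le_sum fun f hf => sum_le_sum fun g hg => sigma_gcd_le hf hg
    _ = 2 ^ R * ∑ f ∈ TT R K, ∑ g ∈ TT R K, ∏ j, ((Nat.gcd (f j) (g j) : ℝ) / (f j * g j)) := by
        rw [mul_sum]
        refine sum_congr rfl fun f _ => ?_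
        rw [mul_sum]
    _ = 2 ^ R * ∏ j : Fin R, ∑ p ∈ PY (4 ^ (j : ℕ) * K), ∑ p' ∈ PY (4 ^ (j : ℕ) * K),
          ((Nat.gcd p p' : ℝ) / (p * p')) := by
        rw [prod_univ_sum]
        unfold TT
        congr 1
        refine sum_congr rfl fun f _ => ?_
        rw [prod_univ_sum]
    _ ≤ _ := by
        refine mul_le_mul_of_nonneg_left ?_ (by positivity)
        refine prod_le_prod (fun _ _ => sum_nonneg fun _ _ => sum_nonneg fun _ _ => by positivity)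
          fun j _ => ?_
        exact gcd_sum_le _

/-- **The count of the integers without such a divisor nearby.** -/
theorem count (R K N : ℕ) (hK : 1 ≤ K) (E : Finset ℕ) (hE : E ⊆ Icc 1 N)
    (hav : ∀ n ∈ E, ∀ k ∈ Ioc (K / 2) K, ∀ f ∈ TT R K, ¬ DD f ∣ n + k)
    (hs : ∀ j : Fin R, 0 < ss K j) :
    (E.card : ℝ) * (Ioc (K / 2) K).card ≤
      6 * (N + (((4 ^ R * K) ^ R : ℕ) : ℝ) ^ 2) * ∏ j : Fin R, (2 * (1 + 1 / ss K j)) := by
  have h1 := key N ((4 ^ R * K) ^ R) E (Ioc (K / 2) K) hE (TT R K) DD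
    (fun f hf => ⟨DD_pos hf, DD_le hf⟩) hav (by
      intro f hf q hq hq1 k hk k' hk' h
      have h2 := dvd_DD_gt hf hq hq1
      rw [mem_Ioc] at hk hk'
      have h3 : |(k : ℤ) - k'| < q := by
        rw [abs_lt]
        constructor <;> omega
      have h4 := Int.eq_zero_of_abs_lt_dvd h h3
      omega)
  rw [sum_TT] at h1
  have h2 := G_le R K
  have h3 : (E.card : ℝ) * (Ioc (K / 2) K).card * (∏ j : Fin R, ss K j) ^ 2 ≤
      6 * (N + (((4 ^ R * K) ^ R : ℕ) : ℝ) ^ 2) * (2 ^ R * ∏ j : Fin R, (ss K j ^ 2 + ss K j)) :=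
    h1.trans (mul_le_mul_of_nonneg_left h2 (by positivity))
  have h4 : (∏ j : Fin R, (2 * (1 + 1 / ss K j))) * (∏ j : Fin R, ss K j) ^ 2 =
      2 ^ R * ∏ j : Fin R, (ss K j ^ 2 + ss K j) := by
    rw [← prod_pow]
    rw [show (2 : ℝ) ^ R = ∏ _j : Fin R, 2 by rw [prod_const, card_univ, Fintype.card_fin]]
    rw [← prod_mul_distrib, ← prod_mul_distrib]
    refine prod_congr rfl fun j _ => ?_
    have := (hs j).ne'
    field_simp
  have h5 : 0 < (∏ j : Fin R, ss K j) ^ 2 := pow_pos (prod_pos fun j _ => hs j) 2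
  refine le_of_mul_le_mul_right ?_ h5
  refine h3.trans (le_of_eq ?_)
  rw [mul_assoc, mul_assoc, h4]
  ring

end Pool.Agent.K9h59.VS
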