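import Pool.Agent.K9h59.VS.C

/-!
All but `C x ^ (1 - 1 / (2 R)) (C log x) ^ R` of the integers `n ≤ x` have a `k ≥ l` with `v(n; k) ≥ R`.
-/

set_option autoImplicit false

namespace Pool.Agent.K9h59.VS

open Finset Real

/-- `V(n; k)`: the primes `p` whose exact power dividing `n + k` divides none of `n, …, n + k - 1` -/
noncomputable def V (n k : ℕ) : ℕ :=
  {p : ℕ | p.Prime ∧ p ∣ n + k ∧ ∀ i : ℕ, i < k → ¬ p ^ ((n + k).factorization p) ∣ n + i}.ncard

/-- `v(n; k)`: the primes dividing `n + k` and none of `n, …, n + k - 1` -/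
noncomputable def v (n k : ℕ) : ℕ :=
  {p : ℕ | p.Prime ∧ p ∣ n + k ∧ ∀ i : ℕ, i < k → ¬ p ∣ n + i}.ncard

lemma fin_set (n k : ℕ) (hn : 1 ≤ n) (P : ℕ → Prop) : {p : ℕ | p.Prime ∧ p ∣ n + k ∧ P p}.Finite := by
  refine (Finset.finite_toSet (n + k).primeFactors).subset ?_
  intro p hp
  rw [mem_coe, Nat.mem_primeFactors]
  exact ⟨hp.1, hp.2.1, by omega⟩

lemma v_le_V (n k : ℕ) (hn : 1 ≤ n) : v n k ≤ V n k := by
  refine Set.ncard_le_ncard ?_ (fin_set n k hn _)
  rintro p ⟨hp, hd, h⟩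
  refine ⟨hp, hd, fun i hi hpi => h i hi ?_⟩
  refine dvd_trans (dvd_pow_self p ?_) hpi
  exact (hp.factorization_pos_of_dvd (by omega) hd).ne'

/-- a product of primes from the ranges dividing `n + k` -/
lemma le_v {R K n k : ℕ} (hn : 1 ≤ n) (hk : k ≤ K) {f : Fin R → ℕ} (hf : f ∈ TT R K)
    (hd : DD f ∣ n + k) : R ≤ v n k := by
  have hinj : Function.Injective f := by
    intro i j h
    by_contra hij
    exact TT_ne hf hf hij h
  have h1 : Set.range f ⊆ {p : ℕ | p.Prime ∧ p ∣ n + k ∧ ∀ i : ℕ, i < k → ¬ p ∣ n + i} := by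
    rintro p ⟨j, rfl⟩
    have hj : f j ∣ n + k := (dvd_prod_of_mem f (mem_univ j)).trans hd
    refine ⟨(mem_TT hf j).2.2, hj, fun i hi h => ?_⟩
    have h2 : f j ∣ (n + k) - (n + i) := Nat.dvd_sub hj h
    have h3 : (n + k) - (n + i) = k - i := by omega
    rw [h3] at h2
    have h4 := Nat.le_of_dvd (by omega) h2
    have h5 := TT_gt hf j
    omega
  have h2 := Set.ncard_le_ncard h1 (fin_set n k hn _)
  have h3 : (Set.range f).ncard = R := by
    rw [← Set.image_univ, Set.ncard_image_of_injective _ hinj, Set.ncard_univ, Nat.card_eq_fintype_card,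
      Fintype.card_fin]
  rw [h3] at h2
  exact h2

/-- **The exceptional set.** -/
theorem main : ∃ C : ℝ, 16 ≤ C ∧ ∀ R : ℕ, 1 ≤ R → ∀ x : ℝ, 2 ≤ x → ∀ S : Finset ℕ, S ⊆ Icc 1 ⌊x⌋₊ →
    (∀ n ∈ S, ¬ ∀ l : ℕ, (l : ℝ) * C ^ R ≤ x ^ (1 / (2 * (R : ℝ))) → ∃ k : ℕ, l ≤ k ∧ R ≤ v n k) →
    (S.card : ℝ) ≤ C * x ^ (1 - 1 / (2 * (R : ℝ))) * (C * Real.log x) ^ R := by
  classical
  obtain ⟨c, hc, hlow⟩ := recip_lower
  refine ⟨48 + 4 * (4 + 2 / c), ?_, fun R hR x hx S hS hbad => ?_⟩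
  · have : 0 < 2 / c := by positivity
    linarith
  set C : ℝ := 48 + 4 * (4 + 2 / c) with hC
  have hc2 : 0 < 2 / c := by positivity
  have hC1 : 48 ≤ C := by rw [hC]; linarith
  have hR1 : (1 : ℝ) ≤ R := by exact_mod_cast hR
  have hx0 : 0 < x := by linarith
  set y : ℝ := x ^ (1 / (2 * (R : ℝ))) with hy
  have hy0 : 0 < y := rpow_pos_of_pos hx0 _
  have hy1 : 1 ≤ y := one_le_rpow (by linarith) (by positivity)
  have hyx : y ≤ x := by
    calc y ≤ x ^ (1 : ℝ) := by
          apply rpow_le_rpow_of_exponent_le (by linarith)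
          rw [div_le_one (by positivity)]
          linarith
      _ = x := rpow_one x
  have hyR : y ^ (2 * R) = x := by
    rw [hy, ← rpow_natCast, ← rpow_mul hx0.le]
    push_cast
    rw [one_div, inv_mul_cancel₀ (by positivity), rpow_one]
  have hxy : x ^ (1 - 1 / (2 * (R : ℝ))) = x / y := by
    rw [rpow_sub hx0, rpow_one]
  have hlog2 := Real.log_two_gt_d9
  have hlog : Real.log 2 ≤ Real.log x := Real.log_le_log (by norm_num) hx
  have hL0 : 0 < Real.log x := by linarith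
  have hScard : (S.card : ℝ) ≤ x := by
    have h1 : S.card ≤ ⌊x⌋₊ := by
      have := card_le_card hS
      rwa [Nat.card_Icc, Nat.add_sub_cancel] at this
    calc (S.card : ℝ) ≤ (⌊x⌋₊ : ℝ) := by exact_mod_cast h1
      _ ≤ x := Nat.floor_le hx0.le
  rw [hxy]
  have h4R : (0 : ℝ) < 4 ^ R := by positivity
  by_cases hcase : y < 4 ^ R
  · have h1 : (4 : ℝ) ^ R ≤ (C * Real.log x) ^ R := by
      apply pow_le_pow_left₀ (by norm_num)
      nlinarith
    have h2 : y ≤ C * (C * Real.log x) ^ R := by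
      have h3 : 0 ≤ (C * Real.log x) ^ R := by positivity
      nlinarith
    calc (S.card : ℝ) ≤ x := hScard
      _ = x / y * y := by field_simp
      _ ≤ x / y * (C * (C * Real.log x) ^ R) := mul_le_mul_of_nonneg_left h2 (by positivity)
      _ = C * (x / y) * (C * Real.log x) ^ R := by ring
  · push Not at hcase
    set K : ℕ := ⌊y / 4 ^ R⌋₊ with hK
    have hK1 : 1 ≤ K := by
      rw [hK, Nat.one_le_floor_iff, le_div_iff₀ h4R, one_mul]
      exact hcase
    have hK1' : (1 : ℝ) ≤ K := by exact_mod_cast hK1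
    have hKle : (K : ℝ) ≤ y / 4 ^ R := Nat.floor_le (by positivity)
    have hKlt : y / 4 ^ R < K + 1 := Nat.lt_floor_add_one _
    have hKy : (4 : ℝ) ^ R * K ≤ y := by
      rw [le_div_iff₀ h4R] at hKle
      linarith
    have hyK : y < 4 ^ R * (K + 1) := by
      rw [div_lt_iff₀ h4R] at hKlt
      linarith
    -- the bad integers avoid all the products
    have hav : ∀ n ∈ S, ∀ k ∈ Ioc (K / 2) K, ∀ f ∈ TT R K, ¬ DD f ∣ n + k := by
      intro n hn k hk f hf hd
      rw [mem_Ioc] at hk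
      have hn1 : 1 ≤ n := (mem_Icc.1 (hS hn)).1
      apply hbad n hn
      intro l hl
      refine ⟨k, ?_, le_v hn1 hk.2 hf hd⟩
      have h1 : (16 : ℝ) ^ R ≤ C ^ R := pow_le_pow_left₀ (by norm_num) (by linarith) R
      have h2 : (l : ℝ) * 16 ^ R < 4 ^ R * (2 * K) := by
        calc (l : ℝ) * 16 ^ R ≤ l * C ^ R := mul_le_mul_of_nonneg_left h1 (by positivity)
          _ ≤ y := hl
          _ < 4 ^ R * (K + 1) := hyK
          _ ≤ 4 ^ R * (2 * K) := mul_le_mul_of_nonneg_left (by linarith) h4R.le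
      have h3 : (16 : ℝ) ^ R = 4 ^ R * 4 ^ R := by
        rw [← mul_pow]; norm_num
      have h4 : (l : ℝ) * 4 ^ R < 2 * K := by
        rw [h3] at h2
        have h5 : (4 : ℝ) ^ R * (l * 4 ^ R) < 4 ^ R * (2 * K) := by
          calc (4 : ℝ) ^ R * (l * 4 ^ R) = l * (4 ^ R * 4 ^ R) := by ring
            _ < _ := h2
        exact lt_of_mul_lt_mul_left h5 h4R.le
      have h5 : (4 : ℝ) ≤ 4 ^ R := by
        calc (4 : ℝ) = 4 ^ 1 := by norm_num
          _ ≤ 4 ^ R := pow_le_pow_right₀ (by norm_num) hR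
      have h6 : (l : ℝ) * 4 < 2 * K := by
        have : (l : ℝ) * 4 ≤ l * 4 ^ R := mul_le_mul_of_nonneg_left h5 (by positivity)
        linarith
      have h7 : l * 4 < 2 * K := by exact_mod_cast h6
      omega
    have hlogK : ∀ j : Fin R, c / Real.log x ≤ ss K j := by
      intro j
      have h1 := hlow (4 ^ (j : ℕ) * K) (Nat.one_le_iff_ne_zero.2 (by positivity))
      refine le_trans ?_ h1
      have h2 : (4 : ℝ) * ((4 ^ (j : ℕ) * K : ℕ) : ℝ) ≤ x := by
        have e1 : (4 : ℝ) * ((4 ^ (j : ℕ) * K : ℕ) : ℝ) ≤ 4 ^ R * K := by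
          have : 4 * (4 ^ (j : ℕ) * K) ≤ 4 ^ R * K := by
            calc 4 * (4 ^ (j : ℕ) * K) = 4 ^ ((j : ℕ) + 1) * K := by ring
              _ ≤ 4 ^ R * K := Nat.mul_le_mul_right _ (Nat.pow_le_pow_right (by norm_num) j.2)
          exact_mod_cast this
        linarith
      have h3 : (1 : ℝ) ≤ ((4 ^ (j : ℕ) * K : ℕ) : ℝ) := by
        exact_mod_cast Nat.one_le_iff_ne_zero.2 (by positivity)
      have h4 : 0 < Real.log (4 * ((4 ^ (j : ℕ) * K : ℕ) : ℝ)) := Real.log_pos (by linarith)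
      apply div_le_div_of_nonneg_left hc.le h4
      exact Real.log_le_log (by linarith) h2
    have hs : ∀ j : Fin R, 0 < ss K j := fun j => lt_of_lt_of_le (by positivity) (hlogK j)
    have hcount := count R K ⌊x⌋₊ hK1 S hS hav hs
    have hprod : ∏ j : Fin R, (2 * (1 + 1 / ss K j)) ≤ ((4 + 2 / c) * Real.log x) ^ R := by
      calc ∏ j : Fin R, (2 * (1 + 1 / ss K j)) ≤ ∏ _j : Fin R, ((4 + 2 / c) * Real.log x) := by
            refine prod_le_prod (fun j _ => by have := hs j; positivity) fun j _ => ?_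
            have h1 : 1 / ss K j ≤ Real.log x / c := by
              rw [div_le_div_iff₀ (hs j) hc, one_mul]
              have := hlogK j
              rw [div_le_iff₀ hL0] at this
              linarith
            have h2 : 2 / c * Real.log x = 2 * (Real.log x / c) := by ring
            nlinarith
        _ = _ := by rw [prod_const, card_univ, Fintype.card_fin]
    have hF : (((4 ^ R * K) ^ R : ℕ) : ℝ) ^ 2 ≤ x := by
      push_cast
      rw [← pow_mul, mul_comm R 2, ← hyR]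
      exact pow_le_pow_left₀ (by positivity) hKy _
    have hN : ((⌊x⌋₊ : ℕ) : ℝ) ≤ x := Nat.floor_le hx0.le
    have hI : y / (4 * 4 ^ R) ≤ ((Ioc (K / 2) K).card : ℝ) := by
      rw [Nat.card_Ioc]
      have e1 : (K : ℝ) / 2 ≤ ((K - K / 2 : ℕ) : ℝ) := by
        have : K ≤ 2 * (K - K / 2) := by omega
        have h2 : (K : ℝ) ≤ 2 * ((K - K / 2 : ℕ) : ℝ) := by exact_mod_cast this
        linarith
      refine le_trans ?_ e1
      rw [div_le_div_iff₀ (by positivity) (by norm_num)]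
      nlinarith
    have h1 : (S.card : ℝ) * (y / (4 * 4 ^ R)) ≤ 6 * (x + x) * ((4 + 2 / c) * Real.log x) ^ R := by
      calc (S.card : ℝ) * (y / (4 * 4 ^ R)) ≤ (S.card : ℝ) * ((Ioc (K / 2) K).card : ℝ) :=
            mul_le_mul_of_nonneg_left hI (by positivity)
        _ ≤ 6 * ((⌊x⌋₊ : ℕ) + (((4 ^ R * K) ^ R : ℕ) : ℝ) ^ 2) * ∏ j : Fin R, (2 * (1 + 1 / ss K j)) :=
            hcount
        _ ≤ _ := by
            refine mul_le_mul ?_ hprod (prod_nonneg fun j _ => by have := hs j; positivity) (by positivity)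
            linarith
    have h2 : (S.card : ℝ) ≤ 48 * (x / y) * (4 * (4 + 2 / c) * Real.log x) ^ R := by
      have e1 : (S.card : ℝ) = (S.card : ℝ) * (y / (4 * 4 ^ R)) * ((4 * 4 ^ R) / y) := by
        field_simp
      rw [e1]
      calc (S.card : ℝ) * (y / (4 * 4 ^ R)) * ((4 * 4 ^ R) / y)
          ≤ 6 * (x + x) * ((4 + 2 / c) * Real.log x) ^ R * ((4 * 4 ^ R) / y) :=
            mul_le_mul_of_nonneg_right h1 (by positivity)
        _ = _ := by
            rw [mul_assoc 4 (4 + 2 / c), mul_pow 4]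
            ring
    refine h2.trans ?_
    have h3 : (4 * (4 + 2 / c) * Real.log x) ^ R ≤ (C * Real.log x) ^ R := by
      apply pow_le_pow_left₀ (by positivity)
      apply mul_le_mul_of_nonneg_right _ hL0.le
      rw [hC]
      linarith
    refine mul_le_mul (mul_le_mul_of_nonneg_right hC1 (by positivity)) h3 (by positivity) (by positivity)

end Pool.Agent.K9h59.VS
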