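import Pool.Agent.K9h59.VS.B

/-!
A large sieve inequality for sets of integers `n` for which few primes (with weights) divide one of the
`n + k`, `k ∈ I`.
-/

set_option autoImplicit false

namespace Pool.Agent.K9h59.VS

open Finset Pool.Agent.Helper112

/-- the expansion into additive characters -/
lemma expand_lin (E I : Finset ℕ) (P : Finset ℕ) (w : ℕ → ℝ) (hP : ∀ p ∈ P, p.Prime) :
    ((∑ n ∈ E, ∑ k ∈ I, ∑ p ∈ P, if p ∣ n + k then w p else 0 : ℝ) : ℂ) =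
      ((E.card * I.card * ∑ p ∈ P, w p / p : ℝ) : ℂ) +
      ∑ p ∈ P, ∑ b ∈ (range p).filter (fun b => b.Coprime p),
        ((w p / p : ℝ) : ℂ) * ((∑ n ∈ E, ee (n * ((b : ℝ) / p))) * ∑ k ∈ I, ee (k * ((b : ℝ) / p))) := by
  set g : ℝ → ℂ := fun t => (∑ n ∈ E, ee (n * t)) * ∑ k ∈ I, ee (k * t) with hg
  have h1 : ∀ p ∈ P, ((∑ n ∈ E, ∑ k ∈ I, if p ∣ n + k then w p else 0 : ℝ) : ℂ) =
      ((w p / p : ℝ) : ℂ) * ∑ a ∈ range p, g ((a : ℝ) / p) := by
    intro p hp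
    have hp0 : (p : ℂ) ≠ 0 := by exact_mod_cast (hP p hp).ne_zero
    have h2 : ∑ a ∈ range p, g ((a : ℝ) / p) = ∑ n ∈ E, ∑ k ∈ I, if p ∣ n + k then (p : ℂ) else 0 := by
      calc ∑ a ∈ range p, g ((a : ℝ) / p)
          = ∑ a ∈ range p, ∑ n ∈ E, ∑ k ∈ I, ee ((((n + k : ℕ) : ℤ) : ℝ) * ((a : ℝ) / (p : ℕ))) := by
            refine sum_congr rfl fun a _ => ?_
            simp only [hg]
            rw [sum_mul_sum]
            refine sum_congr rfl fun n _ => sum_congr rfl fun k _ => ?_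
            rw [← ls_ee_add]
            congr 1
            push_cast
            ring
        _ = ∑ n ∈ E, ∑ k ∈ I, ∑ a ∈ range p, ee ((((n + k : ℕ) : ℤ) : ℝ) * ((a : ℝ) / (p : ℕ))) := by
            rw [sum_comm]
            refine sum_congr rfl fun n _ => ?_
            rw [sum_comm]
        _ = _ := by
            refine sum_congr rfl fun n _ => sum_congr rfl fun k _ => ?_
            rw [orth _ (hP p hp).one_lt.le]
            by_cases h : p ∣ n + k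
            · rw [if_pos (by exact_mod_cast h), if_pos h]
            · rw [if_neg (fun h' => h (by exact_mod_cast h')), if_neg h]
    rw [h2]
    push_cast
    rw [mul_sum]
    refine sum_congr rfl fun n _ => ?_
    rw [mul_sum]
    refine sum_congr rfl fun k _ => ?_
    split_ifs with h
    · rw [div_mul_cancel₀ _ hp0]
    · simp
  have h3 : ∀ p ∈ P, ∑ a ∈ range p, g ((a : ℝ) / p) =
      (E.card : ℂ) * I.card + ∑ b ∈ (range p).filter (fun b => b.Coprime p), g ((b : ℝ) / p) := by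
    intro p hp
    have hpp := hP p hp
    rw [range_sum p hpp.one_lt.le, Nat.Prime.divisors hpp, sum_insert (by simp [hpp.one_lt.ne]),
      sum_singleton]
    congr 1
    have e1 : (range 1).filter (fun b => b.Coprime 1) = {0} := by
      ext b
      simp
    rw [e1, sum_singleton]
    simp [hg, ls_ee_zero]
  have h4 : (∑ n ∈ E, ∑ k ∈ I, ∑ p ∈ P, if p ∣ n + k then w p else 0 : ℝ) =
      ∑ p ∈ P, ∑ n ∈ E, ∑ k ∈ I, if p ∣ n + k then w p else 0 := by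
    calc (∑ n ∈ E, ∑ k ∈ I, ∑ p ∈ P, if p ∣ n + k then w p else 0 : ℝ)
        = ∑ n ∈ E, ∑ p ∈ P, ∑ k ∈ I, if p ∣ n + k then w p else 0 :=
          sum_congr rfl fun n _ => sum_comm
      _ = _ := sum_comm
  rw [h4, Complex.ofReal_sum, sum_congr rfl h1]
  rw [sum_congr rfl (fun p hp => by rw [h3 p hp])]
  simp only [mul_add, sum_add_distrib]
  congr 1
  · push_cast
    rw [mul_sum]
    refine sum_congr rfl fun p _ => ?_
    ring
  · refine sum_congr rfl fun p _ => ?_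
    rw [mul_sum]

/-- **The linear large sieve.** -/
theorem lin_key (N y : ℕ) (E I P : Finset ℕ) (hE : E ⊆ Icc 1 N) (w : ℕ → ℝ)
    (hP : ∀ p ∈ P, p.Prime ∧ p ≤ y) (hw : ∀ p ∈ P, 0 ≤ w p)
    (hI : ∀ p ∈ P, ∀ k ∈ I, ∀ k' ∈ I, (p : ℤ) ∣ (k : ℤ) - k' → k = k') (B : ℝ)
    (hB : ∀ n ∈ E, (∑ k ∈ I, ∑ p ∈ P, if p ∣ n + k then w p else 0) ≤ B)
    (hμ : B ≤ I.card * ∑ p ∈ P, w p / p) :
    (E.card : ℝ) * (I.card * ∑ p ∈ P, w p / p - B) ^ 2 ≤
      6 * (N + (y : ℝ) ^ 2) * (I.card * ∑ p ∈ P, w p ^ 2 / p) := by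
  classical
  have hV0 : 0 ≤ ∑ p ∈ P, w p ^ 2 / p := sum_nonneg fun _ _ => by positivity
  rcases Nat.eq_zero_or_pos E.card with hE0 | hE0
  · rw [hE0]
    simp only [Nat.cast_zero, zero_mul]
    positivity
  set S : ℝ → ℂ := fun t => ∑ n ∈ E, ee (n * t) with hS
  set W : ℝ → ℂ := fun t => ∑ k ∈ I, ee (k * t) with hW
  set μ : ℝ := I.card * ∑ p ∈ P, w p / p with hμd
  have h1 := expand_lin E I P w (fun p hp => (hP p hp).1)
  set Sig : Finset (Σ _ : ℕ, ℕ) := P.sigma (fun q => (range q).filter (fun b => b.Coprime q))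
    with hSig
  have h5 : (E.card : ℝ) * (μ - B) ≤
      ∑ r ∈ Sig, ‖S ((r.2 : ℝ) / r.1)‖ * (w r.1 / r.1 * ‖W ((r.2 : ℝ) / r.1)‖) := by
    have e0 : (∑ n ∈ E, ∑ k ∈ I, ∑ p ∈ P, if p ∣ n + k then w p else 0 : ℝ) ≤ E.card * B := by
      calc (∑ n ∈ E, ∑ k ∈ I, ∑ p ∈ P, if p ∣ n + k then w p else 0 : ℝ) ≤ ∑ _n ∈ E, B :=
            sum_le_sum hB
        _ = _ := by rw [sum_const, nsmul_eq_mul]
    have e1 : (((E.card : ℝ) * μ - ∑ n ∈ E, ∑ k ∈ I, ∑ p ∈ P, if p ∣ n + k then w p else 0 : ℝ) : ℂ) =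
        -∑ r ∈ Sig, ((w r.1 / r.1 : ℝ) : ℂ) * (S ((r.2 : ℝ) / r.1) * W ((r.2 : ℝ) / r.1)) := by
      rw [hSig, Finset.sum_sigma, Complex.ofReal_sub, h1]
      have e2 : (((E.card : ℝ) * μ : ℝ) : ℂ) = ((E.card * I.card * ∑ p ∈ P, w p / p : ℝ) : ℂ) := by
        rw [hμd, mul_assoc]
      rw [e2]
      simp only [hS, hW]
      ring
    have e2 : (E.card : ℝ) * (μ - B) ≤
        ‖(((E.card : ℝ) * μ - ∑ n ∈ E, ∑ k ∈ I, ∑ p ∈ P, if p ∣ n + k then w p else 0 : ℝ) : ℂ)‖ := by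
      rw [Complex.norm_real]
      refine le_trans ?_ (Real.le_norm_self _)
      linarith
    refine e2.trans ?_
    rw [e1, norm_neg]
    refine (norm_sum_le _ _).trans (sum_le_sum fun r hr => ?_)
    rw [hSig, mem_sigma] at hr
    have hw0 := hw r.1 hr.1
    rw [norm_mul, norm_mul, Complex.norm_real, Real.norm_of_nonneg (by positivity)]
    apply le_of_eq
    ring
  have h50 : 0 ≤ (E.card : ℝ) * (μ - B) := mul_nonneg (by positivity) (by linarith)
  have h6 : ((E.card : ℝ) * (μ - B)) ^ 2 ≤ (∑ r ∈ Sig, ‖S ((r.2 : ℝ) / r.1)‖ ^ 2) *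
      ∑ r ∈ Sig, (w r.1 / r.1 * ‖W ((r.2 : ℝ) / r.1)‖) ^ 2 :=
    (pow_le_pow_left₀ h50 h5 2).trans (sum_mul_sq_le_sq_mul_sq _ _ _)
  have h7 : ∑ r ∈ Sig, ‖S ((r.2 : ℝ) / r.1)‖ ^ 2 ≤ 6 * (N + (y : ℝ) ^ 2) * E.card := by
    have e1 := additive_large_sieve N y (fun n => if n ∈ E then 1 else 0)
    have e2 : ∑ n ∈ Icc 1 N, ‖(if n ∈ E then (1 : ℂ) else 0)‖ ^ 2 = E.card := by
      have : ∀ n ∈ Icc 1 N, ‖(if n ∈ E then (1 : ℂ) else 0)‖ ^ 2 = if n ∈ E then (1 : ℝ) else 0 := by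
        intro n _
        split_ifs <;> simp
      rw [sum_congr rfl this, ← sum_filter]
      rw [filter_mem_eq_inter, inter_eq_right.2 hE]
      simp
    rw [e2] at e1
    refine le_trans ?_ e1
    rw [hSig, Finset.sum_sigma]
    have e3 : ∀ (f a : ℕ), ∑ n ∈ Icc 1 N, (if n ∈ E then (1 : ℂ) else 0) * ee (n * a / f) = S ((a : ℝ) / f) := by
      intro f a
      simp only [ite_mul, one_mul, zero_mul]
      rw [← sum_filter, filter_mem_eq_inter, inter_eq_right.2 hE]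
      simp only [hS]
      refine sum_congr rfl fun n _ => ?_
      rw [mul_div_assoc]
    simp only [e3]
    refine sum_le_sum_of_subset_of_nonneg ?_ (fun _ _ _ => by positivity)
    intro q hq
    rw [mem_Icc]
    exact ⟨(hP q hq).1.one_lt.le, (hP q hq).2⟩
  have h8 : ∑ r ∈ Sig, (w r.1 / r.1 * ‖W ((r.2 : ℝ) / r.1)‖) ^ 2 ≤ I.card * ∑ p ∈ P, w p ^ 2 / p := by
    rw [hSig, Finset.sum_sigma, mul_sum]
    refine sum_le_sum fun p hp => ?_
    have hp0 : (0 : ℝ) < p := by exact_mod_cast (hP p hp).1.pos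
    have e1 := W_sum p (hP p hp).1.one_lt.le I (hI p hp)
    calc ∑ b ∈ (range p).filter (fun b => b.Coprime p), (w p / p * ‖W ((b : ℝ) / p)‖) ^ 2
        ≤ ∑ b ∈ range p, (w p / p * ‖W ((b : ℝ) / p)‖) ^ 2 :=
          sum_le_sum_of_subset_of_nonneg (filter_subset _ _) (fun _ _ _ => by positivity)
      _ = (w p / p) ^ 2 * ∑ b ∈ range p, ‖W ((b : ℝ) / p)‖ ^ 2 := by
          rw [mul_sum]
          exact sum_congr rfl fun b _ => by ring
      _ = _ := by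
          rw [e1]
          field_simp
  have hEp : (0 : ℝ) < E.card := by exact_mod_cast hE0
  have h9 : ((E.card : ℝ) * (μ - B)) ^ 2 ≤
      6 * (N + (y : ℝ) ^ 2) * E.card * (I.card * ∑ p ∈ P, w p ^ 2 / p) :=
    h6.trans (mul_le_mul h7 h8 (sum_nonneg fun _ _ => by positivity) (by positivity))
  have h10 : (E.card : ℝ) * ((E.card : ℝ) * (μ - B) ^ 2) ≤
      (E.card : ℝ) * (6 * (N + (y : ℝ) ^ 2) * (I.card * ∑ p ∈ P, w p ^ 2 / p)) := by
    calc (E.card : ℝ) * ((E.card : ℝ) * (μ - B) ^ 2) = ((E.card : ℝ) * (μ - B)) ^ 2 := by ring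
      _ ≤ _ := h9
      _ = _ := by ring
  exact le_of_mul_le_mul_left h10 hEp

end Pool.Agent.K9h59.VS
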