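import Mathlib

/-!
Erdős's factorial argument: the product of the `2L`-smooth parts of `n + L + 1, …, n + 2L` is at most
`L! (n + 2L) ^ π(2L)`.
-/

set_option autoImplicit false

namespace Pool.Agent.K9h59.VS

open Finset

/-- the primes up to `K` -/
def SP (K : ℕ) : Finset ℕ := (Icc 1 K).filter Nat.Prime

/-- the logarithm of the `K`-smooth part of `m` -/
noncomputable def sm (K m : ℕ) : ℝ := ∑ p ∈ SP K, (m.factorization p : ℝ) * Real.log p

lemma sm_nonneg (K m : ℕ) : 0 ≤ sm K m :=
  sum_nonneg fun p _ => mul_nonneg (by positivity) (Real.log_natCast_nonneg p)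

lemma prod_eq (n L : ℕ) : ∏ k ∈ Ioc L (2 * L), (n + k) = L.factorial * (n + 2 * L).choose L := by
  have h1 := Nat.ascFactorial_eq_factorial_mul_choose (n + L) L
  have h2 : n + L + L = n + 2 * L := by ring
  rw [h2] at h1
  rw [← h1, Nat.ascFactorial_eq_prod_range]
  refine prod_nbij' (fun k => k - (L + 1)) (fun i => L + 1 + i) ?_ ?_ ?_ ?_ ?_
  · intro k hk
    rw [mem_Ioc] at hk
    rw [mem_range]
    omega
  · intro i hi
    rw [mem_range] at hi
    rw [mem_Ioc]
    omega
  · intro k hk
    rw [mem_Ioc] at hk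
    omega
  · intro i hi
    omega
  · intro k hk
    rw [mem_Ioc] at hk
    omega

lemma sum_log_factorization (K m : ℕ) (hm : m ≠ 0) : sm K m ≤ Real.log m := by
  rw [Real.log_nat_eq_sum_factorization, Finsupp.sum]
  unfold sm
  have h1 : ∑ p ∈ SP K, (m.factorization p : ℝ) * Real.log p =
      ∑ p ∈ (SP K).filter (fun p => p ∈ m.factorization.support), (m.factorization p : ℝ) * Real.log p := by
    rw [sum_filter]
    refine sum_congr rfl fun p _ => ?_
    split_ifs with h
    · rfl
    · rw [Finsupp.notMem_support_iff] at h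
      rw [h]
      simp
  rw [h1]
  refine sum_le_sum_of_subset_of_nonneg ?_
    fun p _ _ => mul_nonneg (by positivity) (Real.log_natCast_nonneg p)
  intro p hp
  exact (mem_filter.1 hp).2

lemma sm_mul (K a b : ℕ) (ha : a ≠ 0) (hb : b ≠ 0) : sm K (a * b) = sm K a + sm K b := by
  unfold sm
  rw [← sum_add_distrib]
  refine sum_congr rfl fun p _ => ?_
  rw [Nat.factorization_mul ha hb, Finsupp.add_apply]
  push_cast
  ring

lemma sm_prod (K : ℕ) (s : Finset ℕ) (f : ℕ → ℕ) (hf : ∀ k ∈ s, f k ≠ 0) :
    sm K (∏ k ∈ s, f k) = ∑ k ∈ s, sm K (f k) := by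
  classical
  induction s using Finset.induction_on with
  | empty => simp [sm]
  | insert a s ha ih =>
    rw [prod_insert ha, sum_insert ha, sm_mul, ih (fun k hk => hf k (mem_insert_of_mem hk))]
    · exact hf a (mem_insert_self _ _)
    · exact prod_ne_zero_iff.2 fun k hk => hf k (mem_insert_of_mem hk)

lemma sm_choose (K m L : ℕ) (hm : 1 ≤ m) : sm K (m.choose L) ≤ (SP K).card * Real.log m := by
  unfold sm
  calc ∑ p ∈ SP K, ((m.choose L).factorization p : ℝ) * Real.log p ≤ ∑ _p ∈ SP K, Real.log m := by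
        refine sum_le_sum fun p hp => ?_
        have hpp : p.Prime := (mem_filter.1 hp).2
        have h1 := Nat.pow_factorization_choose_le (p := p) (k := L) (n := m) (by omega)
        have h2 : ((p ^ (m.choose L).factorization p : ℕ) : ℝ) ≤ m := by exact_mod_cast h1
        have h3 : (0 : ℝ) < ((p ^ (m.choose L).factorization p : ℕ) : ℝ) := by
          exact_mod_cast pow_pos hpp.pos _
        have h4 := Real.log_le_log h3 h2
        push_cast at h4
        rwa [Real.log_pow] at h4
    _ = _ := by rw [sum_const, nsmul_eq_mul]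

/-- **Erdős's bound for the smooth parts.** -/
theorem sm_sum (n L : ℕ) (hL : 1 ≤ L) :
    ∑ k ∈ Ioc L (2 * L), sm (2 * L) (n + k) ≤
      L * Real.log L + (SP (2 * L)).card * Real.log ((n + 2 * L : ℕ) : ℝ) := by
  rw [← sm_prod _ _ (fun k => n + k) (fun k hk => by rw [mem_Ioc] at hk; omega), prod_eq]
  have hc : (n + 2 * L).choose L ≠ 0 := (Nat.choose_pos (by omega)).ne'
  rw [sm_mul _ _ _ (Nat.factorial_ne_zero L) hc]
  refine add_le_add ?_ (sm_choose _ _ _ (by omega))
  refine (sum_log_factorization _ _ (Nat.factorial_ne_zero L)).trans ?_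
  have h1 : ((L.factorial : ℕ) : ℝ) ≤ ((L ^ L : ℕ) : ℝ) := by exact_mod_cast Nat.factorial_le_pow L
  have h2 := Real.log_le_log (by exact_mod_cast Nat.factorial_pos L) h1
  push_cast at h2
  rwa [Real.log_pow] at h2

/-- some prime `p > K` has `p ^ 2 ∣ m` -/
def Sq (K m : ℕ) : Prop := ∃ p : ℕ, p.Prime ∧ K < p ∧ p ^ 2 ∣ m

/-- the contribution of a single integer with at most one prime factor `> K` -/
lemma pointwise (K y N m : ℕ) (hN : 1 ≤ N) (hNm : N ≤ m)
    (hone : ∀ p q : ℕ, p.Prime → q.Prime → K < p → K < q → p ∣ m → q ∣ m → p = q)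
    (hsq : ¬ Sq K m) :
    (∑ p ∈ (Ioc K y).filter Nat.Prime, if p ∣ m then Real.log ((N : ℝ) / p) else 0) ≤ sm K m := by
  classical
  by_cases h : ∃ p ∈ (Ioc K y).filter Nat.Prime, p ∣ m
  · obtain ⟨p, hp, hpm⟩ := h
    rw [mem_filter, mem_Ioc] at hp
    have h1 : (∑ q ∈ (Ioc K y).filter Nat.Prime, if q ∣ m then Real.log ((N : ℝ) / q) else 0) =
        Real.log ((N : ℝ) / p) := by
      rw [sum_eq_single p]
      · rw [if_pos hpm]
      · intro q hq hqp
        rw [mem_filter, mem_Ioc] at hq
        rw [if_neg]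
        intro hqm
        exact hqp (hone q p hq.2 hp.2 hq.1.1 hp.1.1 hqm hpm)
      · intro hcon
        exact absurd (mem_filter.2 ⟨mem_Ioc.2 hp.1, hp.2⟩) hcon
    rw [h1]
    have hp0 : (0 : ℝ) < p := by exact_mod_cast hp.2.pos
    have hN0 : (0 : ℝ) < N := by exact_mod_cast hN
    rw [Real.log_div hN0.ne' hp0.ne']
    have h2 : Real.log N ≤ Real.log m := Real.log_le_log hN0 (by exact_mod_cast hNm)
    have h3 : Real.log m ≤ sm K m + Real.log p := by
      rw [Real.log_nat_eq_sum_factorization, Finsupp.sum]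
      have hv : m.factorization p = 1 := by
        have e1 : 1 ≤ m.factorization p := (hp.2.dvd_iff_one_le_factorization (by omega)).1 hpm
        have e2 : ¬ 2 ≤ m.factorization p := by
          intro e3
          exact hsq ⟨p, hp.2, hp.1.1, (hp.2.pow_dvd_iff_le_factorization (by omega)).2 e3⟩
        omega
      rw [← sum_filter_add_sum_filter_not m.factorization.support (fun q => q ≤ K)]
      refine add_le_add ?_ ?_
      · unfold sm
        refine sum_le_sum_of_subset_of_nonneg ?_
          fun q _ _ => mul_nonneg (by positivity) (Real.log_natCast_nonneg q)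
        intro q hq
        rw [mem_filter, Nat.support_factorization, Nat.mem_primeFactors] at hq
        unfold SP
        rw [mem_filter, mem_Icc]
        exact ⟨⟨hq.1.1.one_lt.le, hq.2⟩, hq.1.1⟩
      · have e1 : (m.factorization.support).filter (fun q => ¬ q ≤ K) ⊆ {p} := by
          intro q hq
          rw [mem_filter, Nat.support_factorization, Nat.mem_primeFactors] at hq
          rw [mem_singleton]
          exact hone q p hq.1.1 hp.2 (by omega) hp.1.1 hq.1.2.1 hpm
        refine (sum_le_sum_of_subset_of_nonneg e1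
          fun q _ _ => mul_nonneg (by positivity) (Real.log_natCast_nonneg q)).trans ?_
        rw [sum_singleton, hv]
        simp
    linarith
  · push Not at h
    rw [sum_eq_zero fun p hp => if_neg (h p hp)]
    exact sm_nonneg _ _

end Pool.Agent.K9h59.VS
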