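import Pool.Agent.K9h59.VS.F
import Pool.Agent.H305R2.MertensM

/-!
Mertens: the mean of the weighted number of primes in `(2L, √N]`, `L = ⌈(2N)^δ⌉`.
-/

set_option autoImplicit false

namespace Pool.Agent.K9h59.VS

open Finset Filter Topology

/-- the length -/
noncomputable def LL (δ : ℝ) (N : ℕ) : ℕ := ⌈(2 * (N : ℝ)) ^ δ⌉₊

/-- the primes -/
noncomputable def PN (δ : ℝ) (N : ℕ) : Finset ℕ := (Ioc (2 * LL δ N) (Nat.sqrt N)).filter Nat.Prime

lemma LL_ge (δ : ℝ) (N : ℕ) : (2 * (N : ℝ)) ^ δ ≤ LL δ N := Nat.le_ceil _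

lemma LL_le {δ : ℝ} (hδ : 0 ≤ δ) {N : ℕ} (hN : 1 ≤ N) : (LL δ N : ℝ) ≤ 2 * (2 * (N : ℝ)) ^ δ := by
  have h1 : (1 : ℝ) ≤ 2 * (N : ℝ) := by
    have : (1 : ℝ) ≤ N := by exact_mod_cast hN
    linarith
  have h2 : 1 ≤ (2 * (N : ℝ)) ^ δ := Real.one_le_rpow h1 hδ
  have h3 := (Nat.ceil_lt_add_one (by positivity : 0 ≤ (2 * (N : ℝ)) ^ δ)).le
  unfold LL
  linarith

lemma LL_pos {δ : ℝ} {N : ℕ} (hN : 1 ≤ N) : 1 ≤ LL δ N := by
  unfold LL
  rw [Nat.one_le_ceil_iff]
  have : (0 : ℝ) < N := by exact_mod_cast hN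
  positivity

lemma logN_atTop : Tendsto (fun N : ℕ => Real.log N) atTop atTop :=
  Real.tendsto_log_atTop.comp tendsto_natCast_atTop_atTop

/-- a function within a constant of `a log N` -/
lemma ratio_tendsto (f : ℕ → ℝ) (a c : ℝ) (h : ∀ᶠ N : ℕ in atTop, |f N - a * Real.log N| ≤ c) :
    Tendsto (fun N : ℕ => f N / Real.log N) atTop (𝓝 a) := by
  rw [← tendsto_sub_nhds_zero_iff]
  have h1 : Tendsto (fun N : ℕ => c / Real.log N) atTop (𝓝 0) := logN_atTop.const_div_atTop c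
  refine squeeze_zero_norm' ?_ h1
  filter_upwards [h, eventually_ge_atTop 2] with N hN hN2
  have h2 : 0 < Real.log N := Real.log_pos (by exact_mod_cast (by omega : 1 < N))
  rw [Real.norm_eq_abs]
  have h3 : f N / Real.log N - a = (f N - a * Real.log N) / Real.log N := by
    field_simp
  rw [h3, abs_div, abs_of_pos h2]
  exact div_le_div_of_nonneg_right hN h2.le

lemma log2L_tendsto {δ : ℝ} (hδ : 0 < δ) :
    Tendsto (fun N : ℕ => Real.log ((2 * LL δ N : ℕ) : ℝ) / Real.log N) atTop (𝓝 δ) := by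
  refine ratio_tendsto _ δ (2 * Real.log 2 + δ * Real.log 2) ?_
  filter_upwards [eventually_ge_atTop 1] with N hN
  have hN0 : (0 : ℝ) < N := by exact_mod_cast hN
  have hl2 : 0 < Real.log 2 := Real.log_pos (by norm_num)
  have h1 : (0 : ℝ) < (2 * (N : ℝ)) ^ δ := by positivity
  have h2 : Real.log ((2 * (N : ℝ)) ^ δ) = δ * Real.log 2 + δ * Real.log N := by
    rw [Real.log_rpow (by positivity), Real.log_mul (by norm_num) hN0.ne']
    ring
  have h3 : (2 * (N : ℝ)) ^ δ ≤ ((2 * LL δ N : ℕ) : ℝ) := by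
    push_cast
    have := LL_ge δ N
    have h0 : (0 : ℝ) ≤ LL δ N := by positivity
    linarith
  have h4 : ((2 * LL δ N : ℕ) : ℝ) ≤ 4 * (2 * (N : ℝ)) ^ δ := by
    push_cast
    have := LL_le hδ.le hN
    linarith
  have h5 := Real.log_le_log h1 h3
  have h6 := Real.log_le_log (by linarith) h4
  rw [Real.log_mul (by norm_num) h1.ne', show (4 : ℝ) = 2 ^ 2 by norm_num, Real.log_pow] at h6
  push_cast at h5 h6 ⊢
  rw [h2] at h5 h6
  rw [abs_le]
  constructor
  · have : 0 ≤ δ * Real.log 2 := by positivity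
    linarith
  · linarith

lemma logs_tendsto :
    Tendsto (fun N : ℕ => Real.log ((Nat.sqrt N : ℕ) : ℝ) / Real.log N) atTop (𝓝 (1 / 2)) := by
  refine ratio_tendsto _ (1 / 2) (Real.log 2) ?_
  filter_upwards [eventually_ge_atTop 1] with N hN
  have hN0 : (0 : ℝ) < N := by exact_mod_cast hN
  have hs1 : 1 ≤ Nat.sqrt N := Nat.one_le_iff_ne_zero.2 (by
    intro h
    rw [Nat.sqrt_eq_zero] at h
    omega)
  have hs0 : (0 : ℝ) < (Nat.sqrt N : ℕ) := by exact_mod_cast hs1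
  have h1 : ((Nat.sqrt N : ℕ) : ℝ) ^ 2 ≤ N := by exact_mod_cast Nat.sqrt_le' N
  have h2 : (N : ℝ) ≤ (2 * ((Nat.sqrt N : ℕ) : ℝ)) ^ 2 := by
    have h3 : N < (Nat.sqrt N + 1) ^ 2 := Nat.lt_succ_sqrt' N
    have h4 : (Nat.sqrt N + 1) ^ 2 ≤ (2 * Nat.sqrt N) ^ 2 := Nat.pow_le_pow_left (by omega) 2
    have h5 : N ≤ (2 * Nat.sqrt N) ^ 2 := by omega
    exact_mod_cast h5
  have h3 := Real.log_le_log (by positivity) h1
  have h4 := Real.log_le_log hN0 h2
  rw [Real.log_pow] at h3 h4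
  rw [Real.log_mul (by norm_num) hs0.ne'] at h4
  push_cast at h3 h4
  have hl2 : 0 < Real.log 2 := Real.log_pos (by norm_num)
  rw [abs_le]
  constructor <;> linarith

lemma LL2_atTop {δ : ℝ} (hδ : 0 < δ) : Tendsto (fun N : ℕ => 2 * LL δ N) atTop atTop := by
  have h1 : Tendsto (fun N : ℕ => (2 * (N : ℝ)) ^ δ) atTop atTop :=
    (tendsto_rpow_atTop hδ).comp (tendsto_natCast_atTop_atTop.const_mul_atTop (by norm_num))
  have h2 : Tendsto (fun N : ℕ => ((2 * LL δ N : ℕ) : ℝ)) atTop atTop := by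
    refine tendsto_atTop_mono (fun N => ?_) h1
    push_cast
    have := LL_ge δ N
    have h0 : (0 : ℝ) ≤ LL δ N := by positivity
    linarith
  exact tendsto_natCast_atTop_iff.1 h2

lemma sqrt_atTop : Tendsto (fun N : ℕ => Nat.sqrt N) atTop atTop := by
  refine tendsto_atTop.2 fun b => ?_
  filter_upwards [eventually_ge_atTop (b ^ 2)] with N hN
  exact Nat.le_sqrt'.2 hN

/-- splitting a sum over primes -/
lemma split_sum (g : ℕ → ℝ) {a b : ℕ} (hab : a ≤ b) :
    ∑ p ∈ (Ioc a b).filter Nat.Prime, g p =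
      ∑ p ∈ (Icc 1 b).filter Nat.Prime, g p - ∑ p ∈ (Icc 1 a).filter Nat.Prime, g p := by
  rw [sum_filter, sum_filter, sum_filter]
  have e1 : Icc 1 b = Icc 1 a ∪ Ioc a b := by
    ext q
    simp only [mem_Icc, mem_union, mem_Ioc]
    omega
  rw [e1, sum_union]
  · ring
  · rw [disjoint_left]
    intro q hq hq'
    rw [mem_Icc] at hq
    rw [mem_Ioc] at hq'
    omega

lemma ev_le {δ : ℝ} (hδ : 0 < δ) (hδ2 : δ < 1 / 2) :
    ∀ᶠ N : ℕ in atTop, 2 * LL δ N ≤ Nat.sqrt N := by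
  have h1 := (log2L_tendsto hδ).eventually_lt logs_tendsto hδ2
  filter_upwards [h1, eventually_ge_atTop 2] with N hN hN2
  have h2 : 0 < Real.log N := Real.log_pos (by exact_mod_cast (by omega : 1 < N))
  rw [div_lt_div_iff_of_pos_right h2] at hN
  have hL := LL_pos (δ := δ) (N := N) (by omega)
  have h3 : (0 : ℝ) < ((2 * LL δ N : ℕ) : ℝ) := by exact_mod_cast (by omega : 0 < 2 * LL δ N)
  have hs1 : 1 ≤ Nat.sqrt N := Nat.one_le_iff_ne_zero.2 (by
    intro h
    rw [Nat.sqrt_eq_zero] at h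
    omega)
  have hs0 : (0 : ℝ) < (Nat.sqrt N : ℕ) := by exact_mod_cast hs1
  have h4 := (Real.log_lt_log_iff h3 hs0).1 hN
  exact_mod_cast h4.le

/-- the sum of the reciprocals -/
lemma recip_tendsto {δ : ℝ} (hδ : 0 < δ) (hδ2 : δ < 1 / 2) :
    Tendsto (fun N : ℕ => ∑ p ∈ PN δ N, 1 / (p : ℝ)) atTop (𝓝 (Real.log (1 / (2 * δ)))) := by
  obtain ⟨M, hM⟩ := Pool.Agent.H305R2.mertens_inv_tendsto
  have h1 := (hM.comp sqrt_atTop).sub (hM.comp (LL2_atTop hδ))
  rw [sub_self] at h1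
  have h2 : Tendsto (fun N : ℕ => Real.log ((Real.log ((Nat.sqrt N : ℕ) : ℝ) / Real.log N) /
      (Real.log ((2 * LL δ N : ℕ) : ℝ) / Real.log N))) atTop (𝓝 (Real.log (1 / 2 / δ))) :=
    (logs_tendsto.div (log2L_tendsto hδ) hδ.ne').log (by positivity)
  have h3 := h1.add h2
  rw [zero_add, show (1 : ℝ) / 2 / δ = 1 / (2 * δ) by field_simp] at h3
  refine h3.congr' ?_
  filter_upwards [ev_le hδ hδ2, eventually_ge_atTop 9] with N hN hN9
  have hs3 : 3 ≤ Nat.sqrt N := Nat.le_sqrt'.2 (by omega)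
  have hL := LL_pos (δ := δ) (N := N) (by omega)
  have h4 : 0 < Real.log ((Nat.sqrt N : ℕ) : ℝ) :=
    Real.log_pos (by exact_mod_cast (by omega : 1 < Nat.sqrt N))
  have h5 : 0 < Real.log ((2 * LL δ N : ℕ) : ℝ) :=
    Real.log_pos (by exact_mod_cast (by omega : 1 < 2 * LL δ N))
  have h6 : 0 < Real.log N := Real.log_pos (by exact_mod_cast (by omega : 1 < N))
  have h7 : (Real.log ((Nat.sqrt N : ℕ) : ℝ) / Real.log N) / (Real.log ((2 * LL δ N : ℕ) : ℝ) / Real.log N) =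
      Real.log ((Nat.sqrt N : ℕ) : ℝ) / Real.log ((2 * LL δ N : ℕ) : ℝ) :=
    div_div_div_cancel_right₀ h6.ne' _ _
  rw [h7, Real.log_div h4.ne' h5.ne']
  unfold PN
  rw [split_sum (fun p => 1 / (p : ℝ)) hN]
  simp only [Function.comp]
  ring

/-- the sum of `log p / p` -/
lemma logp_tendsto {δ : ℝ} (hδ : 0 < δ) (hδ2 : δ < 1 / 2) :
    Tendsto (fun N : ℕ => (∑ p ∈ PN δ N, Real.log p / (p : ℝ)) / Real.log N) atTop (𝓝 (1 / 2 - δ)) := by
  obtain ⟨C, hC⟩ := Pool.Agent.Helper601.Mertens.mertens_log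
  have h1 := logs_tendsto.sub (log2L_tendsto hδ)
  have h2 : Tendsto (fun N : ℕ => (∑ p ∈ PN δ N, Real.log p / (p : ℝ)) / Real.log N -
      (Real.log ((Nat.sqrt N : ℕ) : ℝ) / Real.log N - Real.log ((2 * LL δ N : ℕ) : ℝ) / Real.log N))
      atTop (𝓝 0) := by
    have h3 : Tendsto (fun N : ℕ => (2 * C) / Real.log N) atTop (𝓝 0) :=
      logN_atTop.const_div_atTop _
    refine squeeze_zero_norm' ?_ h3
    filter_upwards [ev_le hδ hδ2, eventually_ge_atTop 9] with N hN hN9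
    have hs3 : 3 ≤ Nat.sqrt N := Nat.le_sqrt'.2 (by omega)
    have hL := LL_pos (δ := δ) (N := N) (by omega)
    have h6 : 0 < Real.log N := Real.log_pos (by exact_mod_cast (by omega : 1 < N))
    have h7 := hC (Nat.sqrt N) (by omega)
    have h8 := hC (2 * LL δ N) (by omega)
    unfold PN
    rw [split_sum (fun p => Real.log p / (p : ℝ)) hN]
    rw [← sub_div, ← sub_div, Real.norm_eq_abs, abs_div, abs_of_pos h6]
    apply div_le_div_of_nonneg_right _ h6.le
    rw [abs_le] at h7 h8 ⊢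
    constructor <;> linarith [h7.1, h7.2, h8.1, h8.2]
  have h3 := h2.add h1
  rw [zero_add] at h3
  refine h3.congr fun N => ?_
  ring

/-- the number of primes is small -/
lemma pi_tendsto {δ : ℝ} (hδ : 0 < δ) :
    Tendsto (fun N : ℕ => ((SP (2 * LL δ N)).card : ℝ) / LL δ N) atTop (𝓝 0) := by
  have h1 : ∀ᶠ M : ℕ in atTop, ((SP M).card : ℝ) ≤ (Real.log 4 + 1) * M / Real.log M := by
    have h2 := tendsto_natCast_atTop_atTop.eventually
      (Chebyshev.eventually_primeCounting_le (ε := 1) one_pos)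
    filter_upwards [h2] with M hM
    rw [Nat.floor_natCast] at hM
    refine le_trans (le_of_eq ?_) hM
    unfold SP
    rw [Nat.primeCounting, Nat.primeCounting', Nat.count_eq_card_filter_range]
    congr 2
    ext p
    simp only [mem_filter, mem_Icc, mem_range]
    constructor
    · rintro ⟨h, hp⟩
      exact ⟨by omega, hp⟩
    · rintro ⟨h, hp⟩
      exact ⟨⟨hp.one_lt.le, by omega⟩, hp⟩
  have h3 : Tendsto (fun N : ℕ => (2 * (Real.log 4 + 1)) / Real.log ((2 * LL δ N : ℕ) : ℝ)) atTop (𝓝 0) :=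
    (logN_atTop.comp (LL2_atTop hδ)).const_div_atTop _
  refine squeeze_zero' (Eventually.of_forall fun N => by positivity) ?_ h3
  filter_upwards [(LL2_atTop hδ).eventually h1, eventually_ge_atTop 1] with N hN hN1
  have hL := LL_pos (δ := δ) (N := N) hN1
  have hL0 : (0 : ℝ) < LL δ N := by exact_mod_cast hL
  rw [div_le_iff₀ hL0]
  refine hN.trans (le_of_eq ?_)
  push_cast
  ring

lemma aux_eq (a b c d : ℝ) (hb : b ≠ 0) (hd : d ≠ 0) : a * c = b * (d * (a / b * (c / d))) := by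
  field_simp

/-- **The mean exceeds the bound for the exceptional integers.** -/
theorem analytic {δ : ℝ} (hδ : 0 < δ) (hδ2 : 1 / 2 < Real.log (1 / (2 * δ))) :
    ∃ c C : ℝ, 0 < c ∧ 0 < C ∧ ∀ᶠ N : ℕ in atTop,
      2 * LL δ N ≤ Nat.sqrt N ∧
      (LL δ N * Real.log (LL δ N) + (SP (2 * LL δ N)).card * Real.log (4 * N) + c * LL δ N * Real.log N) +
        c * LL δ N * Real.log N ≤ LL δ N * ∑ p ∈ PN δ N, Real.log (N / p) / p ∧
      ∑ p ∈ PN δ N, Real.log (N / p) ^ 2 / p ≤ C * Real.log N ^ 2 := by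
  have hδh : δ < 1 / 2 := by
    by_contra hcon
    push Not at hcon
    have h1 : 1 / (2 * δ) ≤ 1 := by
      rw [div_le_one (by positivity)]
      linarith
    have h2 := Real.log_nonpos (by positivity) h1
    linarith
  set κ : ℝ := Real.log (1 / (2 * δ)) - 1 / 2 with hκ
  have hκ0 : 0 < κ := by rw [hκ]; linarith
  have hrec := recip_tendsto hδ hδh
  have hlp := logp_tendsto hδ hδh
  have hpi := pi_tendsto hδ
  have hl4 : Tendsto (fun N : ℕ => Real.log (4 * N) / Real.log N) atTop (𝓝 1) := by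
    refine ratio_tendsto _ 1 (Real.log 4) ?_
    filter_upwards [eventually_ge_atTop 1] with N hN
    have hN0 : (N : ℝ) ≠ 0 := by positivity
    rw [Real.log_mul (by norm_num) hN0]
    have : 0 ≤ Real.log 4 := Real.log_nonneg (by norm_num)
    rw [show Real.log 4 + Real.log N - 1 * Real.log N = Real.log 4 by ring, abs_of_nonneg this]
  have hlL : Tendsto (fun N : ℕ => Real.log ((2 * LL δ N : ℕ) : ℝ) / Real.log N) atTop (𝓝 δ) :=
    log2L_tendsto hδ
  have hmain := (hrec.sub hlp).sub (hlL.add (hpi.mul hl4))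
  have hlim : Real.log (1 / (2 * δ)) - (1 / 2 - δ) - (δ + 0 * 1) = κ := by
    rw [hκ]; ring
  rw [hlim] at hmain
  refine ⟨κ / 4, Real.log (1 / (2 * δ)) + 1, by positivity, by linarith, ?_⟩
  filter_upwards [hmain.eventually_const_lt (show κ / 2 < κ by linarith), ev_le hδ hδh,
    hrec.eventually_lt_const (show Real.log (1 / (2 * δ)) < Real.log (1 / (2 * δ)) + 1 by linarith),
    eventually_ge_atTop 9] with N h1 h2 h3 hN9
  have h6 : 0 < Real.log N := Real.log_pos (by exact_mod_cast (by omega : 1 < N))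
  have hN0 : (0 : ℝ) < N := by exact_mod_cast (by omega : 0 < N)
  have hL := LL_pos (δ := δ) (N := N) (by omega)
  have hL0 : (0 : ℝ) < LL δ N := by exact_mod_cast hL
  have hP : ∀ p ∈ PN δ N, 0 < (p : ℝ) ∧ (p : ℝ) ≤ N := by
    intro p hp
    unfold PN at hp
    rw [mem_filter, mem_Ioc] at hp
    refine ⟨by exact_mod_cast hp.2.pos, ?_⟩
    exact_mod_cast hp.1.2.trans (Nat.sqrt_le_self N)
  refine ⟨h2, ?_, ?_⟩
  · have e1 : ∑ p ∈ PN δ N, Real.log (N / p) / p =
        Real.log N * (∑ p ∈ PN δ N, 1 / (p : ℝ) - (∑ p ∈ PN δ N, Real.log p / (p : ℝ)) / Real.log N) := by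
      rw [mul_sub, mul_div_cancel₀ _ h6.ne', mul_sum, ← sum_sub_distrib]
      refine sum_congr rfl fun p hp => ?_
      rw [Real.log_div hN0.ne' (hP p hp).1.ne']
      ring
    have e2 : Real.log (LL δ N) ≤ Real.log ((2 * LL δ N : ℕ) : ℝ) := by
      apply Real.log_le_log hL0
      push_cast
      linarith
    have e3 : Real.log ((2 * LL δ N : ℕ) : ℝ) = Real.log N * (Real.log ((2 * LL δ N : ℕ) : ℝ) / Real.log N) := by
      rw [mul_div_cancel₀ _ h6.ne']
    have e4 : ((SP (2 * LL δ N)).card : ℝ) * Real.log (4 * N) = LL δ N * (Real.log N *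
        (((SP (2 * LL δ N)).card : ℝ) / LL δ N * (Real.log (4 * N) / Real.log N))) :=
      aux_eq _ _ _ _ hL0.ne' h6.ne'
    rw [e1, e4]
    set X1 := ∑ p ∈ PN δ N, 1 / (p : ℝ)
    set X2 := (∑ p ∈ PN δ N, Real.log p / (p : ℝ)) / Real.log N
    set X3 := Real.log ((2 * LL δ N : ℕ) : ℝ) / Real.log N with hX3
    set X4 := ((SP (2 * LL δ N)).card : ℝ) / LL δ N * (Real.log (4 * N) / Real.log N)
    have e5 : (LL δ N : ℝ) * Real.log (LL δ N) ≤ LL δ N * (Real.log N * X3) := by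
      apply mul_le_mul_of_nonneg_left _ hL0.le
      rw [← e3]
      exact e2
    have e6 : (LL δ N : ℝ) * Real.log N * (κ / 2) ≤ LL δ N * Real.log N * (X1 - X2 - (X3 + X4)) :=
      mul_le_mul_of_nonneg_left h1.le (by positivity)
    calc _ ≤ LL δ N * (Real.log N * X3) + LL δ N * (Real.log N * X4) + κ / 4 * LL δ N * Real.log N +
          κ / 4 * LL δ N * Real.log N := by linarith
      _ ≤ LL δ N * (Real.log N * (X1 - X2)) := by nlinarith
  · calc ∑ p ∈ PN δ N, Real.log (N / p) ^ 2 / p ≤ ∑ p ∈ PN δ N, Real.log N ^ 2 * (1 / (p : ℝ)) := by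
          refine sum_le_sum fun p hp => ?_
          have hp0 := (hP p hp).1
          have hp1 : (1 : ℝ) ≤ p := by exact_mod_cast (by exact_mod_cast hp0 : 0 < p)
          have e1 : 0 ≤ Real.log (N / p) := Real.log_nonneg (by rw [le_div_iff₀ hp0, one_mul]; exact (hP p hp).2)
          have e2 : Real.log (N / p) ≤ Real.log N := by
            apply Real.log_le_log (by positivity)
            exact div_le_self hN0.le hp1
          rw [mul_one_div]
          exact div_le_div_of_nonneg_right (pow_le_pow_left₀ e1 e2 2) hp0.le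
      _ = Real.log N ^ 2 * ∑ p ∈ PN δ N, 1 / (p : ℝ) := by rw [mul_sum]
      _ ≤ Real.log N ^ 2 * (Real.log (1 / (2 * δ)) + 1) := mul_le_mul_of_nonneg_left h3.le (by positivity)
      _ = _ := by ring

end Pool.Agent.K9h59.VS
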