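import Pool.Agent.K9h59.VS.D
import Pool.Agent.K9h59.VS.E
import Pool.Agent.K9h59.VS.G

/-!
All but `C N ^ (1 - δ)` of the integers `n ∈ (N, 2N]` have a `k > L` with `v(n; k) ≥ 2`, `δ < 1 / (2 √e)`.
-/

set_option autoImplicit false

namespace Pool.Agent.K9h59.VS

open Finset Filter

/-- the exceptional integers -/
def Bad (δ : ℝ) (n : ℕ) : Prop :=
  ¬ ∀ l : ℕ, (l : ℝ) ≤ (n : ℝ) ^ δ → ∃ k : ℕ, l ≤ k ∧ 2 ≤ v n k

/-- for an exceptional integer, `n + k` has at most one prime factor `> 2L` -/
lemma bad_one {δ : ℝ} (hδ : 0 ≤ δ) {N n : ℕ} (hn1 : 1 ≤ n) (hn : n ≤ 2 * N) (hb : Bad δ n) (k : ℕ)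
    (hk : LL δ N < k) (hk2 : k ≤ 2 * LL δ N) (p q : ℕ) (hp : p.Prime) (hq : q.Prime)
    (hpK : 2 * LL δ N < p) (hqK : 2 * LL δ N < q) (hpn : p ∣ n + k) (hqn : q ∣ n + k) : p = q := by
  by_contra hpq
  apply hb
  intro l hl
  refine ⟨k, ?_, ?_⟩
  · have h1 : (l : ℝ) ≤ LL δ N := by
      refine hl.trans ((Real.rpow_le_rpow (by positivity) ?_ hδ).trans (LL_ge δ N))
      exact_mod_cast hn
    have h2 : l ≤ LL δ N := by exact_mod_cast h1
    omega
  · have hnd : ∀ r : ℕ, 2 * LL δ N < r → r ∣ n + k → ∀ i : ℕ, i < k → ¬ r ∣ n + i := by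
      intro r hr hrk i hi h
      have h2 : r ∣ (n + k) - (n + i) := Nat.dvd_sub hrk h
      have h3 : (n + k) - (n + i) = k - i := by omega
      rw [h3] at h2
      have h4 := Nat.le_of_dvd (by omega) h2
      omega
    have h1 : ({p, q} : Set ℕ) ⊆ {p : ℕ | p.Prime ∧ p ∣ n + k ∧ ∀ i : ℕ, i < k → ¬ p ∣ n + i} := by
      rintro r hr
      rw [Set.mem_insert_iff, Set.mem_singleton_iff] at hr
      rcases hr with rfl | rfl
      · exact ⟨hp, hpn, hnd _ hpK hpn⟩
      · exact ⟨hq, hqn, hnd _ hqK hqn⟩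
    have h2 := Set.ncard_le_ncard h1 (fin_set n k hn1 _)
    rw [Set.ncard_pair hpq] at h2
    exact h2

open Classical in
/-- the contribution of a single integer, squares allowed -/
lemma pointwise2 (K y N m : ℕ) (hN : 1 ≤ N) (hNm : N ≤ m)
    (hone : ∀ p q : ℕ, p.Prime → q.Prime → K < p → K < q → p ∣ m → q ∣ m → p = q) :
    (∑ p ∈ (Ioc K y).filter Nat.Prime, if p ∣ m then Real.log ((N : ℝ) / p) else 0) ≤
      sm K m + if Sq K m then Real.log N else 0 := by
  by_cases hsq : Sq K m
  · rw [if_pos hsq]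
    have hN1 : (1 : ℝ) ≤ N := by exact_mod_cast hN
    have hl : 0 ≤ Real.log N := Real.log_nonneg hN1
    by_cases h : ∃ p ∈ (Ioc K y).filter Nat.Prime, p ∣ m
    · obtain ⟨p, hp, hpm⟩ := h
      rw [mem_filter, mem_Ioc] at hp
      have h1 : (∑ q ∈ (Ioc K y).filter Nat.Prime, if q ∣ m then Real.log ((N : ℝ) / q) else 0) =
          Real.log ((N : ℝ) / p) := by
        rw [sum_eq_single p]
        · rw [if_pos hpm]
        · intro q hq hqp
          rw [mem_filter, mem_Ioc] at hq
          rw [if_neg]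
          intro hqm
          exact hqp (hone q p hq.2 hp.2 hq.1.1 hp.1.1 hqm hpm)
        · intro hcon
          exact absurd (mem_filter.2 ⟨mem_Ioc.2 hp.1, hp.2⟩) hcon
      rw [h1]
      have hp1 : (1 : ℝ) ≤ p := by exact_mod_cast hp.2.one_lt.le
      have h2 : Real.log ((N : ℝ) / p) ≤ Real.log N :=
        Real.log_le_log (by positivity) (div_le_self (by linarith) hp1)
      have := sm_nonneg K m
      linarith
    · push Not at h
      rw [sum_eq_zero fun p hp => if_neg (h p hp)]
      have := sm_nonneg K m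
      linarith
  · rw [if_neg hsq, add_zero]
    exact pointwise K y N m hN hNm hone hsq

/-- multiples in a shifted block -/
lemma count_mult (N k d : ℕ) (hd : 1 ≤ d) :
    (((Ioc N (2 * N)).filter (fun n => d ∣ n + k)).card : ℝ) ≤ N / d + 1 := by
  have h1 : ((Ioc N (2 * N)).filter (fun n => d ∣ n + k)).card ≤ (Ioc ((N + k) / d) ((2 * N + k) / d)).card := by
    refine card_le_card_of_injOn (fun n => (n + k) / d) ?_ ?_
    · intro n hn
      rw [mem_coe, mem_filter, mem_Ioc] at hn
      rw [mem_coe, mem_Ioc]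
      refine ⟨?_, Nat.div_le_div_right (by omega)⟩
      rw [Nat.div_lt_iff_lt_mul (by omega), Nat.div_mul_cancel hn.2]
      omega
    · intro n hn n' hn' h
      rw [mem_coe, mem_filter, mem_Ioc] at hn hn'
      simp only at h
      have h2 : n + k = n' + k := by
        rw [← Nat.div_mul_cancel hn.2, ← Nat.div_mul_cancel hn'.2, h]
      omega
  rw [Nat.card_Ioc] at h1
  have hd0 : (0 : ℝ) < d := by exact_mod_cast hd
  have h2 : (((2 * N + k) / d : ℕ) : ℝ) ≤ (2 * N + k : ℕ) / d := Nat.cast_div_le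
  have h3 : ((N + k : ℕ) : ℝ) / d < (((N + k) / d : ℕ) : ℝ) + 1 := by
    rw [div_lt_iff₀ hd0]
    have := Nat.lt_div_mul_add (a := N + k) (b := d) (by omega)
    have h4 : N + k < ((N + k) / d + 1) * d := by linarith
    exact_mod_cast h4
  have h4 : (N + k) / d ≤ (2 * N + k) / d := Nat.div_le_div_right (by omega)
  have h5 : (((2 * N + k) / d - (N + k) / d : ℕ) : ℝ) ≤ N / d + 1 := by
    rw [Nat.cast_sub h4]
    have h6 : ((2 * N + k : ℕ) : ℝ) / d = ((N + k : ℕ) : ℝ) / d + N / d := by
      rw [← add_div]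
      congr 1
      push_cast
      ring
    linarith
  exact le_trans (by exact_mod_cast h1) h5

open Classical in
/-- the integers with many neighbours divisible by the square of a large prime -/
lemma square_count (N L : ℕ) (hL : 1 ≤ L) (h2L : 2 * L ≤ 2 * N) (c : ℝ) (hc : 0 < c) :
    (((Ioc N (2 * N)).filter (fun n =>
      c * L < (((Ioc L (2 * L)).filter (fun k => Sq (2 * L) (n + k))).card : ℝ))).card : ℝ) ≤
      (1 / c) * (N / L + 2 * √N) := by
  set E2 := (Ioc N (2 * N)).filter (fun n =>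
      c * L < (((Ioc L (2 * L)).filter (fun k => Sq (2 * L) (n + k))).card : ℝ)) with hE2
  set Z := Nat.sqrt (4 * N) with hZ
  have hL0 : (0 : ℝ) < L := by exact_mod_cast hL
  have h1 : (E2.card : ℝ) * (c * L) ≤
      ∑ n ∈ Ioc N (2 * N), (((Ioc L (2 * L)).filter (fun k => Sq (2 * L) (n + k))).card : ℝ) := by
    calc (E2.card : ℝ) * (c * L) = ∑ _n ∈ E2, c * L := by rw [sum_const, nsmul_eq_mul]
      _ ≤ ∑ n ∈ E2, (((Ioc L (2 * L)).filter (fun k => Sq (2 * L) (n + k))).card : ℝ) :=
          sum_le_sum fun n hn => (mem_filter.1 hn).2.le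
      _ ≤ _ := sum_le_sum_of_subset_of_nonneg (filter_subset _ _) (fun _ _ _ => by positivity)
  have h2 : ∑ n ∈ Ioc N (2 * N), (((Ioc L (2 * L)).filter (fun k => Sq (2 * L) (n + k))).card : ℝ) ≤
      L * (N / (2 * L) + Z) := by
    calc ∑ n ∈ Ioc N (2 * N), (((Ioc L (2 * L)).filter (fun k => Sq (2 * L) (n + k))).card : ℝ)
        ≤ ∑ n ∈ Ioc N (2 * N), ∑ k ∈ Ioc L (2 * L), ∑ p ∈ Ioc (2 * L) Z,
            if p ^ 2 ∣ n + k then (1 : ℝ) else 0 := by
          refine sum_le_sum fun n hn => ?_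
          rw [card_filter]
          push_cast
          refine sum_le_sum fun k hk => ?_
          rw [mem_Ioc] at hn hk
          by_cases h : Sq (2 * L) (n + k)
          · rw [if_pos h]
            obtain ⟨p, hp, hpL, hpd⟩ := h
            have hpZ : p ≤ Z := by
              rw [hZ, Nat.le_sqrt']
              have := Nat.le_of_dvd (by omega) hpd
              omega
            calc (1 : ℝ) = if p ^ 2 ∣ n + k then (1 : ℝ) else 0 := (if_pos hpd).symm
              _ ≤ _ := single_le_sum (f := fun p : ℕ => if p ^ 2 ∣ n + k then (1 : ℝ) else 0)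
                (fun _ _ => by positivity) (mem_Ioc.2 ⟨hpL, hpZ⟩)
          · rw [if_neg h]
            exact sum_nonneg fun _ _ => by positivity
      _ = ∑ k ∈ Ioc L (2 * L), ∑ p ∈ Ioc (2 * L) Z, ∑ n ∈ Ioc N (2 * N),
            if p ^ 2 ∣ n + k then (1 : ℝ) else 0 := by
          rw [sum_comm]
          refine sum_congr rfl fun k _ => ?_
          rw [sum_comm]
      _ ≤ ∑ k ∈ Ioc L (2 * L), ∑ p ∈ Ioc (2 * L) Z, (N * (((p : ℝ) ^ 2)⁻¹) + 1) := by
          refine sum_le_sum fun k _ => sum_le_sum fun p hp => ?_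
          rw [mem_Ioc] at hp
          have h3 := count_mult N k (p ^ 2) (Nat.one_le_iff_ne_zero.2 (by
            have : 0 < p := by omega
            positivity))
          rw [card_filter] at h3
          push_cast at h3
          rwa [div_eq_mul_inv] at h3
      _ ≤ ∑ k ∈ Ioc L (2 * L), ((N : ℝ) / (2 * L) + Z) := by
          refine sum_le_sum fun k _ => ?_
          rw [sum_add_distrib, ← mul_sum, sum_const, nsmul_eq_mul, mul_one, Nat.card_Ioc]
          refine add_le_add ?_ (by exact_mod_cast Nat.sub_le _ _)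
          rw [div_eq_mul_inv]
          refine mul_le_mul_of_nonneg_left ?_ (by positivity)
          by_cases hle : 2 * L ≤ Z
          · have h4 := sum_Ioc_inv_sq_le_sub (α := ℝ) (k := 2 * L) (n := Z) (by omega) hle
            have h5 : (0 : ℝ) ≤ ((Z : ℕ) : ℝ)⁻¹ := by positivity
            push_cast at h4
            linarith
          · rw [Ioc_eq_empty (by omega), sum_empty]
            positivity
      _ = _ := by
          rw [sum_const, nsmul_eq_mul, Nat.card_Ioc]
          congr 1
          have : 2 * L - L = L := by omega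
          rw [this]
  have h3 : (Z : ℝ) ≤ 2 * √N := by
    have h4 : (Z : ℝ) ≤ √((4 * N : ℕ) : ℝ) := Real.nat_sqrt_le_real_sqrt
    have h5 : √((4 * N : ℕ) : ℝ) = 2 * √N := by
      push_cast
      rw [Real.sqrt_mul (by norm_num), show (4 : ℝ) = 2 ^ 2 by norm_num, Real.sqrt_sq (by norm_num)]
    rw [h5] at h4
    exact h4
  have h4 : (E2.card : ℝ) * (c * L) ≤ L * (N / L + 2 * √N) := by
    refine h1.trans (h2.trans (mul_le_mul_of_nonneg_left (add_le_add ?_ h3) hL0.le))
    apply div_le_div_of_nonneg_left (by positivity) hL0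
    linarith
  rw [one_div, ← div_eq_inv_mul, le_div_iff₀ hc]
  have h5 : (L : ℝ) * (E2.card * c) ≤ L * (N / L + 2 * √N) := by
    calc (L : ℝ) * (E2.card * c) = E2.card * (c * L) := by ring
      _ ≤ _ := h4
  exact le_of_mul_le_mul_left h5 hL0

open Classical in
/-- **The exceptional integers in a dyadic block.** -/
theorem block {δ : ℝ} (hδ : 0 < δ) (hδ2 : 1 / 2 < Real.log (1 / (2 * δ))) :
    ∃ C : ℝ, 0 < C ∧ ∀ᶠ N : ℕ in atTop,
      (((Ioc N (2 * N)).filter (Bad δ)).card : ℝ) ≤ C * (N : ℝ) ^ (1 - δ) := by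
  obtain ⟨c, C, hc, hC, hev⟩ := analytic hδ hδ2
  have hδh : δ < 1 / 2 := by
    by_contra hcon
    push Not at hcon
    have h1 : 1 / (2 * δ) ≤ 1 := by
      rw [div_le_one (by positivity)]
      linarith
    have h2 := Real.log_nonpos (by positivity) h1
    linarith
  refine ⟨18 * C / c ^ 2 + 3 / c, by positivity, ?_⟩
  filter_upwards [hev, eventually_ge_atTop 9] with N hN hN9
  obtain ⟨h2L, hmean, hvar⟩ := hN
  set L := LL δ N with hLdef
  have hL : 1 ≤ L := LL_pos (by omega)
  have hL0 : (0 : ℝ) < L := by exact_mod_cast hL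
  have hN0 : (0 : ℝ) < N := by exact_mod_cast (by omega : 0 < N)
  have hN1 : (1 : ℝ) ≤ N := by exact_mod_cast (by omega : 1 ≤ N)
  have hlog : 0 < Real.log N := Real.log_pos (by exact_mod_cast (by omega : 1 < N))
  have hsN : Nat.sqrt N ≤ N := Nat.sqrt_le_self N
  set B : ℝ := L * Real.log L + (SP (2 * L)).card * Real.log (4 * N) + c * L * Real.log N with hB
  set E1 := (Ioc N (2 * N)).filter (fun n => Bad δ n ∧
      (((Ioc L (2 * L)).filter (fun k => Sq (2 * L) (n + k))).card : ℝ) ≤ c * L) with hE1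
  set E2 := (Ioc N (2 * N)).filter (fun n =>
      c * L < (((Ioc L (2 * L)).filter (fun k => Sq (2 * L) (n + k))).card : ℝ)) with hE2
  have hcup : (Ioc N (2 * N)).filter (Bad δ) ⊆ E1 ∪ E2 := by
    intro n hn
    rw [mem_filter] at hn
    rw [mem_union, hE1, hE2, mem_filter, mem_filter]
    rcases le_or_gt (((Ioc L (2 * L)).filter (fun k => Sq (2 * L) (n + k))).card : ℝ) (c * L) with h | h
    · exact Or.inl ⟨hn.1, hn.2, h⟩
    · exact Or.inr ⟨hn.1, h⟩
  have hcard : (((Ioc N (2 * N)).filter (Bad δ)).card : ℝ) ≤ E1.card + E2.card := by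
    have := (card_le_card hcup).trans (card_union_le E1 E2)
    exact_mod_cast this
  have hE2le := square_count N L hL (by omega) c hc
  have hE1le : (E1.card : ℝ) ≤ 18 * C / c ^ 2 * (N / L) := by
    have hIc : ((Ioc L (2 * L)).card : ℝ) = L := by
      rw [Nat.card_Ioc]
      have : 2 * L - L = L := by omega
      rw [this]
    have hPm : ∀ p ∈ PN δ N, p.Prime ∧ 2 * L < p ∧ p ≤ Nat.sqrt N := by
      intro p hp
      unfold PN at hp
      rw [mem_filter, mem_Ioc] at hp
      exact ⟨hp.2, hp.1.1, hp.1.2⟩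
    have hkey := lin_key (2 * N) (Nat.sqrt N) E1 (Ioc L (2 * L)) (PN δ N) (by
        intro n hn
        rw [hE1, mem_filter, mem_Ioc] at hn
        rw [mem_Icc]
        omega) (fun p => Real.log (N / p)) (fun p hp => ⟨(hPm p hp).1, (hPm p hp).2.2⟩)
        (fun p hp => by
          have hp0 : (0 : ℝ) < p := by exact_mod_cast (hPm p hp).1.pos
          apply Real.log_nonneg
          rw [le_div_iff₀ hp0, one_mul]
          exact_mod_cast (hPm p hp).2.2.trans hsN)
        (by
          intro p hp k hk k' hk' h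
          rw [mem_Ioc] at hk hk'
          have h2 := (hPm p hp).2.1
          have h3 : |(k : ℤ) - k'| < p := by
            rw [abs_lt]
            constructor <;> omega
          have h4 := Int.eq_zero_of_abs_lt_dvd h h3
          omega) B
        (by
          intro n hn
          rw [hE1, mem_filter, mem_Ioc] at hn
          obtain ⟨hnN, hbad, hsq⟩ := hn
          calc (∑ k ∈ Ioc L (2 * L), ∑ p ∈ PN δ N, if p ∣ n + k then Real.log (N / p) else 0)
              ≤ ∑ k ∈ Ioc L (2 * L), (sm (2 * L) (n + k) + if Sq (2 * L) (n + k) then Real.log N else 0) := by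
                refine sum_le_sum fun k hk => ?_
                rw [mem_Ioc] at hk
                exact pointwise2 (2 * L) (Nat.sqrt N) N (n + k) (by omega) (by omega)
                  (fun p q hp hq hpK hqK hpn hqn =>
                    bad_one hδ.le (by omega) hnN.2 hbad k hk.1 hk.2 p q hp hq hpK hqK hpn hqn)
            _ = ∑ k ∈ Ioc L (2 * L), sm (2 * L) (n + k) +
                  (((Ioc L (2 * L)).filter (fun k => Sq (2 * L) (n + k))).card : ℝ) * Real.log N := by
                rw [sum_add_distrib, ← sum_filter, sum_const, nsmul_eq_mul]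
            _ ≤ (L * Real.log L + (SP (2 * L)).card * Real.log ((n + 2 * L : ℕ) : ℝ)) +
                  c * L * Real.log N :=
                add_le_add (sm_sum n L hL) (mul_le_mul_of_nonneg_right hsq hlog.le)
            _ ≤ B := by
                rw [hB]
                have h1 : Real.log ((n + 2 * L : ℕ) : ℝ) ≤ Real.log (4 * N) := by
                  apply Real.log_le_log
                  · exact_mod_cast (by omega : 0 < n + 2 * L)
                  · exact_mod_cast (by omega : n + 2 * L ≤ 4 * N)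
                have h2 : ((SP (2 * L)).card : ℝ) * Real.log ((n + 2 * L : ℕ) : ℝ) ≤
                    (SP (2 * L)).card * Real.log (4 * N) := mul_le_mul_of_nonneg_left h1 (by positivity)
                linarith)
        (by
          rw [hIc]
          have : 0 ≤ c * L * Real.log N := by positivity
          linarith)
    rw [hIc] at hkey
    have h1 : (c * L * Real.log N) ^ 2 ≤ (L * ∑ p ∈ PN δ N, Real.log (N / p) / p - B) ^ 2 :=
      pow_le_pow_left₀ (by positivity) (by linarith) 2
    have h2 : (((Nat.sqrt N : ℕ) : ℝ)) ^ 2 ≤ N := by exact_mod_cast Nat.sqrt_le' N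
    have h3 : (E1.card : ℝ) * (c * L * Real.log N) ^ 2 ≤ 6 * (3 * N) * (L * (C * Real.log N ^ 2)) := by
      calc (E1.card : ℝ) * (c * L * Real.log N) ^ 2
          ≤ (E1.card : ℝ) * (L * ∑ p ∈ PN δ N, Real.log (N / p) / p - B) ^ 2 :=
            mul_le_mul_of_nonneg_left h1 (by positivity)
        _ ≤ 6 * (((2 * N : ℕ) : ℝ) + ((Nat.sqrt N : ℕ) : ℝ) ^ 2) * (L * ∑ p ∈ PN δ N, Real.log (N / p) ^ 2 / p) :=
            hkey
        _ ≤ _ := by
            refine mul_le_mul ?_ (mul_le_mul_of_nonneg_left hvar hL0.le)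
              (mul_nonneg hL0.le (sum_nonneg fun _ _ => by positivity)) (by positivity)
            push_cast
            linarith
    have h4 : (c ^ 2 * L ^ 2 * Real.log N ^ 2) * (E1.card : ℝ) ≤
        (c ^ 2 * L ^ 2 * Real.log N ^ 2) * (18 * C / c ^ 2 * (N / L)) := by
      calc (c ^ 2 * L ^ 2 * Real.log N ^ 2) * (E1.card : ℝ) = (E1.card : ℝ) * (c * L * Real.log N) ^ 2 := by ring
        _ ≤ 6 * (3 * N) * (L * (C * Real.log N ^ 2)) := h3
        _ = _ := by
            field_simp
            ring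
    exact le_of_mul_le_mul_left h4 (by positivity)
  -- the powers
  have hNL : (N : ℝ) / L ≤ (N : ℝ) ^ (1 - δ) := by
    rw [div_le_iff₀ hL0]
    have h1 : (N : ℝ) ^ δ ≤ L := by
      refine (Real.rpow_le_rpow hN0.le ?_ hδ.le).trans (LL_ge δ N)
      linarith
    calc (N : ℝ) = (N : ℝ) ^ (1 - δ) * (N : ℝ) ^ δ := by
          rw [← Real.rpow_add hN0, sub_add_cancel, Real.rpow_one]
      _ ≤ _ := mul_le_mul_of_nonneg_left h1 (by positivity)
  have hsq : √(N : ℝ) ≤ (N : ℝ) ^ (1 - δ) := by
    rw [Real.sqrt_eq_rpow]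
    exact Real.rpow_le_rpow_of_exponent_le hN1 (by linarith)
  have h0 : (0 : ℝ) ≤ (N : ℝ) ^ (1 - δ) := by positivity
  calc (((Ioc N (2 * N)).filter (Bad δ)).card : ℝ) ≤ E1.card + E2.card := hcard
    _ ≤ 18 * C / c ^ 2 * (N / L) + (1 / c) * (N / L + 2 * √N) := add_le_add hE1le hE2le
    _ ≤ 18 * C / c ^ 2 * (N : ℝ) ^ (1 - δ) + (1 / c) * ((N : ℝ) ^ (1 - δ) + 2 * (N : ℝ) ^ (1 - δ)) := by
        refine add_le_add (mul_le_mul_of_nonneg_left hNL (by positivity))
          (mul_le_mul_of_nonneg_left ?_ (by positivity))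
        linarith
    _ = _ := by ring

end Pool.Agent.K9h59.VS
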