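import Pool.Agent.K9h59.VS.E

/-!
The linear large sieve for upper deviations.
-/

set_option autoImplicit false

namespace Pool.Agent.K9h59.VS

open Finset Pool.Agent.Helper112

/-- **The linear large sieve, upper deviations.** -/
theorem lin_key_up (N y : ℕ) (E I P : Finset ℕ) (hE : E ⊆ Icc 1 N) (w : ℕ → ℝ)
    (hP : ∀ p ∈ P, p.Prime ∧ p ≤ y) (hw : ∀ p ∈ P, 0 ≤ w p)
    (hI : ∀ p ∈ P, ∀ k ∈ I, ∀ k' ∈ I, (p : ℤ) ∣ (k : ℤ) - k' → k = k') (B : ℝ)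
    (hB : ∀ n ∈ E, B ≤ ∑ k ∈ I, ∑ p ∈ P, if p ∣ n + k then w p else 0)
    (hμ : I.card * ∑ p ∈ P, w p / p ≤ B) :
    (E.card : ℝ) * (B - I.card * ∑ p ∈ P, w p / p) ^ 2 ≤
      6 * (N + (y : ℝ) ^ 2) * (I.card * ∑ p ∈ P, w p ^ 2 / p) := by
  classical
  have hV0 : 0 ≤ ∑ p ∈ P, w p ^ 2 / p := sum_nonneg fun _ _ => by positivity
  rcases Nat.eq_zero_or_pos E.card with hE0 | hE0
  · rw [hE0]
    simp only [Nat.cast_zero, zero_mul]
    positivity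
  set S : ℝ → ℂ := fun t => ∑ n ∈ E, ee (n * t) with hS
  set W : ℝ → ℂ := fun t => ∑ k ∈ I, ee (k * t) with hW
  set μ : ℝ := I.card * ∑ p ∈ P, w p / p with hμd
  have h1 := expand_lin E I P w (fun p hp => (hP p hp).1)
  set Sig : Finset (Σ _ : ℕ, ℕ) := P.sigma (fun q => (range q).filter (fun b => b.Coprime q))
    with hSig
  have h5 : (E.card : ℝ) * (B - μ) ≤
      ∑ r ∈ Sig, ‖S ((r.2 : ℝ) / r.1)‖ * (w r.1 / r.1 * ‖W ((r.2 : ℝ) / r.1)‖) := by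
    have e0 : E.card * B ≤ (∑ n ∈ E, ∑ k ∈ I, ∑ p ∈ P, if p ∣ n + k then w p else 0 : ℝ) := by
      calc E.card * B = ∑ _n ∈ E, B := by rw [sum_const, nsmul_eq_mul]
        _ ≤ (∑ n ∈ E, ∑ k ∈ I, ∑ p ∈ P, if p ∣ n + k then w p else 0 : ℝ) := sum_le_sum hB
    have e1 : (((E.card : ℝ) * μ - ∑ n ∈ E, ∑ k ∈ I, ∑ p ∈ P, if p ∣ n + k then w p else 0 : ℝ) : ℂ) =
        -∑ r ∈ Sig, ((w r.1 / r.1 : ℝ) : ℂ) * (S ((r.2 : ℝ) / r.1) * W ((r.2 : ℝ) / r.1)) := by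
      rw [hSig, Finset.sum_sigma, Complex.ofReal_sub, h1]
      have e2 : (((E.card : ℝ) * μ : ℝ) : ℂ) = ((E.card * I.card * ∑ p ∈ P, w p / p : ℝ) : ℂ) := by
        rw [hμd, mul_assoc]
      rw [e2]
      simp only [hS, hW]
      ring
    have e2 : (E.card : ℝ) * (B - μ) ≤
        ‖(((E.card : ℝ) * μ - ∑ n ∈ E, ∑ k ∈ I, ∑ p ∈ P, if p ∣ n + k then w p else 0 : ℝ) : ℂ)‖ := by
      rw [Complex.norm_real]
      rw [Real.norm_eq_abs]
      refine le_trans ?_ (neg_le_abs _)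
      linarith
    refine e2.trans ?_
    rw [e1, norm_neg]
    refine (norm_sum_le _ _).trans (sum_le_sum fun r hr => ?_)
    rw [hSig, mem_sigma] at hr
    have hw0 := hw r.1 hr.1
    rw [norm_mul, norm_mul, Complex.norm_real, Real.norm_of_nonneg (by positivity)]
    apply le_of_eq
    ring
  have h50 : 0 ≤ (E.card : ℝ) * (B - μ) := mul_nonneg (by positivity) (by linarith)
  have h6 : ((E.card : ℝ) * (B - μ)) ^ 2 ≤ (∑ r ∈ Sig, ‖S ((r.2 : ℝ) / r.1)‖ ^ 2) *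
      ∑ r ∈ Sig, (w r.1 / r.1 * ‖W ((r.2 : ℝ) / r.1)‖) ^ 2 :=
    (pow_le_pow_left₀ h50 h5 2).trans (sum_mul_sq_le_sq_mul_sq _ _ _)
  have h7 : ∑ r ∈ Sig, ‖S ((r.2 : ℝ) / r.1)‖ ^ 2 ≤ 6 * (N + (y : ℝ) ^ 2) * E.card := by
    have e1 := additive_large_sieve N y (fun n => if n ∈ E then 1 else 0)
    have e2 : ∑ n ∈ Icc 1 N, ‖(if n ∈ E then (1 : ℂ) else 0)‖ ^ 2 = E.card := by
      have : ∀ n ∈ Icc 1 N, ‖(if n ∈ E then (1 : ℂ) else 0)‖ ^ 2 = if n ∈ E then (1 : ℝ) else 0 := by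
        intro n _
        split_ifs <;> simp
      rw [sum_congr rfl this, ← sum_filter]
      rw [filter_mem_eq_inter, inter_eq_right.2 hE]
      simp
    rw [e2] at e1
    refine le_trans ?_ e1
    rw [hSig, Finset.sum_sigma]
    have e3 : ∀ (f a : ℕ), ∑ n ∈ Icc 1 N, (if n ∈ E then (1 : ℂ) else 0) * ee (n * a / f) = S ((a : ℝ) / f) := by
      intro f a
      simp only [ite_mul, one_mul, zero_mul]
      rw [← sum_filter, filter_mem_eq_inter, inter_eq_right.2 hE]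
      simp only [hS]
      refine sum_congr rfl fun n _ => ?_
      rw [mul_div_assoc]
    simp only [e3]
    refine sum_le_sum_of_subset_of_nonneg ?_ (fun _ _ _ => by positivity)
    intro q hq
    rw [mem_Icc]
    exact ⟨(hP q hq).1.one_lt.le, (hP q hq).2⟩
  have h8 : ∑ r ∈ Sig, (w r.1 / r.1 * ‖W ((r.2 : ℝ) / r.1)‖) ^ 2 ≤ I.card * ∑ p ∈ P, w p ^ 2 / p := by
    rw [hSig, Finset.sum_sigma, mul_sum]
    refine sum_le_sum fun p hp => ?_
    have hp0 : (0 : ℝ) < p := by exact_mod_cast (hP p hp).1.pos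
    have e1 := W_sum p (hP p hp).1.one_lt.le I (hI p hp)
    calc ∑ b ∈ (range p).filter (fun b => b.Coprime p), (w p / p * ‖W ((b : ℝ) / p)‖) ^ 2
        ≤ ∑ b ∈ range p, (w p / p * ‖W ((b : ℝ) / p)‖) ^ 2 :=
          sum_le_sum_of_subset_of_nonneg (filter_subset _ _) (fun _ _ _ => by positivity)
      _ = (w p / p) ^ 2 * ∑ b ∈ range p, ‖W ((b : ℝ) / p)‖ ^ 2 := by
          rw [mul_sum]
          exact sum_congr rfl fun b _ => by ring
      _ = _ := by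
          rw [e1]
          field_simp
  have hEp : (0 : ℝ) < E.card := by exact_mod_cast hE0
  have h9 : ((E.card : ℝ) * (B - μ)) ^ 2 ≤
      6 * (N + (y : ℝ) ^ 2) * E.card * (I.card * ∑ p ∈ P, w p ^ 2 / p) :=
    h6.trans (mul_le_mul h7 h8 (sum_nonneg fun _ _ => by positivity) (by positivity))
  have h10 : (E.card : ℝ) * ((E.card : ℝ) * (B - μ) ^ 2) ≤
      (E.card : ℝ) * (6 * (N + (y : ℝ) ^ 2) * (I.card * ∑ p ∈ P, w p ^ 2 / p)) := by
    calc (E.card : ℝ) * ((E.card : ℝ) * (B - μ) ^ 2) = ((E.card : ℝ) * (B - μ)) ^ 2 := by ring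
      _ ≤ _ := h9
      _ = _ := by ring
  exact le_of_mul_le_mul_left h10 hEp

end Pool.Agent.K9h59.VS
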