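import Pool.Agent.K9h59.VS.K
import Pool.Agent.K9h59.VS.G
import Pool.Agent.K9h59.VS.H

/-!
Few integers `n` have all of `n + L + 1, …, n + 2L` smooth.
-/

set_option autoImplicit false

namespace Pool.Agent.K9h59.VS

open Finset Filter Topology

/-- all of `n + L + 1, …, n + 2L` have their prime factors at most `y` -/
def Run (L y n : ℕ) : Prop :=
  ∀ k : ℕ, L < k → k ≤ 2 * L → ∀ q : ℕ, q.Prime → q ∣ n + k → q ≤ y

open Classical in
/-- the contribution of a single smooth integer -/
lemma pointwise_up (K y m : ℕ) (hm : 1 ≤ m)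
    (hsm : ∀ q : ℕ, q.Prime → q ∣ m → q ≤ y) :
    Real.log m - sm K m - (if Sq K m then Real.log m else 0) ≤
      ∑ p ∈ (Ioc K y).filter Nat.Prime, if p ∣ m then Real.log p else 0 := by
  have hR0 : 0 ≤ ∑ p ∈ (Ioc K y).filter Nat.Prime, if p ∣ m then Real.log (p : ℝ) else 0 := by
    refine sum_nonneg fun p _ => ?_
    split_ifs
    · exact Real.log_natCast_nonneg p
    · exact le_rfl
  by_cases hsq : Sq K m
  · rw [if_pos hsq]
    have := sm_nonneg K m
    linarith
  · rw [if_neg hsq, sub_zero, sub_le_iff_le_add]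
    rw [Real.log_nat_eq_sum_factorization, Finsupp.sum]
    rw [← sum_filter_add_sum_filter_not m.factorization.support (fun q => q ≤ K), add_comm]
    refine add_le_add ?_ ?_
    · rw [← sum_filter]
      have h1 : ∀ q ∈ (m.factorization.support).filter (fun q => ¬ q ≤ K),
          (m.factorization q : ℝ) * Real.log q = Real.log q := by
        intro q hq
        rw [mem_filter, Nat.support_factorization, Nat.mem_primeFactors] at hq
        have e1 : 1 ≤ m.factorization q := (hq.1.1.dvd_iff_one_le_factorization (by omega)).1 hq.1.2.1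
        have e2 : ¬ 2 ≤ m.factorization q := by
          intro e3
          exact hsq ⟨q, hq.1.1, by omega, (hq.1.1.pow_dvd_iff_le_factorization (by omega)).2 e3⟩
        have e3 : m.factorization q = 1 := by omega
        rw [e3]
        simp
      rw [sum_congr rfl h1]
      refine sum_le_sum_of_subset_of_nonneg ?_ (fun q _ _ => Real.log_natCast_nonneg q)
      intro q hq
      rw [mem_filter, Nat.support_factorization, Nat.mem_primeFactors] at hq
      rw [mem_filter, mem_filter, mem_Ioc]
      exact ⟨⟨⟨by omega, hsm q hq.1.1 hq.1.2.1⟩, hq.1.1⟩, hq.1.2.1⟩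
    · unfold sm
      refine sum_le_sum_of_subset_of_nonneg ?_
        fun q _ _ => mul_nonneg (by positivity) (Real.log_natCast_nonneg q)
      intro q hq
      rw [mem_filter, Nat.support_factorization, Nat.mem_primeFactors] at hq
      unfold SP
      rw [mem_filter, mem_Icc]
      exact ⟨⟨hq.1.1.one_lt.le, hq.2⟩, hq.1.1⟩

/-- the number of primes up to `M` -/
lemma SP_le : ∀ᶠ M : ℕ in atTop, ((SP M).card : ℝ) ≤ 3 * M / Real.log M := by
  have h2 := tendsto_natCast_atTop_atTop.eventually
    (Chebyshev.eventually_primeCounting_le (ε := 1) one_pos)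
  filter_upwards [h2, eventually_ge_atTop 2] with M hM hM2
  rw [Nat.floor_natCast] at hM
  have hc : ((SP M).card : ℝ) = (Nat.primeCounting M : ℝ) := by
    unfold SP
    rw [Nat.primeCounting, Nat.primeCounting', Nat.count_eq_card_filter_range]
    congr 2
    ext p
    simp only [mem_filter, mem_Icc, mem_range]
    constructor
    · rintro ⟨h, hp⟩
      exact ⟨by omega, hp⟩
    · rintro ⟨h, hp⟩
      exact ⟨⟨hp.one_lt.le, by omega⟩, hp⟩
  rw [hc]
  refine hM.trans ?_
  have hl : 0 < Real.log M := Real.log_pos (by exact_mod_cast (by omega : 1 < M))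
  apply div_le_div_of_nonneg_right _ hl.le
  apply mul_le_mul_of_nonneg_right _ (by positivity)
  have h9 : Real.log 4 = 2 * Real.log 2 := by
    rw [show (4 : ℝ) = 2 ^ 2 by norm_num, Real.log_pow]; norm_num
  have := Real.log_two_lt_d9
  linarith

open Classical in
/-- **Few integers are followed by a smooth run.** -/
theorem run_block : ∃ L₀ N₀ : ℕ, ∀ L N : ℕ, L₀ ≤ L → N₀ ≤ N → L ^ 2 ≤ N →
    (((Ioc N (2 * N)).filter (Run L (Nat.sqrt (4 * N)))).card : ℝ) ≤ 2000 * (N / L) := by
  obtain ⟨C, hC⟩ := Pool.Agent.Helper601.Mertens.mertens_log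
  have hC0 : 0 ≤ C := (abs_nonneg _).trans (hC 1 le_rfl)
  -- the number of primes is small
  have hpi : ∀ᶠ L : ℕ in atTop, ((SP (2 * L)).card : ℝ) ≤ L / 16 := by
    have ht : Tendsto (fun L : ℕ => 2 * L) atTop atTop :=
      tendsto_atTop_mono (fun L => by simp only [id]; omega) tendsto_id
    have h1 : ∀ᶠ L : ℕ in atTop, 96 ≤ Real.log ((2 * L : ℕ) : ℝ) :=
      (logN_atTop.comp ht).eventually_ge_atTop 96
    filter_upwards [ht.eventually SP_le, h1, eventually_ge_atTop 1] with L h2 h3 h4
    refine h2.trans ?_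
    rw [div_le_div_iff₀ (by linarith) (by norm_num)]
    push_cast at h3 ⊢
    have hL0 : (0 : ℝ) ≤ L := by positivity
    nlinarith
  obtain ⟨L₀, hL₀⟩ := eventually_atTop.1 (hpi.and (eventually_ge_atTop 1))
  have hlN : ∀ᶠ N : ℕ in atTop, 40 * (C + 1) + 100 ≤ Real.log N := logN_atTop.eventually_ge_atTop _
  obtain ⟨N₀, hN₀⟩ := eventually_atTop.1 (hlN.and (eventually_ge_atTop 9))
  refine ⟨L₀, N₀, fun L N hLL hNN hLN => ?_⟩
  obtain ⟨hpiL, hL1⟩ := hL₀ L hLL
  obtain ⟨hlogN, hN9⟩ := hN₀ N hNN
  set y := Nat.sqrt (4 * N) with hy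
  have hL0 : (0 : ℝ) < L := by exact_mod_cast hL1
  have hN0 : (0 : ℝ) < N := by exact_mod_cast (by omega : 0 < N)
  have h2Ly : 2 * L ≤ y := by
    rw [hy, Nat.le_sqrt']
    nlinarith
  have hLN' : L ≤ N := by nlinarith
  have hlog0 : 0 < Real.log N := by linarith
  have hlog4 : Real.log (4 * N) ≤ Real.log N + 2 := by
    rw [Real.log_mul (by norm_num) hN0.ne']
    have h9 : Real.log 4 = 2 * Real.log 2 := by
      rw [show (4 : ℝ) = 2 ^ 2 by norm_num, Real.log_pow]; norm_num
    have := Real.log_two_lt_d9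
    linarith
  have hlog40 : 0 < Real.log (4 * N) := Real.log_pos (by
    have : (9 : ℝ) ≤ N := by exact_mod_cast hN9
    linarith)
  have hy2 : ((y : ℕ) : ℝ) ^ 2 ≤ 4 * N := by
    have := Nat.sqrt_le' (4 * N)
    exact_mod_cast this
  have hy1 : (1 : ℝ) ≤ y := by exact_mod_cast (by omega : 1 ≤ y)
  have hlogy : Real.log y ≤ (Real.log N + 2) / 2 := by
    have h1 := Real.log_le_log (by positivity) hy2
    rw [Real.log_pow] at h1
    push_cast at h1
    linarith
  have hlogy0 : 0 ≤ Real.log y := Real.log_nonneg hy1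
  set P := (Ioc (2 * L) y).filter Nat.Prime with hP
  have hPm : ∀ p ∈ P, p.Prime ∧ 2 * L < p ∧ p ≤ y := by
    intro p hp
    rw [hP, mem_filter, mem_Ioc] at hp
    exact ⟨hp.2, hp.1.1, hp.1.2⟩
  -- the mean
  have hmean : ∑ p ∈ P, Real.log p / p ≤ Real.log y - Real.log L + 2 * C := by
    rw [hP, split_sum (fun p => Real.log p / (p : ℝ)) h2Ly]
    have h7 := abs_le.1 (hC y (by omega))
    have h8 := abs_le.1 (hC (2 * L) (by omega))
    have h9 : Real.log L ≤ Real.log ((2 * L : ℕ) : ℝ) := by
      apply Real.log_le_log hL0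
      push_cast
      linarith
    linarith [h7.2, h8.1]
  have hmean2 : ∑ p ∈ P, Real.log p / p ≤ Real.log y + 2 * C := by
    have : 0 ≤ Real.log L := Real.log_nonneg (by exact_mod_cast hL1)
    linarith
  have hvar : ∑ p ∈ P, Real.log p ^ 2 / p ≤ Real.log N ^ 2 := by
    calc ∑ p ∈ P, Real.log p ^ 2 / p ≤ ∑ p ∈ P, Real.log y * (Real.log p / p) := by
          refine sum_le_sum fun p hp => ?_
          have hp0 : (0 : ℝ) < p := by exact_mod_cast (hPm p hp).1.pos
          have e1 : Real.log p ≤ Real.log y := Real.log_le_log hp0 (by exact_mod_cast (hPm p hp).2.2)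
          have e2 : 0 ≤ Real.log p := Real.log_natCast_nonneg p
          rw [mul_div_assoc']
          apply div_le_div_of_nonneg_right _ hp0.le
          nlinarith
      _ = Real.log y * ∑ p ∈ P, Real.log p / p := by rw [mul_sum]
      _ ≤ Real.log y * (Real.log y + 2 * C) := mul_le_mul_of_nonneg_left hmean2 hlogy0
      _ ≤ Real.log N * Real.log N := by
          apply mul_le_mul (by linarith) (by linarith) (by linarith) hlog0.le
      _ = _ := by ring
  set c : ℝ := 1 / 16 with hc
  set B : ℝ := L * Real.log N - (L * Real.log L + (SP (2 * L)).card * Real.log (4 * N)) -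
    c * L * Real.log (4 * N) with hB
  set E1 := (Ioc N (2 * N)).filter (fun n => Run L y n ∧
      (((Ioc L (2 * L)).filter (fun k => Sq (2 * L) (n + k))).card : ℝ) ≤ c * L) with hE1
  set E2 := (Ioc N (2 * N)).filter (fun n =>
      c * L < (((Ioc L (2 * L)).filter (fun k => Sq (2 * L) (n + k))).card : ℝ)) with hE2
  have hcup : (Ioc N (2 * N)).filter (Run L y) ⊆ E1 ∪ E2 := by
    intro n hn
    rw [mem_filter] at hn
    rw [mem_union, hE1, hE2, mem_filter, mem_filter]
    rcases le_or_gt (((Ioc L (2 * L)).filter (fun k => Sq (2 * L) (n + k))).card : ℝ) (c * L) with h | h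
    · exact Or.inl ⟨hn.1, hn.2, h⟩
    · exact Or.inr ⟨hn.1, h⟩
  have hcard : (((Ioc N (2 * N)).filter (Run L y)).card : ℝ) ≤ E1.card + E2.card := by
    have := (card_le_card hcup).trans (card_union_le E1 E2)
    exact_mod_cast this
  have hE2le := square_count N L hL1 (by omega) c (by rw [hc]; norm_num)
  have hIc : ((Ioc L (2 * L)).card : ℝ) = L := by
    rw [Nat.card_Ioc]
    have : 2 * L - L = L := by omega
    rw [this]
  have hgap : L * (Real.log N / 4) ≤ B - L * ∑ p ∈ P, Real.log p / p := by
    have e1 : ((SP (2 * L)).card : ℝ) * Real.log (4 * N) ≤ L / 16 * (Real.log N + 2) :=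
      mul_le_mul hpiL hlog4 hlog40.le (by positivity)
    have e2 : c * L * Real.log (4 * N) ≤ L / 16 * (Real.log N + 2) := by
      rw [hc]
      have : (1 / 16 * L : ℝ) * Real.log (4 * N) ≤ (1 / 16 * L) * (Real.log N + 2) :=
        mul_le_mul_of_nonneg_left hlog4 (by positivity)
      linarith
    have e3 : L * ∑ p ∈ P, Real.log p / p ≤ L * ((Real.log N + 2) / 2 - Real.log L + 2 * C) :=
      mul_le_mul_of_nonneg_left (by linarith) hL0.le
    have e4 : L * (Real.log N / 4) ≤ L * (Real.log N - (Real.log N + 2) / 16 - (Real.log N + 2) / 16 -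
        (Real.log N + 2) / 2 - 2 * C) := mul_le_mul_of_nonneg_left (by linarith) hL0.le
    rw [hB]
    have e5 : (L : ℝ) * (Real.log N - (Real.log N + 2) / 16 - (Real.log N + 2) / 16 -
        (Real.log N + 2) / 2 - 2 * C) = L * Real.log N - L / 16 * (Real.log N + 2) -
        L / 16 * (Real.log N + 2) - L * Real.log L -
          L * ((Real.log N + 2) / 2 - Real.log L + 2 * C) := by ring
    linarith
  have hE1le : (E1.card : ℝ) ≤ 576 * (N / L) := by
    have hkey := lin_key_up (2 * N) y E1 (Ioc L (2 * L)) P (by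
        intro n hn
        rw [hE1, mem_filter, mem_Ioc] at hn
        rw [mem_Icc]
        omega) (fun p => Real.log p) (fun p hp => ⟨(hPm p hp).1, (hPm p hp).2.2⟩)
        (fun p hp => Real.log_natCast_nonneg p)
        (by
          intro p hp k hk k' hk' h
          rw [mem_Ioc] at hk hk'
          have h2 := (hPm p hp).2.1
          have h3 : |(k : ℤ) - k'| < p := by
            rw [abs_lt]
            constructor <;> omega
          have h4 := Int.eq_zero_of_abs_lt_dvd h h3
          omega) B
        (by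
          intro n hn
          rw [hE1, mem_filter, mem_Ioc] at hn
          obtain ⟨hnN, hrun, hsq⟩ := hn
          have h1 : ∑ k ∈ Ioc L (2 * L), (Real.log ((n + k : ℕ) : ℝ) - sm (2 * L) (n + k) -
              (if Sq (2 * L) (n + k) then Real.log ((n + k : ℕ) : ℝ) else 0)) ≤
              ∑ k ∈ Ioc L (2 * L), ∑ p ∈ P, if p ∣ n + k then Real.log (p : ℝ) else 0 := by
            refine sum_le_sum fun k hk => ?_
            rw [mem_Ioc] at hk
            exact pointwise_up (2 * L) y (n + k) (by omega)
              (fun q hq hqd => hrun k hk.1 hk.2 q hq hqd)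
          refine le_trans ?_ h1
          rw [sum_sub_distrib, sum_sub_distrib]
          have h2 : (L : ℝ) * Real.log N ≤ ∑ k ∈ Ioc L (2 * L), Real.log ((n + k : ℕ) : ℝ) := by
            calc (L : ℝ) * Real.log N = ∑ _k ∈ Ioc L (2 * L), Real.log N := by
                  rw [sum_const, nsmul_eq_mul, hIc]
              _ ≤ _ := sum_le_sum fun k _ => Real.log_le_log hN0 (by exact_mod_cast (by omega : N ≤ n + k))
          have h3 := sm_sum n L hL1
          have h4 : Real.log ((n + 2 * L : ℕ) : ℝ) ≤ Real.log (4 * N) := by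
            apply Real.log_le_log
            · exact_mod_cast (by omega : 0 < n + 2 * L)
            · exact_mod_cast (by omega : n + 2 * L ≤ 4 * N)
          have h5 : ((SP (2 * L)).card : ℝ) * Real.log ((n + 2 * L : ℕ) : ℝ) ≤
              (SP (2 * L)).card * Real.log (4 * N) := mul_le_mul_of_nonneg_left h4 (by positivity)
          have h6 : ∑ k ∈ Ioc L (2 * L), (if Sq (2 * L) (n + k) then Real.log ((n + k : ℕ) : ℝ) else 0) ≤
              c * L * Real.log (4 * N) := by
            rw [← sum_filter]
            calc ∑ k ∈ (Ioc L (2 * L)).filter (fun k => Sq (2 * L) (n + k)), Real.log ((n + k : ℕ) : ℝ)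
                ≤ ∑ _k ∈ (Ioc L (2 * L)).filter (fun k => Sq (2 * L) (n + k)), Real.log (4 * N) := by
                  refine sum_le_sum fun k hk => ?_
                  rw [mem_filter, mem_Ioc] at hk
                  apply Real.log_le_log
                  · exact_mod_cast (by omega : 0 < n + k)
                  · exact_mod_cast (by omega : n + k ≤ 4 * N)
              _ = (((Ioc L (2 * L)).filter (fun k => Sq (2 * L) (n + k))).card : ℝ) * Real.log (4 * N) := by
                  rw [sum_const, nsmul_eq_mul]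
              _ ≤ _ := mul_le_mul_of_nonneg_right hsq hlog40.le
          rw [hB]
          linarith)
        (by
          rw [hIc]
          have : 0 ≤ L * (Real.log N / 4) := by positivity
          linarith)
    rw [hIc] at hkey
    have h1 : (L * (Real.log N / 4)) ^ 2 ≤ (B - L * ∑ p ∈ P, Real.log p / p) ^ 2 :=
      pow_le_pow_left₀ (by positivity) hgap 2
    have h3 : (E1.card : ℝ) * (L * (Real.log N / 4)) ^ 2 ≤ 6 * (6 * N) * (L * Real.log N ^ 2) := by
      calc (E1.card : ℝ) * (L * (Real.log N / 4)) ^ 2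
          ≤ (E1.card : ℝ) * (B - L * ∑ p ∈ P, Real.log p / p) ^ 2 :=
            mul_le_mul_of_nonneg_left h1 (by positivity)
        _ ≤ 6 * (((2 * N : ℕ) : ℝ) + (y : ℝ) ^ 2) * (L * ∑ p ∈ P, Real.log p ^ 2 / p) := hkey
        _ ≤ _ := by
            refine mul_le_mul ?_ (mul_le_mul_of_nonneg_left hvar hL0.le)
              (mul_nonneg hL0.le (sum_nonneg fun _ _ => by positivity)) (by positivity)
            push_cast
            linarith
    have h4 : (L ^ 2 * Real.log N ^ 2 / 16) * (E1.card : ℝ) ≤
        (L ^ 2 * Real.log N ^ 2 / 16) * (576 * (N / L)) := by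
      calc (L ^ 2 * Real.log N ^ 2 / 16) * (E1.card : ℝ) = (E1.card : ℝ) * (L * (Real.log N / 4)) ^ 2 := by ring
        _ ≤ 6 * (6 * N) * (L * Real.log N ^ 2) := h3
        _ = _ := by
            field_simp
            ring
    exact le_of_mul_le_mul_left h4 (by positivity)
  have hsqN : √(N : ℝ) ≤ N / L := by
    rw [le_div_iff₀ hL0]
    have h1 : (L : ℝ) ≤ √(N : ℝ) := by
      apply Real.le_sqrt_of_sq_le
      exact_mod_cast hLN
    calc √(N : ℝ) * L ≤ √(N : ℝ) * √(N : ℝ) := mul_le_mul_of_nonneg_left h1 (Real.sqrt_nonneg _)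
      _ = N := Real.mul_self_sqrt hN0.le
  have h0 : (0 : ℝ) ≤ N / L := by positivity
  calc (((Ioc N (2 * N)).filter (Run L y)).card : ℝ) ≤ E1.card + E2.card := hcard
    _ ≤ 576 * (N / L) + (1 / c) * (N / L + 2 * √N) := add_le_add hE1le hE2le
    _ ≤ 576 * (N / L) + (1 / c) * (N / L + 2 * (N / L)) := by
        refine add_le_add le_rfl (mul_le_mul_of_nonneg_left ?_ (by rw [hc]; norm_num))
        linarith
    _ ≤ _ := by
        rw [hc]
        norm_num
        linarith

end Pool.Agent.K9h59.VS
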