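import Pool.Agent.K9h59.VS.E

/-!
The large sieve for products of linear forms over disjoint sets of primes.
-/

set_option autoImplicit false

namespace Pool.Agent.K9h59.VS

open Finset Pool.Agent.Helper112

/-- the fractions whose denominators are the primes of `Q` -/
def RR (Q : Finset ℕ) : Finset (Σ _ : ℕ, ℕ) := Q.sigma (fun p => (range p).filter (fun b => b.Coprime p))

section
variable {m : ℕ}

/-- the product of the denominators -/
def Pf (f : Fin m → (Σ _ : ℕ, ℕ)) : ℕ := ∏ c, (f c).1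

/-- the numerator of the sum -/
def Af (f : Fin m → (Σ _ : ℕ, ℕ)) : ℕ := ∑ c, (f c).2 * ∏ c' ∈ univ.erase c, (f c').1

/-- the sum of the fractions -/
noncomputable def Xi (f : Fin m → (Σ _ : ℕ, ℕ)) : ℝ := ∑ c, ((f c).2 : ℝ) / (f c).1

lemma Xi_eq (f : Fin m → (Σ _ : ℕ, ℕ)) (hf : ∀ c, (f c).1 ≠ 0) : Xi f = (Af f : ℝ) / Pf f := by
  unfold Xi Af Pf
  push_cast
  rw [sum_div]
  refine sum_congr rfl fun c _ => ?_
  rw [← mul_prod_erase univ (fun c' => ((f c').1 : ℝ)) (mem_univ c)]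
  have h1 : ((f c).1 : ℝ) ≠ 0 := by exact_mod_cast hf c
  have h2 : ∏ c' ∈ univ.erase c, ((f c').1 : ℝ) ≠ 0 :=
    prod_ne_zero_iff.2 fun c' _ => by exact_mod_cast hf c'
  field_simp

lemma Af_split (f : Fin m → (Σ _ : ℕ, ℕ)) (c : Fin m) :
    ∃ t : ℕ, Af f = (f c).2 * ∏ c' ∈ univ.erase c, (f c').1 + (f c).1 * t := by
  have h1 : (f c).1 ∣ ∑ d ∈ univ.erase c, (f d).2 * ∏ c' ∈ univ.erase d, (f c').1 := by
    refine dvd_sum fun d hd => Dvd.dvd.mul_left ?_ _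
    have : c ∈ univ.erase d := mem_erase.2 ⟨fun h => (mem_erase.1 hd).1 h.symm, mem_univ c⟩
    exact dvd_prod_of_mem (fun c' => (f c').1) this
  obtain ⟨t, ht⟩ := h1
  refine ⟨t, ?_⟩
  unfold Af
  rw [← add_sum_erase univ (fun c => (f c).2 * ∏ c' ∈ univ.erase c, (f c').1) (mem_univ c), ht]

/-- the separation of the sums of fractions -/
lemma Xi_sep (y : ℕ) (Q : Fin m → Finset ℕ) (hdisj : ∀ c c', c ≠ c' → Disjoint (Q c) (Q c'))
    (hP : ∀ c, ∀ p ∈ Q c, p.Prime ∧ p ≤ y) (f g : Fin m → (Σ _ : ℕ, ℕ))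
    (hf : ∀ c, f c ∈ RR (Q c)) (hg : ∀ c, g c ∈ RR (Q c)) (hne : f ≠ g) :
    lsSep ((y ^ m) ^ 2) (Xi g - Xi f) := by
  have hm : ∀ f : Fin m → (Σ _ : ℕ, ℕ), (∀ c, f c ∈ RR (Q c)) → ∀ c,
      (f c).1 ∈ Q c ∧ (f c).1.Prime ∧ (f c).1 ≤ y ∧ (f c).2 < (f c).1 ∧ (f c).2.Coprime (f c).1 := by
    intro f hf c
    have h := hf c
    unfold RR at h
    rw [mem_sigma, mem_filter, mem_range] at h
    exact ⟨h.1, (hP c _ h.1).1, (hP c _ h.1).2, h.2.1, h.2.2⟩
  have hprime : ∀ f g : Fin m → (Σ _ : ℕ, ℕ), (∀ c, f c ∈ RR (Q c)) → (∀ c, g c ∈ RR (Q c)) →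
      ∀ c c', (f c).1 = (g c').1 → c = c' := by
    intro f g hf hg c c' h
    by_contra hcc
    have h1 := (hm f hf c).1
    have h2 := (hm g hg c').1
    rw [← h] at h2
    exact disjoint_left.1 (hdisj c c' hcc) h1 h2
  have hcopM : ∀ f : Fin m → (Σ _ : ℕ, ℕ), (∀ c, f c ∈ RR (Q c)) → ∀ c,
      Nat.Coprime (∏ c' ∈ univ.erase c, (f c').1) (f c).1 := by
    intro f hf c
    rw [Nat.coprime_prod_left_iff]
    intro c' hc'
    rw [Nat.coprime_primes (hm f hf c').2.1 (hm f hf c).2.1]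
    intro h
    exact (mem_erase.1 hc').1 (hprime f f hf hf c' c h)
  have hcop : ∀ f : Fin m → (Σ _ : ℕ, ℕ), (∀ c, f c ∈ RR (Q c)) → Nat.Coprime (Af f) (Pf f) := by
    intro f hf
    unfold Pf
    rw [Nat.coprime_prod_right_iff]
    intro c _
    obtain ⟨t, ht⟩ := Af_split f c
    rw [ht, Nat.coprime_add_mul_left_left]
    exact Nat.Coprime.mul_left (hm f hf c).2.2.2.2 (hcopM f hf c)
  have hPle : ∀ f : Fin m → (Σ _ : ℕ, ℕ), (∀ c, f c ∈ RR (Q c)) → 1 ≤ Pf f ∧ Pf f ≤ y ^ m := by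
    intro f hf
    constructor
    · exact Nat.one_le_iff_ne_zero.2 (prod_ne_zero_iff.2 fun c _ => (hm f hf c).2.1.ne_zero)
    · calc Pf f ≤ ∏ _c : Fin m, y := prod_le_prod' fun c _ => (hm f hf c).2.2.1
        _ = y ^ m := by rw [prod_const, card_univ, Fintype.card_fin]
  have key := ls_sep_of_int (y ^ m) (Pf f) (Pf g) (hPle f hf).1 (hPle g hg).1 (hPle f hf).2 (hPle g hg).2
    (Af f % Pf f) (Af g % Pf g) (Nat.mod_lt _ (hPle f hf).1) (Nat.mod_lt _ (hPle g hg).1)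
    ((Nat.mod_modEq _ _).gcd_eq.trans (hcop f hf))
    ((Nat.mod_modEq _ _).gcd_eq.trans (hcop g hg)) (by
      rintro ⟨h1, h2⟩
      apply hne
      have hfst : ∀ c, (f c).1 = (g c).1 := by
        intro c
        have h3 : (f c).1 ∣ Pf g := by
          rw [← h1]
          exact dvd_prod_of_mem (fun c' => (f c').1) (mem_univ c)
        unfold Pf at h3
        obtain ⟨c', _, h4⟩ := ((hm f hf c).2.1.prime.dvd_finsetProd_iff _).1 h3
        have h5 : (f c).1 = (g c').1 := (Nat.prime_dvd_prime_iff_eq (hm f hf c).2.1 (hm g hg c').2.1).1 h4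
        have h6 := hprime f g hf hg c c' h5
        rw [← h6] at h5
        exact h5
      have hmod : Af f ≡ Af g [MOD Pf f] := by
        unfold Nat.ModEq
        rw [h2, h1]
      funext c
      have hsnd : (f c).2 = (g c).2 := by
        obtain ⟨t, ht⟩ := Af_split f c
        obtain ⟨t', ht'⟩ := Af_split g c
        have h3 : Af f ≡ Af g [MOD (f c).1] :=
          hmod.of_dvd (dvd_prod_of_mem (fun c' => (f c').1) (mem_univ c))
        have h4 : ∏ c' ∈ univ.erase c, (g c').1 = ∏ c' ∈ univ.erase c, (f c').1 :=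
          prod_congr rfl fun c' _ => (hfst c').symm
        rw [ht, ht', ← hfst c, h4] at h3
        have h5 : (f c).2 * ∏ c' ∈ univ.erase c, (f c').1 ≡
            (g c).2 * ∏ c' ∈ univ.erase c, (f c').1 [MOD (f c).1] := by
          unfold Nat.ModEq at h3 ⊢
          rwa [Nat.add_mul_mod_self_left, Nat.add_mul_mod_self_left] at h3
        have h6 : (f c).2 ≡ (g c).2 [MOD (f c).1] :=
          Nat.ModEq.cancel_right_of_coprime (Nat.Coprime.symm (hcopM f hf c)) h5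
        have h7 : (g c).2 < (f c).1 := by
          rw [hfst c]
          exact (hm g hg c).2.2.2.1
        unfold Nat.ModEq at h6
        rwa [Nat.mod_eq_of_lt (hm f hf c).2.2.2.1, Nat.mod_eq_of_lt h7] at h6
      exact Sigma.ext (hfst c) (heq_of_eq hsnd))
  have hXi : ∀ f : Fin m → (Σ _ : ℕ, ℕ), (∀ c, f c ∈ RR (Q c)) →
      Xi f = ((Af f % Pf f : ℕ) : ℝ) / Pf f + ((Af f / Pf f : ℕ) : ℝ) := by
    intro f hf
    rw [Xi_eq f (fun c => (hm f hf c).2.1.ne_zero)]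
    have h0 : (Pf f : ℝ) ≠ 0 := Nat.cast_ne_zero.2 (by have := (hPle f hf).1; omega)
    rw [div_add' _ _ _ h0]
    congr 1
    have := Nat.mod_add_div (Af f) (Pf f)
    have h2 : ((Af f % Pf f + Pf f * (Af f / Pf f) : ℕ) : ℝ) = Af f := by rw [this]
    rw [← h2]
    push_cast
    ring
  have e1 : Xi g - Xi f = (((Af g % Pf g : ℕ) : ℝ) / Pf g - ((Af f % Pf f : ℕ) : ℝ) / Pf f) +
      (((Af g / Pf g : ℕ) : ℤ) - ((Af f / Pf f : ℕ) : ℤ) : ℤ) := by
    rw [hXi f hf, hXi g hg]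
    generalize Af g / Pf g = u1
    generalize Af f / Pf f = u2
    push_cast
    ring
  unfold lsSep at key ⊢
  rw [e1, Int.fract_add_intCast]
  exact key

lemma ee_prod {ι : Type*} (s : Finset ι) (g : ι → ℝ) : ∏ i ∈ s, ee (g i) = ee (∑ i ∈ s, g i) := by
  classical
  induction s using Finset.induction_on with
  | empty => simp [ls_ee_zero]
  | insert a s ha ih => rw [prod_insert ha, sum_insert ha, ls_ee_add, ih]

/-- the expansion of one linear form at one integer -/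
lemma expand_one (n : ℕ) (I Q : Finset ℕ) (w : ℕ → ℝ) (hP : ∀ p ∈ Q, p.Prime) :
    (((∑ k ∈ I, ∑ p ∈ Q, if p ∣ n + k then w p else 0) - I.card * ∑ p ∈ Q, w p / p : ℝ) : ℂ) =
      ∑ r ∈ RR Q, (((w r.1 / r.1 : ℝ) : ℂ) * ∑ k ∈ I, ee (k * ((r.2 : ℝ) / r.1))) *
        ee (n * ((r.2 : ℝ) / r.1)) := by
  have h := expand_lin {n} I Q w hP
  simp only [sum_singleton, card_singleton, Nat.cast_one, one_mul] at h
  rw [Complex.ofReal_sub, h, add_sub_cancel_left]
  unfold RR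
  rw [Finset.sum_sigma]
  refine sum_congr rfl fun p _ => sum_congr rfl fun b _ => ?_
  ring

/-- **The large sieve for products.** -/
theorem multi_key (N y : ℕ) (hy : 1 ≤ y) (E I : Finset ℕ) (hE : E ⊆ Icc 1 N) (Q : Fin m → Finset ℕ)
    (hdisj : ∀ c c', c ≠ c' → Disjoint (Q c) (Q c')) (w : ℕ → ℝ)
    (hP : ∀ c, ∀ p ∈ Q c, p.Prime ∧ p ≤ y)
    (hI : ∀ c, ∀ p ∈ Q c, ∀ k ∈ I, ∀ k' ∈ I, (p : ℤ) ∣ (k : ℤ) - k' → k = k') (D V : ℝ) (hD0 : 0 ≤ D)
    (hD : ∀ n ∈ E, ∀ c, D ≤ (∑ k ∈ I, ∑ p ∈ Q c, if p ∣ n + k then w p else 0) -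
      I.card * ∑ p ∈ Q c, w p / p)
    (hV : ∀ c, ∑ p ∈ Q c, w p ^ 2 / p ≤ V) :
    (E.card : ℝ) * (D ^ m) ^ 2 ≤ 6 * (N + (((y ^ m) ^ 2 : ℕ) : ℝ)) * (I.card * V) ^ m := by
  classical
  rcases Nat.eq_zero_or_pos m with hm0 | hm0
  · subst hm0
    have h1 : (E.card : ℝ) ≤ N := by
      have := card_le_card hE
      rw [Nat.card_Icc, Nat.add_sub_cancel] at this
      exact_mod_cast this
    simp only [pow_zero, one_pow, mul_one, Nat.cast_one]
    have : (0 : ℝ) ≤ N := by positivity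
    linarith
  have hV0 : 0 ≤ V := le_trans (sum_nonneg fun _ _ => by positivity) (hV ⟨0, hm0⟩)
  rcases Nat.eq_zero_or_pos E.card with hE0 | hE0
  · rw [hE0]
    simp only [Nat.cast_zero, zero_mul]
    positivity
  set W : ℝ → ℂ := fun t => ∑ k ∈ I, ee (k * t) with hW
  set S : ℝ → ℂ := fun t => ∑ n ∈ E, ee (n * t) with hS
  set γ : (Σ _ : ℕ, ℕ) → ℂ := fun r => ((w r.1 / r.1 : ℝ) : ℂ) * W ((r.2 : ℝ) / r.1) with hγ
  set Fc : Fin m → ℕ → ℝ := fun c n => (∑ k ∈ I, ∑ p ∈ Q c, if p ∣ n + k then w p else 0) -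
    I.card * ∑ p ∈ Q c, w p / p with hFc
  set R := Fintype.piFinset (fun c : Fin m => RR (Q c)) with hR
  have hexp : ∀ n : ℕ, ((∏ c, Fc c n : ℝ) : ℂ) = ∑ f ∈ R, (∏ c, γ (f c)) * ee (n * Xi f) := by
    intro n
    push_cast
    calc ∏ c, ((Fc c n : ℝ) : ℂ) = ∏ c, ∑ r ∈ RR (Q c), γ r * ee (n * ((r.2 : ℝ) / r.1)) := by
          refine prod_congr rfl fun c _ => ?_
          exact expand_one n I (Q c) w (fun p hp => (hP c p hp).1)
      _ = ∑ f ∈ R, ∏ c, (γ (f c) * ee (n * (((f c).2 : ℝ) / (f c).1))) := by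
          rw [hR, prod_univ_sum]
      _ = _ := by
          refine sum_congr rfl fun f _ => ?_
          rw [prod_mul_distrib, ee_prod]
          unfold Xi
          rw [mul_sum]
  have h1 : (E.card : ℝ) * D ^ m ≤ ∑ n ∈ E, ∏ c, Fc c n := by
    calc (E.card : ℝ) * D ^ m = ∑ _n ∈ E, ∏ _c : Fin m, D := by
          rw [prod_const, card_univ, Fintype.card_fin, sum_const, nsmul_eq_mul]
      _ ≤ _ := sum_le_sum fun n hn => prod_le_prod (fun _ _ => hD0) fun c _ => hD n hn c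
  have h2 : ((∑ n ∈ E, ∏ c, Fc c n : ℝ) : ℂ) = ∑ f ∈ R, (∏ c, γ (f c)) * S (Xi f) := by
    push_cast
    calc ∑ n ∈ E, ∏ c, ((Fc c n : ℝ) : ℂ) = ∑ n ∈ E, ∑ f ∈ R, (∏ c, γ (f c)) * ee (n * Xi f) := by
          refine sum_congr rfl fun n _ => ?_
          have := hexp n
          push_cast at this
          exact this
      _ = _ := by
          rw [sum_comm]
          refine sum_congr rfl fun f _ => ?_
          rw [← mul_sum]
  have h3 : (E.card : ℝ) * D ^ m ≤ ∑ f ∈ R, ‖S (Xi f)‖ * ‖∏ c, γ (f c)‖ := by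
    calc (E.card : ℝ) * D ^ m ≤ ∑ n ∈ E, ∏ c, Fc c n := h1
      _ ≤ ‖((∑ n ∈ E, ∏ c, Fc c n : ℝ) : ℂ)‖ := by
          rw [Complex.norm_real]
          exact Real.le_norm_self _
      _ ≤ _ := by
          rw [h2]
          refine (norm_sum_le _ _).trans (sum_le_sum fun f _ => ?_)
          rw [norm_mul, mul_comm]
  have h4 : ((E.card : ℝ) * D ^ m) ^ 2 ≤ (∑ f ∈ R, ‖S (Xi f)‖ ^ 2) * ∑ f ∈ R, ‖∏ c, γ (f c)‖ ^ 2 :=
    (pow_le_pow_left₀ (by positivity) h3 2).trans (sum_mul_sq_le_sq_mul_sq _ _ _)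
  have h5 : ∑ f ∈ R, ‖S (Xi f)‖ ^ 2 ≤ 6 * (N + (((y ^ m) ^ 2 : ℕ) : ℝ)) * E.card := by
    have e1 := ls_general R Xi ((y ^ m) ^ 2) N (Nat.one_le_iff_ne_zero.2 (by positivity))
      (by
        intro f hf g hg hne
        rw [hR, Fintype.mem_piFinset] at hf hg
        exact Xi_sep y Q hdisj hP f g hf hg hne) (fun n => if n ∈ E then 1 else 0)
    have e2 : ∑ n ∈ Icc 1 N, ‖(if n ∈ E then (1 : ℂ) else 0)‖ ^ 2 = E.card := by
      have : ∀ n ∈ Icc 1 N, ‖(if n ∈ E then (1 : ℂ) else 0)‖ ^ 2 = if n ∈ E then (1 : ℝ) else 0 := by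
        intro n _
        split_ifs <;> simp
      rw [sum_congr rfl this, ← sum_filter]
      rw [filter_mem_eq_inter, inter_eq_right.2 hE]
      simp
    rw [e2] at e1
    refine le_trans (le_of_eq ?_) e1
    refine sum_congr rfl fun f _ => ?_
    congr 2
    simp only [ite_mul, one_mul, zero_mul]
    rw [← sum_filter, filter_mem_eq_inter, inter_eq_right.2 hE]
  have h6 : ∑ f ∈ R, ‖∏ c, γ (f c)‖ ^ 2 ≤ (I.card * V) ^ m := by
    calc ∑ f ∈ R, ‖∏ c, γ (f c)‖ ^ 2 = ∑ f ∈ R, ∏ c, ‖γ (f c)‖ ^ 2 := by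
          refine sum_congr rfl fun f _ => ?_
          rw [norm_prod, prod_pow]
      _ = ∏ c, ∑ r ∈ RR (Q c), ‖γ r‖ ^ 2 := by rw [hR, prod_univ_sum]
      _ ≤ ∏ _c : Fin m, (I.card * V) := by
          refine prod_le_prod (fun _ _ => sum_nonneg fun _ _ => by positivity) fun c _ => ?_
          unfold RR
          rw [Finset.sum_sigma]
          calc ∑ p ∈ Q c, ∑ b ∈ (range p).filter (fun b => b.Coprime p), ‖γ ⟨p, b⟩‖ ^ 2
              ≤ ∑ p ∈ Q c, I.card * (w p ^ 2 / p) := by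
                refine sum_le_sum fun p hp => ?_
                have hp0 : (0 : ℝ) < p := by exact_mod_cast (hP c p hp).1.pos
                have e1 := W_sum p (hP c p hp).1.one_lt.le I (hI c p hp)
                calc ∑ b ∈ (range p).filter (fun b => b.Coprime p), ‖γ ⟨p, b⟩‖ ^ 2
                    ≤ ∑ b ∈ range p, ‖γ ⟨p, b⟩‖ ^ 2 :=
                      sum_le_sum_of_subset_of_nonneg (filter_subset _ _) (fun _ _ _ => by positivity)
                  _ = (w p / p) ^ 2 * ∑ b ∈ range p, ‖W ((b : ℝ) / p)‖ ^ 2 := by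
                      rw [mul_sum]
                      refine sum_congr rfl fun b _ => ?_
                      simp only [hγ]
                      rw [norm_mul, Complex.norm_real, mul_pow, Real.norm_eq_abs, sq_abs]
                  _ = _ := by
                      rw [e1]
                      field_simp
            _ = I.card * ∑ p ∈ Q c, w p ^ 2 / p := by rw [mul_sum]
            _ ≤ _ := mul_le_mul_of_nonneg_left (hV c) (by positivity)
      _ = _ := by rw [prod_const, card_univ, Fintype.card_fin]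
  have hEp : (0 : ℝ) < E.card := by exact_mod_cast hE0
  have h9 : ((E.card : ℝ) * D ^ m) ^ 2 ≤
      6 * (N + (((y ^ m) ^ 2 : ℕ) : ℝ)) * E.card * (I.card * V) ^ m :=
    h4.trans (mul_le_mul h5 h6 (sum_nonneg fun _ _ => by positivity) (by positivity))
  have h10 : (E.card : ℝ) * ((E.card : ℝ) * (D ^ m) ^ 2) ≤
      (E.card : ℝ) * (6 * (N + (((y ^ m) ^ 2 : ℕ) : ℝ)) * (I.card * V) ^ m) := by
    calc (E.card : ℝ) * ((E.card : ℝ) * (D ^ m) ^ 2) = ((E.card : ℝ) * D ^ m) ^ 2 := by ring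
      _ ≤ _ := h9
      _ = _ := by ring
  exact le_of_mul_le_mul_left h10 hEp

end

end Pool.Agent.K9h59.VS
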