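import Pool.Agent.K9h59.VS.Stm

/-!
Leaf PART: random colourings (exponential moment over all functions `P → Fin m`).
-/

set_option autoImplicit false

namespace Pool.Agent.K9h59.VS

open Finset

theorem part_exp_le {x : ℝ} (h0 : 0 ≤ x) (h1 : x ≤ 1) : Real.exp (-x) ≤ 1 - x / 2 := by
  have h2 : x + 1 ≤ Real.exp x := Real.add_one_le_exp x
  rw [Real.exp_neg]
  have h3 : (Real.exp x)⁻¹ ≤ (x + 1)⁻¹ := inv_anti₀ (by linarith) h2
  refine h3.trans ?_
  rw [inv_le_iff_one_le_mul₀ (by linarith)]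
  nlinarith

theorem part_sum_fin {m : ℕ} (hm : 1 ≤ m) (c : Fin m) {x : ℝ} (h0 : 0 ≤ x) (h1 : x ≤ 1) :
    ∑ j : Fin m, Real.exp (-(if j = c then x else 0)) ≤ m * Real.exp (-(x / (2 * m))) := by
  have hm' : (0 : ℝ) < m := by exact_mod_cast hm
  have e1 : ∀ j : Fin m, Real.exp (-(if j = c then x else 0))
      = 1 + (if j = c then Real.exp (-x) - 1 else 0) := by
    intro j
    split_ifs <;> simp
  rw [Finset.sum_congr rfl (fun j _ => e1 j), Finset.sum_add_distrib,
    Finset.sum_ite_eq' Finset.univ c]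
  simp only [Finset.sum_const, Finset.card_univ, Fintype.card_fin, nsmul_eq_mul, mul_one,
    Finset.mem_univ, if_true]
  have h2 := part_exp_le h0 h1
  have h3 : -(x / (2 * m)) + 1 ≤ Real.exp (-(x / (2 * m))) := Real.add_one_le_exp _
  have h4 : (m : ℝ) * (-(x / (2 * m)) + 1) ≤ m * Real.exp (-(x / (2 * m))) :=
    mul_le_mul_of_nonneg_left h3 hm'.le
  have h5 : (m : ℝ) * (-(x / (2 * m)) + 1) = m - x / 2 := by
    field_simp
    ring
  linarith

theorem part_moment {m : ℕ} (hm : 1 ≤ m) (P : Finset ℕ) (b : P → ℝ) (T : ℝ)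
    (hb : ∀ p, 0 ≤ b p ∧ b p ≤ 1) (hT : T ≤ ∑ p, b p) (c : Fin m) :
    ∑ χ : P → Fin m, Real.exp (-∑ p, (if χ p = c then b p else 0))
      ≤ (m : ℝ) ^ P.card * Real.exp (-(T / (2 * m))) := by
  classical
  have hm' : (0 : ℝ) < m := by exact_mod_cast hm
  have e1 : ∑ χ : P → Fin m, Real.exp (-∑ p, (if χ p = c then b p else 0))
      = ∏ p : P, ∑ j : Fin m, Real.exp (-(if j = c then b p else 0)) := by
    rw [Finset.prod_univ_sum, Fintype.piFinset_univ]
    refine Finset.sum_congr rfl (fun χ _ => ?_)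
    rw [← Finset.sum_neg_distrib, Real.exp_sum]
  rw [e1]
  calc ∏ p : P, ∑ j : Fin m, Real.exp (-(if j = c then b p else 0))
      ≤ ∏ p : P, ((m : ℝ) * Real.exp (-(b p / (2 * m)))) := by
        refine Finset.prod_le_prod (fun p _ => Finset.sum_nonneg (fun j _ => (Real.exp_pos _).le))
          (fun p _ => part_sum_fin hm c (hb p).1 (hb p).2)
    _ = (m : ℝ) ^ P.card * Real.exp (-((∑ p, b p) / (2 * m))) := by
        rw [Finset.prod_mul_distrib, ← Real.exp_sum, Finset.sum_neg_distrib, Finset.sum_div]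
        simp
    _ ≤ (m : ℝ) ^ P.card * Real.exp (-(T / (2 * m))) := by
        refine mul_le_mul_of_nonneg_left (Real.exp_le_exp.2 (neg_le_neg ?_)) (by positivity)
        exact div_le_div_of_nonneg_right hT (by positivity)

theorem part_bad {m : ℕ} (hm : 1 ≤ m) (P : Finset ℕ) (b : P → ℝ) (T : ℝ)
    (hb : ∀ p, 0 ≤ b p ∧ b p ≤ 1) (hT : T ≤ ∑ p, b p) (c : Fin m) :
    (((Finset.univ : Finset (P → Fin m)).filter
      (fun χ => ∑ p, (if χ p = c then b p else 0) < T / (4 * m))).card : ℝ)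
      ≤ (m : ℝ) ^ P.card * Real.exp (-(T / (4 * m))) := by
  classical
  have hm' : (0 : ℝ) < m := by exact_mod_cast hm
  set B := (Finset.univ : Finset (P → Fin m)).filter
      (fun χ => ∑ p, (if χ p = c then b p else 0) < T / (4 * m)) with hB
  have h1 : (B.card : ℝ) * Real.exp (-(T / (4 * m)))
      ≤ ∑ χ ∈ B, Real.exp (-∑ p, (if χ p = c then b p else 0)) := by
    rw [← nsmul_eq_mul]
    refine Finset.card_nsmul_le_sum _ _ _ (fun χ hχ => ?_)
    rw [hB, Finset.mem_filter] at hχ
    exact Real.exp_le_exp.2 (neg_le_neg hχ.2.le)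
  have h2 : ∑ χ ∈ B, Real.exp (-∑ p, (if χ p = c then b p else 0))
      ≤ ∑ χ : P → Fin m, Real.exp (-∑ p, (if χ p = c then b p else 0)) :=
    Finset.sum_le_sum_of_subset_of_nonneg (Finset.subset_univ _)
      (fun χ _ _ => (Real.exp_pos _).le)
  have h3 := part_moment hm P b T hb hT c
  have h4 : Real.exp (-(T / (2 * m))) = Real.exp (-(T / (4 * m))) * Real.exp (-(T / (4 * m))) := by
    rw [← Real.exp_add]
    congr 1
    field_simp
    ring
  rw [h4, ← mul_assoc] at h3
  have h5 := h1.trans (h2.trans h3)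
  exact le_of_mul_le_mul_right h5 (Real.exp_pos _)

theorem part : S_PART := by
  intro m hm P Q a T ha hT hQ
  classical
  have hm' : (0 : ℝ) < m := by exact_mod_cast hm
  by_cases key : ∃ χ : P → Fin m, ∀ n ∈ Q, ∀ c : Fin m,
      T / (4 * m) ≤ ∑ p : P, (if χ p = c then a n p else 0)
  · obtain ⟨χ, hχ⟩ := key
    refine ⟨fun p => if h : p ∈ P then χ ⟨p, h⟩ else ⟨0, hm⟩, fun n hn c => ?_⟩
    refine (hχ n hn c).trans (le_of_eq ?_)
    rw [Finset.sum_filter, ← Finset.sum_coe_sort P]
    refine Finset.sum_congr rfl (fun p _ => ?_)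
    simp only [Finset.coe_mem, dif_pos]
  · exfalso
    push Not at key
    have hcov : (Finset.univ : Finset (P → Fin m)) ⊆
        Q.biUnion (fun n => (Finset.univ : Finset (Fin m)).biUnion (fun c =>
          (Finset.univ : Finset (P → Fin m)).filter
            (fun χ => ∑ p : P, (if χ p = c then a n p else 0) < T / (4 * m)))) := by
      intro χ _
      obtain ⟨n, hn, c, hc⟩ := key χ
      rw [Finset.mem_biUnion]
      refine ⟨n, hn, ?_⟩
      rw [Finset.mem_biUnion]
      exact ⟨c, Finset.mem_univ _, Finset.mem_filter.2 ⟨Finset.mem_univ _, hc⟩⟩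
    have h1 := (Finset.card_le_card hcov).trans Finset.card_biUnion_le
    have h2 : ((Finset.univ : Finset (P → Fin m)).card : ℝ) ≤
        ∑ n ∈ Q, ((m : ℝ) * ((m : ℝ) ^ P.card * Real.exp (-(T / (4 * m))))) := by
      refine (Nat.cast_le.2 h1).trans ?_
      rw [Nat.cast_sum]
      refine Finset.sum_le_sum (fun n hn => ?_)
      refine (Nat.cast_le.2 Finset.card_biUnion_le).trans ?_
      rw [Nat.cast_sum]
      have h3 : ∀ c ∈ (Finset.univ : Finset (Fin m)),
          (((Finset.univ : Finset (P → Fin m)).filter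
            (fun χ => ∑ p : P, (if χ p = c then a n p else 0) < T / (4 * m))).card : ℝ)
            ≤ (m : ℝ) ^ P.card * Real.exp (-(T / (4 * m))) := by
        intro c _
        refine part_bad hm P (fun p => a n p) T (fun p => ha n hn p p.2) ?_ c
        rw [Finset.sum_coe_sort P (fun p => a n p)]
        exact hT n hn
      refine (Finset.sum_le_sum h3).trans (le_of_eq ?_)
      simp
    have h4 : ((Finset.univ : Finset (P → Fin m)).card : ℝ) = (m : ℝ) ^ P.card := by
      simp
    rw [h4, Finset.sum_const, nsmul_eq_mul] at h2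
    have h5 : (0 : ℝ) < (m : ℝ) ^ P.card := by positivity
    have h6 : (Q.card : ℝ) * m * Real.exp (-(T / (4 * m))) < 1 := by
      have := mul_lt_mul_of_pos_right hQ (Real.exp_pos (-(T / (4 * m))))
      rwa [← Real.exp_add, add_neg_cancel, Real.exp_zero] at this
    have h7 : (Q.card : ℝ) * ((m : ℝ) * ((m : ℝ) ^ P.card * Real.exp (-(T / (4 * m)))))
        = ((Q.card : ℝ) * m * Real.exp (-(T / (4 * m)))) * (m : ℝ) ^ P.card := by ring
    rw [h7] at h2
    have h8 := mul_lt_mul_of_pos_right h6 h5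
    linarith

end Pool.Agent.K9h59.VS
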