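import Pool.Agent.K9h59.VS.M
import Pool.Agent.H119R2.Kp.NT

/-!
The largest prime factor of an interval whose largest prime factor is repeated is at most `√(2u)`.
-/

set_option autoImplicit false

namespace Pool.Agent.K9h59.VS

open Finset Filter

/-- the largest prime factor of `u (u+1) … v` is repeated -/
def Adm (u v : ℕ) : Prop :=
  1 ≤ u ∧ u ≤ v ∧ ∃ p : ℕ, p.Prime ∧ p ^ 2 ∣ ∏ m ∈ Icc u v, m ∧
    ∀ q : ℕ, q.Prime → q ∣ ∏ m ∈ Icc u v, m → q ≤ p

lemma dvd_prod_iff {q u v : ℕ} (hq : q.Prime) :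
    q ∣ ∏ m ∈ Icc u v, m ↔ ∃ m, u ≤ m ∧ m ≤ v ∧ q ∣ m := by
  rw [hq.prime.dvd_finsetProd_iff]
  constructor
  · rintro ⟨m, hm, h⟩
    rw [mem_Icc] at hm
    exact ⟨m, hm.1, hm.2, h⟩
  · rintro ⟨m, h1, h2, h⟩
    exact ⟨m, mem_Icc.2 ⟨h1, h2⟩, h⟩

/-- a repeated prime longer than the interval divides a single factor twice -/
lemma sq_dvd {p u v : ℕ} (hp : p.Prime) (hu : 1 ≤ u) (h : p ^ 2 ∣ ∏ m ∈ Icc u v, m) (hlen : v - u < p) :
    ∃ m, u ≤ m ∧ m ≤ v ∧ p ^ 2 ∣ m := by
  have h1 : p ∣ ∏ m ∈ Icc u v, m := (dvd_pow_self p two_ne_zero).trans h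
  obtain ⟨m, hm1, hm2, hm⟩ := (dvd_prod_iff hp).1 h1
  refine ⟨m, hm1, hm2, ?_⟩
  have h2 : ∏ m ∈ Icc u v, m = m * ∏ i ∈ (Icc u v).erase m, i :=
    (mul_prod_erase _ _ (mem_Icc.2 ⟨hm1, hm2⟩)).symm
  rw [h2] at h
  have h3 : Nat.Coprime (p ^ 2) (∏ i ∈ (Icc u v).erase m, i) := by
    apply Nat.Coprime.pow_left
    rw [Nat.coprime_prod_right_iff]
    intro i hi
    rw [mem_erase, mem_Icc] at hi
    rw [Nat.Prime.coprime_iff_not_dvd hp]
    intro hpi
    rcases lt_or_gt_of_ne hi.1 with h4 | h4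
    · have h5 := Nat.le_of_dvd (by omega) (Nat.dvd_sub hm hpi)
      omega
    · have h5 := Nat.le_of_dvd (by omega) (Nat.dvd_sub hpi hm)
      omega
  exact h3.dvd_of_dvd_mul_right h

/-- Bertrand -/
lemma adm_lt {u v : ℕ} (h : Adm u v) : v < 2 * u := by
  obtain ⟨hu, huv, p, hp, hp2, hmax⟩ := h
  by_contra hcon
  push Not at hcon
  obtain ⟨q, hq, hq1, hq2⟩ := Nat.exists_prime_lt_and_le_two_mul (v / 2) (by omega)
  have hqv : q ≤ v := by omega
  have hqu : u ≤ q := by omega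
  have h1 : q ≤ p := hmax q hq ((dvd_prod_iff hq).2 ⟨q, hqu, hqv, dvd_rfl⟩)
  have h2 : v < 2 * p := by omega
  have h3 : p ∣ ∏ m ∈ Icc u v, m := (dvd_pow_self p two_ne_zero).trans hp2
  obtain ⟨m, hm1, hm2, hm⟩ := (dvd_prod_iff hp).1 h3
  have hpm := Nat.le_of_dvd (by omega) hm
  -- the only multiple of `p` is `p`
  have h4 : ∏ m ∈ Icc u v, m = p * ∏ i ∈ (Icc u v).erase p, i :=
    (mul_prod_erase _ _ (mem_Icc.2 ⟨by omega, by omega⟩)).symm
  rw [h4, sq] at hp2
  have h5 : p ∣ ∏ i ∈ (Icc u v).erase p, i := Nat.dvd_of_mul_dvd_mul_left hp.pos hp2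
  rw [hp.prime.dvd_finsetProd_iff] at h5
  obtain ⟨i, hi, hpi⟩ := h5
  rw [mem_erase, mem_Icc] at hi
  obtain ⟨c, hc⟩ := hpi
  have hc0 : c ≠ 0 := by
    rintro rfl
    omega
  have hc1 : c ≠ 1 := by
    rintro rfl
    exact hi.1 (by rw [hc, mul_one])
  have hc2 : 2 ≤ c := by omega
  have : p * 2 ≤ p * c := Nat.mul_le_mul_left _ hc2
  omega

lemma sm_eq {K m : ℕ} (hm : 1 ≤ m) (h : ∀ q : ℕ, q.Prime → q ∣ m → q ≤ K) : Real.log m ≤ sm K m := by
  rw [Real.log_nat_eq_sum_factorization, Finsupp.sum]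
  unfold sm
  refine sum_le_sum_of_subset_of_nonneg ?_
    fun q _ _ => mul_nonneg (by positivity) (Real.log_natCast_nonneg q)
  intro q hq
  rw [Nat.support_factorization, Nat.mem_primeFactors] at hq
  unfold SP
  rw [mem_filter, mem_Icc]
  exact ⟨⟨hq.1.one_lt.le, h q hq.1 hq.2.1⟩, hq.1⟩

/-- **The largest prime factor of an admissible interval.** -/
theorem adm_smooth : ∃ U₀ : ℕ, ∀ u v : ℕ, U₀ ≤ u → Adm u v →
    ∀ m : ℕ, u ≤ m → m ≤ v → ∀ q : ℕ, q.Prime → q ∣ m → q ^ 2 ≤ 2 * u := by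
  obtain ⟨M₀, hM₀⟩ := eventually_atTop.1 SP_le
  obtain ⟨N₁, hN₁⟩ := Pool.Agent.H119R2.Kp.prime_between (Real.exp (-12)) (Real.exp_pos _)
  refine ⟨M₀ ^ 2 + N₁ + 4, fun u v hu hadm m hm1 hm2 q hq hqm => ?_⟩
  have hv := adm_lt hadm
  obtain ⟨hu1, huv, p, hp, hp2, hmax⟩ := hadm
  have hqp : q ≤ p := hmax q hq ((dvd_prod_iff hq).2 ⟨m, hm1, hm2, hqm⟩)
  have hq2 : q ^ 2 ≤ p ^ 2 := Nat.pow_le_pow_left hqp 2
  refine hq2.trans ?_
  by_cases hlen : v - u < p
  · obtain ⟨m', hm1', hm2', hd⟩ := sq_dvd hp hu1 hp2 hlen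
    have := Nat.le_of_dvd (by omega) hd
    omega
  · push Not at hlen
    by_contra hcon
    push Not at hcon
    set h := v - u with hh
    have hph : p ^ 2 ≤ h ^ 2 := Nat.pow_le_pow_left hlen 2
    have hh2 : 2 * u < h ^ 2 := by omega
    have hh1 : 1 ≤ h := by
      by_contra h0
      have : h = 0 := by omega
      rw [this] at hh2
      omega
    have hhu : h + 1 ≤ u := by omega
    -- the smooth parts
    have h1 := sm_sum (u - h - 1) h hh1
    have h2 : (h : ℝ) * Real.log u ≤ ∑ k ∈ Ioc h (2 * h), sm (2 * h) (u - h - 1 + k) := by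
      have e1 : ((Ioc h (2 * h)).card : ℝ) = h := by
        rw [Nat.card_Ioc]
        have : 2 * h - h = h := by omega
        rw [this]
      calc (h : ℝ) * Real.log u = ∑ _k ∈ Ioc h (2 * h), Real.log u := by
            rw [sum_const, nsmul_eq_mul, e1]
        _ ≤ _ := by
            refine sum_le_sum fun k hk => ?_
            rw [mem_Ioc] at hk
            have e2 : Real.log u ≤ Real.log ((u - h - 1 + k : ℕ) : ℝ) := by
              apply Real.log_le_log
              · exact_mod_cast (by omega : 0 < u)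
              · exact_mod_cast (by omega : u ≤ u - h - 1 + k)
            refine e2.trans (sm_eq (by omega) fun r hr hrd => ?_)
            have e3 : r ≤ p := hmax r hr ((dvd_prod_iff hr).2 ⟨u - h - 1 + k, by omega, by omega, hrd⟩)
            omega
    have h3 : ((u - h - 1 + 2 * h : ℕ) : ℝ) ≤ 2 * u := by
      exact_mod_cast (by omega : u - h - 1 + 2 * h ≤ 2 * u)
    have hu0 : (0 : ℝ) < u := by exact_mod_cast (by omega : 0 < u)
    have hh0 : (0 : ℝ) < h := by exact_mod_cast hh1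
    have h4 : Real.log ((u - h - 1 + 2 * h : ℕ) : ℝ) ≤ Real.log (2 * u) := by
      apply Real.log_le_log _ h3
      exact_mod_cast (by omega : 0 < u - h - 1 + 2 * h)
    have hM : M₀ ≤ 2 * h := by
      have e1 : M₀ ^ 2 < h ^ 2 := by omega
      have e2 : M₀ < h := lt_of_pow_lt_pow_left₀ 2 (by omega) e1
      omega
    have h5 := hM₀ (2 * h) hM
    -- `log (2h) ≥ log (2u) / 2`
    have h6 : Real.log (2 * u) / 2 ≤ Real.log ((2 * h : ℕ) : ℝ) := by
      have e1 : (2 * (u : ℝ)) ≤ ((2 * h : ℕ) : ℝ) ^ 2 := by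
        have : 2 * u ≤ (2 * h) ^ 2 := by nlinarith
        exact_mod_cast this
      have e2 := Real.log_le_log (by positivity) e1
      rw [Real.log_pow] at e2
      push_cast at e2 ⊢
      linarith
    have hlu : 0 < Real.log (2 * u) := Real.log_pos (by
      have : (4 : ℝ) ≤ u := by exact_mod_cast (by omega : 4 ≤ u)
      linarith)
    have h7 : ((SP (2 * h)).card : ℝ) * Real.log (2 * u) ≤ 12 * h := by
      have e1 : ((SP (2 * h)).card : ℝ) ≤ 3 * ((2 * h : ℕ) : ℝ) / (Real.log (2 * u) / 2) :=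
        h5.trans (div_le_div_of_nonneg_left (by positivity) (by positivity) h6)
      calc ((SP (2 * h)).card : ℝ) * Real.log (2 * u)
          ≤ 3 * ((2 * h : ℕ) : ℝ) / (Real.log (2 * u) / 2) * Real.log (2 * u) :=
            mul_le_mul_of_nonneg_right e1 hlu.le
        _ = 12 * h := by
            push_cast
            field_simp
            ring
    have h8 : (h : ℝ) * Real.log u ≤ h * (Real.log h + 12) := by
      have e1 : ((SP (2 * h)).card : ℝ) * Real.log ((u - h - 1 + 2 * h : ℕ) : ℝ) ≤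
          (SP (2 * h)).card * Real.log (2 * u) := mul_le_mul_of_nonneg_left h4 (by positivity)
      linarith
    have h9 : Real.log u ≤ Real.log h + 12 := le_of_mul_le_mul_left h8 hh0
    have h10 : Real.exp (-12) * u ≤ h := by
      have e1 : (u : ℝ) ≤ h * Real.exp 12 := by
        calc (u : ℝ) = Real.exp (Real.log u) := (Real.exp_log hu0).symm
          _ ≤ Real.exp (Real.log h + 12) := Real.exp_le_exp.2 h9
          _ = h * Real.exp 12 := by rw [Real.exp_add, Real.exp_log hh0]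
      calc Real.exp (-12) * u ≤ Real.exp (-12) * (h * Real.exp 12) :=
            mul_le_mul_of_nonneg_left e1 (Real.exp_pos _).le
        _ = h * (Real.exp (-12) * Real.exp 12) := by ring
        _ = h := by rw [← Real.exp_add]; norm_num
    obtain ⟨r, hr, hr1, hr2⟩ := hN₁ u (by exact_mod_cast (by omega : N₁ ≤ u))
    have h11 : u < r := by exact_mod_cast hr1
    have h12 : r ≤ v := by
      have e1 : (r : ℝ) < u + h := by
        calc (r : ℝ) < (1 + Real.exp (-12)) * u := hr2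
          _ = u + Real.exp (-12) * u := by ring
          _ ≤ u + h := by linarith
      have e2 : r < u + h := by exact_mod_cast e1
      omega
    have h13 : r ≤ p := hmax r hr ((dvd_prod_iff hr).2 ⟨r, by omega, h12, dvd_rfl⟩)
    omega

end Pool.Agent.K9h59.VS
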