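import Pool.Agent.K9h59.VS.Q

/-!
The integers lying in a long admissible interval.
-/

set_option autoImplicit false

namespace Pool.Agent.K9h59.VS

open Finset Filter

/-- `n` lies in an admissible interval `[u, v]` with `v - u ≥ k` -/
def Cov (k n : ℕ) : Prop := ∃ u v : ℕ, Adm u v ∧ u ≤ n ∧ n ≤ v ∧ k ≤ v - u

lemma Cov.mono {k k' n : ℕ} (h : k' ≤ k) (hc : Cov k n) : Cov k' n := by
  obtain ⟨u, v, h1, h2, h3, h4⟩ := hc
  exact ⟨u, v, h1, h2, h3, h.trans h4⟩

open Classical in
theorem cov_block : ∃ (C : ℝ) (N₁ : ℕ), 0 < C ∧ ∀ k N : ℕ, 1 ≤ k → N₁ ≤ N →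
    (((Ioc N (2 * N)).filter (Cov k)).card : ℝ) ≤ C * (N / k + √N) := by
  obtain ⟨L₀, N₀, hrun⟩ := run_block
  obtain ⟨U₀, hsm⟩ := adm_smooth
  refine ⟨2 * (36001 + (4 * L₀ + 6)), N₀ + 2 * U₀ + 9, by positivity, fun k N hk hN => ?_⟩
  set s := Nat.sqrt N with hs
  have hs1 : 1 ≤ s := by
    rw [hs, Nat.le_sqrt']
    omega
  have hs2 : s ^ 2 ≤ N := Nat.sqrt_le' N
  set k' := min k s with hk'
  have hk'1 : 1 ≤ k' := le_min hk hs1
  have hk's : k' ≤ s := min_le_right _ _
  have hN0 : (0 : ℝ) < N := by exact_mod_cast (by omega : 0 < N)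
  have hk'0 : (0 : ℝ) < k' := by exact_mod_cast hk'1
  have hk0 : (0 : ℝ) < k := by exact_mod_cast hk
  have hs0 : (0 : ℝ) < s := by exact_mod_cast hs1
  -- comparison of the bounds
  have hss : √(N : ℝ) ≤ 2 * s := by
    rw [Real.sqrt_le_left (by positivity)]
    have h3 : N < (s + 1) ^ 2 := Nat.lt_succ_sqrt' N
    have h4 : (s + 1) ^ 2 ≤ (2 * s) ^ 2 := Nat.pow_le_pow_left (by omega) 2
    exact_mod_cast (by omega : N ≤ (2 * s) ^ 2)
  have hNs : (N : ℝ) / s ≤ 2 * √N := by
    rw [div_le_iff₀ hs0]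
    have h1 : √(N : ℝ) * √(N : ℝ) = N := Real.mul_self_sqrt hN0.le
    nlinarith [Real.sqrt_nonneg (N : ℝ)]
  have hcomp : (N : ℝ) / k' ≤ 2 * (N / k + √N) := by
    have h0 : (0 : ℝ) ≤ N / k := by positivity
    have h00 := Real.sqrt_nonneg (N : ℝ)
    rcases min_choice k s with h | h
    · rw [hk', h]
      linarith
    · rw [hk', h]
      linarith
  have hmono : (((Ioc N (2 * N)).filter (Cov k)).card : ℝ) ≤ ((Ioc N (2 * N)).filter (Cov k')).card := by
    have : (Ioc N (2 * N)).filter (Cov k) ⊆ (Ioc N (2 * N)).filter (Cov k') := by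
      intro n hn
      rw [mem_filter] at hn ⊢
      exact ⟨hn.1, hn.2.mono (min_le_left _ _)⟩
    exact_mod_cast card_le_card this
  refine hmono.trans ?_
  set L := (k' - 2) / 4 with hL
  by_cases hcase : L < L₀ + 1
  · have h1 : k' ≤ 4 * L₀ + 6 := by omega
    have h2 : (((Ioc N (2 * N)).filter (Cov k')).card : ℝ) ≤ N := by
      have : ((Ioc N (2 * N)).filter (Cov k')).card ≤ N := by
        refine (card_filter_le _ _).trans ?_
        rw [Nat.card_Ioc]
        omega
      exact_mod_cast this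
    have h3 : (N : ℝ) ≤ (4 * L₀ + 6) * (N / k') := by
      rw [mul_div_assoc', le_div_iff₀ hk'0]
      have : (k' : ℝ) ≤ 4 * L₀ + 6 := by exact_mod_cast h1
      nlinarith
    calc (((Ioc N (2 * N)).filter (Cov k')).card : ℝ) ≤ N := h2
      _ ≤ (4 * L₀ + 6) * (N / k') := h3
      _ ≤ (4 * L₀ + 6) * (2 * (N / k + √N)) := mul_le_mul_of_nonneg_left hcomp (by positivity)
      _ ≤ _ := by
          have h0 : (0 : ℝ) ≤ N / k + √N := by positivity
          nlinarith
  · push Not at hcase
    have hL1 : 1 ≤ L := by omega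
    have hL4 : 4 * L + 2 ≤ k' := by omega
    have hL9 : k' ≤ 9 * L := by omega
    have hL0 : (0 : ℝ) < L := by exact_mod_cast hL1
    have hLN : L ^ 2 ≤ N := (Nat.pow_le_pow_left (by omega : L ≤ s) 2).trans hs2
    have hb := hrun L N (by omega) (by omega) hLN
    set y := Nat.sqrt (4 * N) with hy
    set A := (Ioc N (2 * N)).filter (Run L y) with hA
    have hsub : (Ioc N (2 * N)).filter (Cov k') ⊆
        (A ∪ A.image (fun n => n + (2 * L + 1))) ∪ Ioc N (N + (2 * L + 1)) := by
      intro n hn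
      rw [mem_filter, mem_Ioc] at hn
      obtain ⟨hnN, u, v, hadm, hun, hnv, hkv⟩ := hn
      have hvu := adm_lt hadm
      have hU : U₀ ≤ u := by omega
      have hsmooth := hsm u v hU hadm
      rw [mem_union, mem_union, mem_image]
      by_cases hr : 2 * L + 1 ≤ v - n
      · refine Or.inl (Or.inl ?_)
        rw [hA, mem_filter, mem_Ioc]
        refine ⟨hnN, fun j hj1 hj2 q hq hqd => ?_⟩
        have h1 := hsmooth (n + j) (by omega) (by omega) q hq hqd
        rw [hy, Nat.le_sqrt']
        omega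
      · by_cases hl : N < n - (2 * L + 1)
        · refine Or.inl (Or.inr ⟨n - (2 * L + 1), ?_, by omega⟩)
          rw [hA, mem_filter, mem_Ioc]
          refine ⟨⟨hl, by omega⟩, fun j hj1 hj2 q hq hqd => ?_⟩
          have h1 := hsmooth (n - (2 * L + 1) + j) (by omega) (by omega) q hq hqd
          rw [hy, Nat.le_sqrt']
          omega
        · refine Or.inr ?_
          rw [mem_Ioc]
          omega
    have hcard : (((Ioc N (2 * N)).filter (Cov k')).card : ℝ) ≤ A.card + A.card + (2 * L + 1) := by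
      have h1 := (card_le_card hsub).trans ((card_union_le _ _).trans
        (Nat.add_le_add_right (card_union_le _ _) _))
      have h2 : (A.image (fun n => n + (2 * L + 1))).card ≤ A.card := card_image_le
      have h3 : (Ioc N (N + (2 * L + 1))).card = 2 * L + 1 := by
        rw [Nat.card_Ioc]
        omega
      rw [h3] at h1
      have h4 : ((Ioc N (2 * N)).filter (Cov k')).card ≤ A.card + A.card + (2 * L + 1) := by omega
      exact_mod_cast h4
    have hNL : (N : ℝ) / L ≤ 9 * (N / k') := by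
      rw [mul_div_assoc', div_le_div_iff₀ hL0 hk'0]
      have : (k' : ℝ) ≤ 9 * L := by exact_mod_cast hL9
      nlinarith
    have hLk : (2 * (L : ℝ) + 1) ≤ N / k' := by
      rw [le_div_iff₀ hk'0]
      have h1 : (2 * L + 1) * k' ≤ N := by
        calc (2 * L + 1) * k' ≤ s * s := Nat.mul_le_mul (by omega) hk's
          _ = s ^ 2 := by ring
          _ ≤ N := hs2
      exact_mod_cast h1
    calc (((Ioc N (2 * N)).filter (Cov k')).card : ℝ) ≤ A.card + A.card + (2 * L + 1) := hcard
      _ ≤ 2000 * (N / L) + 2000 * (N / L) + (2 * L + 1) := by linarith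
      _ ≤ 36001 * (N / k') := by linarith
      _ ≤ 36001 * (2 * (N / k + √N)) := mul_le_mul_of_nonneg_left hcomp (by norm_num)
      _ ≤ _ := by
          have h0 : (0 : ℝ) ≤ N / k + √N := by positivity
          have h1 : (0 : ℝ) ≤ L₀ := by positivity
          nlinarith [mul_nonneg h1 h0]

open Classical in
/-- **The integers in long admissible intervals.** -/
theorem cov_total : ∃ C : ℝ, 0 < C ∧ ∀ k : ℕ, 1 ≤ k → ∀ M : ℕ, 1 ≤ M →
    (((Icc 1 M).filter (Cov k)).card : ℝ) ≤ C * (M / k + √M) := by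
  obtain ⟨C, N₁, hC, hblock⟩ := cov_block
  set C' : ℝ := 3 * (C + 1) + 2 * (N₁ + 1) with hC'
  have hN₁' : (0 : ℝ) ≤ N₁ := by positivity
  refine ⟨C', by positivity, fun k hk M => ?_⟩
  have hk0 : (0 : ℝ) < k := by exact_mod_cast hk
  induction M using Nat.strong_induction_on with
  | _ M ih =>
    intro hM
    have hM1 : (1 : ℝ) ≤ M := by exact_mod_cast hM
    have hsM : 1 ≤ √(M : ℝ) := Real.one_le_sqrt.2 hM1
    have hMk : 0 ≤ (M : ℝ) / k := by positivity
    by_cases hcase : M ≤ 2 * (N₁ + 1)
    · have h1 : ((Icc 1 M).filter (Cov k)).card ≤ M := by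
        refine (card_filter_le _ _).trans ?_
        rw [Nat.card_Icc]
        omega
      have h2 : (((Icc 1 M).filter (Cov k)).card : ℝ) ≤ 2 * (N₁ + 1) := by
        calc (((Icc 1 M).filter (Cov k)).card : ℝ) ≤ M := by exact_mod_cast h1
          _ ≤ 2 * (N₁ + 1) := by exact_mod_cast hcase
      calc (((Icc 1 M).filter (Cov k)).card : ℝ) ≤ 2 * (N₁ + 1) := h2
        _ ≤ C' * 1 := by rw [hC']; linarith
        _ ≤ C' * (M / k + √M) := mul_le_mul_of_nonneg_left (by linarith) (by positivity)
    · push Not at hcase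
      set N := M / 2 with hN
      have hNM : 2 * N ≤ M ∧ M ≤ 2 * N + 1 := by omega
      have hNlt : N < M := by omega
      have hN1 : 1 ≤ N := by omega
      have hNN : N₁ ≤ N := by omega
      have h1 := ih N hNlt hN1
      have h2 := hblock k N hk hNN
      have hsub : (Icc 1 M).filter (Cov k) ⊆
          ((Icc 1 N).filter (Cov k) ∪ (Ioc N (2 * N)).filter (Cov k)) ∪ {M} := by
        intro n hn
        rw [mem_filter, mem_Icc] at hn
        rw [mem_union, mem_union, mem_filter, mem_filter, mem_Icc, mem_Ioc, mem_singleton]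
        by_cases h3 : n ≤ N
        · exact Or.inl (Or.inl ⟨⟨hn.1.1, h3⟩, hn.2⟩)
        · by_cases h4 : n ≤ 2 * N
          · exact Or.inl (Or.inr ⟨⟨by omega, h4⟩, hn.2⟩)
          · exact Or.inr (by omega)
      have h3 : (((Icc 1 M).filter (Cov k)).card : ℝ) ≤ ((Icc 1 N).filter (Cov k)).card +
          ((Ioc N (2 * N)).filter (Cov k)).card + 1 := by
        have := (card_le_card hsub).trans ((card_union_le _ _).trans
          (Nat.add_le_add_right (card_union_le _ _) _))
        rw [card_singleton] at this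
        exact_mod_cast this
      have hN1' : (1 : ℝ) ≤ N := by exact_mod_cast hN1
      have hsN : 1 ≤ √(N : ℝ) := Real.one_le_sqrt.2 hN1'
      have hNk : 0 ≤ (N : ℝ) / k := by positivity
      have hNM2 : (N : ℝ) ≤ M * (1 / 2) := by
        have : ((2 * N : ℕ) : ℝ) ≤ M := by exact_mod_cast hNM.1
        push_cast at this
        linarith
      have h4 : (N : ℝ) / k + √N ≤ (M / k + √M) * (3 / 4) := by
        have e1 : (N : ℝ) / k ≤ M / k * (3 / 4) := by
          rw [div_mul_eq_mul_div]
          apply div_le_div_of_nonneg_right _ hk0.le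
          linarith
        have e2 : √(N : ℝ) ≤ √M * (3 / 4) := by
          rw [Real.sqrt_le_left (by positivity), mul_pow, Real.sq_sqrt (by positivity)]
          linarith
        linarith
      calc (((Icc 1 M).filter (Cov k)).card : ℝ)
          ≤ C' * (N / k + √N) + C * (N / k + √N) + 1 := by linarith
        _ ≤ (C' + C + 1) * (N / k + √N) := by
            have : (C' + C + 1) * ((N : ℝ) / k + √N) =
              C' * (N / k + √N) + C * (N / k + √N) + (N / k + √N) := by ring
            linarith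
        _ ≤ (C' + C + 1) * ((M / k + √M) * (3 / 4)) :=
            mul_le_mul_of_nonneg_left h4 (by positivity)
        _ = ((C' + C + 1) * (3 / 4)) * (M / k + √M) := by ring
        _ ≤ C' * (M / k + √M) := by
            refine mul_le_mul_of_nonneg_right ?_ (by positivity)
            rw [hC']
            linarith

end Pool.Agent.K9h59.VS
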