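import Pool.Agent.K9h59.VS.Stm

/-!
# Leaf SQM
-/

set_option autoImplicit false

namespace Pool.Agent.K9h59.VS

open Finset

theorem sqm_esymm {ι : Type*} [DecidableEq ι] (x : ι → ℝ) (hx : ∀ i, 0 ≤ x i) (A : Finset ι) :
    ∀ m : ℕ, ∑ S ∈ powersetCard m A, ∏ i ∈ S, x i ≤ (∑ i ∈ A, x i) ^ m := by
  induction A using Finset.induction_on with
  | empty =>
    intro m
    rcases m with _ | m
    · simp
    · have he : powersetCard (m + 1) (∅ : Finset ι) = ∅ := powersetCard_eq_empty.2 (by simp)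
      rw [he]
      simp
  | insert a A ha ih =>
    intro m
    rcases m with _ | m
    · simp
    · rw [powersetCard_succ_insert ha, sum_union, sum_insert ha]
      · have h1 : ∑ S ∈ (powersetCard m A).image (insert a), ∏ i ∈ S, x i
            = x a * ∑ S ∈ powersetCard m A, ∏ i ∈ S, x i := by
          rw [sum_image, mul_sum]
          · apply sum_congr rfl
            intro S hS
            rw [mem_powersetCard] at hS
            rw [prod_insert (fun h => ha (hS.1 h))]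
          · intro S hS S' hS' h
            rw [mem_coe, mem_powersetCard] at hS hS'
            have h2 : a ∉ S := fun h => ha (hS.1 h)
            have h3 : a ∉ S' := fun h => ha (hS'.1 h)
            have h' : insert a S = insert a S' := h
            rw [← erase_insert h2, ← erase_insert h3, h']
        rw [h1]
        have h2 := ih (m + 1)
        have h3 := ih m
        have hs : 0 ≤ ∑ i ∈ A, x i := sum_nonneg fun i _ => hx i
        have h4 : x a * ∑ S ∈ powersetCard m A, ∏ i ∈ S, x i ≤ x a * (∑ i ∈ A, x i) ^ m :=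
          mul_le_mul_of_nonneg_left h3 (hx a)
        have h5 : (∑ i ∈ A, x i) ^ m ≤ (x a + ∑ i ∈ A, x i) ^ m :=
          pow_le_pow_left₀ hs (by linarith [hx a]) m
        calc _ ≤ (∑ i ∈ A, x i) ^ (m + 1) + x a * (∑ i ∈ A, x i) ^ m := add_le_add h2 h4
          _ = (x a + ∑ i ∈ A, x i) * (∑ i ∈ A, x i) ^ m := by ring
          _ ≤ (x a + ∑ i ∈ A, x i) * (x a + ∑ i ∈ A, x i) ^ m :=
            mul_le_mul_of_nonneg_left h5 (by linarith [hx a])
          _ = _ := by ring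
      · rw [disjoint_left]
        intro S hS hS'
        rw [mem_powersetCard] at hS
        rw [mem_image] at hS'
        obtain ⟨S', -, rfl⟩ := hS'
        exact ha (hS.1 (mem_insert_self a S'))

/-- residue class in an interval -/
theorem sqm_class (N q v : ℕ) (hq : 0 < q) :
    (((Ioc N (2 * N)).filter (fun n => n ≡ v [MOD q])).card : ℝ) ≤ N / q + 1 := by
  have h := Nat.Ioc_filter_modEq_card N (2 * N) hq v
  have h1 : ((((Ioc N (2 * N)).filter (fun n => n ≡ v [MOD q])).card : ℤ) : ℝ) ≤ N / q + 1 := by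
    rw [h]
    have hq' : (0 : ℚ) < q := by exact_mod_cast hq
    have h2 := Int.floor_le ((((2 * N : ℕ) : ℚ) - v) / q)
    have h3 := Int.lt_floor_add_one (((N : ℚ) - v) / q)
    have h4 : ((⌊(((2 * N : ℕ) : ℚ) - v) / q⌋ - ⌊((N : ℚ) - v) / q⌋ : ℤ) : ℚ) ≤ N / q + 1 := by
      push_cast at h2 ⊢
      have e : (2 * (N : ℚ) - v) / q = ((N : ℚ) - v) / q + N / q := by
        field_simp; ring
      rw [e] at h2 ⊢
      linarith
    have h5 : ((⌊(((2 * N : ℕ) : ℚ) - v) / q⌋ - ⌊((N : ℚ) - v) / q⌋ : ℤ) : ℝ) ≤ N / q + 1 := by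
      generalize (⌊(((2 * N : ℕ) : ℚ) - v) / q⌋ - ⌊((N : ℚ) - v) / q⌋ : ℤ) = k at h4
      have h6 : ((k : ℚ) : ℝ) ≤ (((N : ℚ) / q + 1 : ℚ) : ℝ) := by exact_mod_cast h4
      push_cast at h6
      exact h6
    rw [Int.cast_max, max_le_iff]
    refine ⟨h5, ?_⟩
    rw [Int.cast_zero]
    positivity
  exact_mod_cast h1

theorem sqm_one (L z N : ℕ) (hL : 1 ≤ L) (S : Finset (ℕ × ℕ))
    (hS : S ⊆ (Ioc L (2 * L)) ×ˢ ((Ioc (2 * L) z).filter Nat.Prime)) :
    (((Ioc N (2 * N)).filter (fun n => ∀ r ∈ S, r.2 ^ 2 ∣ n + r.1)).card : ℝ) ≤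
      N * ∏ r ∈ S, (1 / (r.2 : ℝ) ^ 2) + 1 := by
  have hpr : ∀ r ∈ S, L < r.1 ∧ r.1 ≤ 2 * L ∧ 2 * L < r.2 ∧ r.2.Prime := by
    intro r hr
    have h := hS hr
    rw [mem_product, mem_filter, mem_Ioc, mem_Ioc] at h
    exact ⟨h.1.1, h.1.2, h.2.1.1, h.2.2⟩
  have hprod : 0 ≤ ∏ r ∈ S, (1 / (r.2 : ℝ) ^ 2) := prod_nonneg fun r _ => by positivity
  rcases ((Ioc N (2 * N)).filter (fun n => ∀ r ∈ S, r.2 ^ 2 ∣ n + r.1)).eq_empty_or_nonempty
    with he | ⟨n₀, hn₀⟩
  · rw [he, card_empty, Nat.cast_zero]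
    positivity
  · rw [mem_filter] at hn₀
    have hdist : ∀ r ∈ S, ∀ r' ∈ S, r ≠ r' → r.2 ≠ r'.2 := by
      intro r hr r' hr' hne heq
      apply hne
      have h1 := hn₀.2 r hr
      have h2 := hn₀.2 r' hr'
      rw [← heq] at h2
      have h3 : r.1 = r'.1 := by
        have hd : (r.2 : ℤ) ∣ (r.1 : ℤ) - r'.1 := by
          have h4 : (r.2 : ℤ) ∣ (n₀ : ℤ) + r.1 := by
            have := (dvd_pow_self r.2 two_ne_zero).trans h1
            exact_mod_cast this
          have h5 : (r.2 : ℤ) ∣ (n₀ : ℤ) + r'.1 := by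
            have := (dvd_pow_self r.2 two_ne_zero).trans h2
            exact_mod_cast this
          have h6 := dvd_sub h4 h5
          have e : (n₀ : ℤ) + r.1 - (n₀ + r'.1) = (r.1 : ℤ) - r'.1 := by ring
          rwa [e] at h6
        have hb := hpr r hr
        have hb' := hpr r' hr'
        have h7 : |(r.1 : ℤ) - r'.1| < r.2 := by
          rw [abs_lt]
          constructor <;> omega
        have h8 := Int.eq_zero_of_abs_lt_dvd hd h7
        omega
      exact Prod.ext h3 heq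
    obtain ⟨q, hq⟩ : ∃ q : ℕ, q = ∏ r ∈ S, r.2 ^ 2 := ⟨_, rfl⟩
    have hq0 : 0 < q := by
      rw [hq]
      exact prod_pos fun r hr => pow_pos (hpr r hr).2.2.2.pos 2
    have hsub : (Ioc N (2 * N)).filter (fun n => ∀ r ∈ S, r.2 ^ 2 ∣ n + r.1) ⊆
        (Ioc N (2 * N)).filter (fun n => n ≡ n₀ [MOD q]) := by
      intro n hn
      rw [mem_filter] at hn ⊢
      refine ⟨hn.1, ?_⟩
      apply Nat.ModEq.symm
      rw [Nat.modEq_iff_dvd, hq]
      push_cast
      apply prod_dvd_of_coprime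
      · intro r hr r' hr' hne
        have h1 : Nat.Coprime (r.2 ^ 2) (r'.2 ^ 2) :=
          Nat.Coprime.pow 2 2 ((Nat.coprime_primes (hpr r hr).2.2.2 (hpr r' hr').2.2.2).2
            (hdist r hr r' hr' hne))
        have h2 := Nat.isCoprime_iff_coprime.2 h1
        simpa using h2
      · intro r hr
        have h4 : ((r.2 : ℤ)) ^ 2 ∣ (n : ℤ) + r.1 := by
          have := hn.2 r hr
          exact_mod_cast this
        have h5 : ((r.2 : ℤ)) ^ 2 ∣ (n₀ : ℤ) + r.1 := by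
          have := hn₀.2 r hr
          exact_mod_cast this
        have h6 := dvd_sub h4 h5
        have e : (n : ℤ) + r.1 - (n₀ + r.1) = (n : ℤ) - n₀ := by ring
        rwa [e] at h6
    have h1 : (((Ioc N (2 * N)).filter (fun n => ∀ r ∈ S, r.2 ^ 2 ∣ n + r.1)).card : ℝ) ≤
        ((Ioc N (2 * N)).filter (fun n => n ≡ n₀ [MOD q])).card := by
      exact_mod_cast card_le_card hsub
    refine h1.trans ((sqm_class N q n₀ hq0).trans (le_of_eq ?_))
    rw [hq]
    push_cast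
    rw [div_eq_mul_inv, ← prod_inv_distrib]
    simp only [one_div]

/-- LEAF SQM -/
theorem sqm : S_SQM := by
  intro m L z N T hm hL
  obtain ⟨A, hA⟩ : ∃ A : Finset (ℕ × ℕ), A = (Ioc L (2 * L)) ×ˢ ((Ioc (2 * L) z).filter Nat.Prime) :=
    ⟨_, rfl⟩
  rw [← hA]
  have hpr : ∀ r ∈ A, L < r.1 ∧ r.1 ≤ 2 * L ∧ 2 * L < r.2 ∧ r.2 ≤ z ∧ r.2.Prime := by
    intro r hr
    rw [hA, mem_product, mem_filter, mem_Ioc, mem_Ioc] at hr
    exact ⟨hr.1.1, hr.1.2, hr.2.1.1, hr.2.1.2, hr.2.2⟩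
  -- counting
  have h1 : ((Ioc N (2 * N)).filter (fun n => T ≤ (A.filter
      (fun r : ℕ × ℕ => r.2 ^ 2 ∣ n + r.1)).card)).card * T.choose m ≤
      ∑ S ∈ powersetCard m A, ((Ioc N (2 * N)).filter (fun n => ∀ r ∈ S, r.2 ^ 2 ∣ n + r.1)).card := by
    calc _ = ∑ n ∈ (Ioc N (2 * N)).filter (fun n => T ≤ (A.filter
          (fun r : ℕ × ℕ => r.2 ^ 2 ∣ n + r.1)).card), T.choose m := by
          rw [sum_const, smul_eq_mul]
      _ ≤ ∑ n ∈ (Ioc N (2 * N)).filter (fun n => T ≤ (A.filter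
          (fun r : ℕ × ℕ => r.2 ^ 2 ∣ n + r.1)).card),
          (powersetCard m (A.filter (fun r : ℕ × ℕ => r.2 ^ 2 ∣ n + r.1))).card := by
          apply sum_le_sum
          intro n hn
          rw [card_powersetCard]
          exact Nat.choose_le_choose m (mem_filter.1 hn).2
      _ ≤ ∑ n ∈ Ioc N (2 * N),
          (powersetCard m (A.filter (fun r : ℕ × ℕ => r.2 ^ 2 ∣ n + r.1))).card :=
          sum_le_sum_of_subset (filter_subset _ _)
      _ = ∑ n ∈ Ioc N (2 * N), ((powersetCard m A).filter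
          (fun S => ∀ r ∈ S, r.2 ^ 2 ∣ n + r.1)).card := by
          apply sum_congr rfl
          intro n _
          congr 1
          ext S
          rw [mem_powersetCard, mem_filter, mem_powersetCard]
          constructor
          · rintro ⟨h8, h9⟩
            exact ⟨⟨h8.trans (filter_subset _ _), h9⟩, fun r hr => (mem_filter.1 (h8 hr)).2⟩
          · rintro ⟨⟨h8, h9⟩, h10⟩
            exact ⟨fun r hr => mem_filter.2 ⟨h8 hr, h10 r hr⟩, h9⟩
      _ = _ := by
          simp only [card_filter]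
          rw [sum_comm]
  -- the bound for each set
  have h2 : ((∑ S ∈ powersetCard m A,
      ((Ioc N (2 * N)).filter (fun n => ∀ r ∈ S, r.2 ^ 2 ∣ n + r.1)).card : ℕ) : ℝ) ≤
      N * ∑ S ∈ powersetCard m A, ∏ r ∈ S, (1 / (r.2 : ℝ) ^ 2) + (A.card.choose m : ℝ) := by
    rw [Nat.cast_sum]
    refine (sum_le_sum fun S hS => sqm_one L z N hL S (by
      rw [mem_powersetCard] at hS
      rw [← hA]; exact hS.1)).trans (le_of_eq ?_)
    rw [sum_add_distrib, ← mul_sum, sum_const, card_powersetCard, nsmul_eq_mul, mul_one]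
  have h3 : ∑ r ∈ A, (1 / (r.2 : ℝ) ^ 2) ≤ 1 := by
    rw [hA, sum_product]
    change ∑ _x ∈ Ioc L (2 * L), ∑ y ∈ (Ioc (2 * L) z).filter Nat.Prime, (1 / (y : ℝ) ^ 2) ≤ 1
    rw [sum_const, Nat.card_Ioc, nsmul_eq_mul]
    have e : ((2 * L - L : ℕ) : ℝ) = L := by
      have : 2 * L - L = L := by omega
      rw [this]
    rw [e]
    have hL0 : (0 : ℝ) < L := by exact_mod_cast hL
    have h4 : ∑ p ∈ (Ioc (2 * L) z).filter Nat.Prime, (1 / (p : ℝ) ^ 2) ≤
        ∑ p ∈ Ioc (2 * L) z, (1 / (p : ℝ) ^ 2) :=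
      sum_le_sum_of_subset_of_nonneg (filter_subset _ _) fun p _ _ => by positivity
    have h5 : ∑ p ∈ Ioc (2 * L) z, (1 / (p : ℝ) ^ 2) ≤ 1 / (2 * (L : ℝ)) := by
      rcases le_or_gt (2 * L) z with hz | hz
      · have h6 := sum_Ioc_inv_sq_le_sub (α := ℝ) (k := 2 * L) (n := z) (by omega) hz
        simp only [one_div]
        push_cast at h6
        have h7 : (0 : ℝ) ≤ ((z : ℝ))⁻¹ := by positivity
        linarith
      · rw [Ioc_eq_empty_of_le hz.le, sum_empty]
        positivity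
    calc (L : ℝ) * ∑ p ∈ (Ioc (2 * L) z).filter Nat.Prime, (1 / (p : ℝ) ^ 2)
        ≤ L * (1 / (2 * (L : ℝ))) := mul_le_mul_of_nonneg_left (h4.trans h5) hL0.le
      _ ≤ 1 := by
        rw [mul_one_div, div_le_one (by positivity)]
        linarith
  have h4 : ∑ S ∈ powersetCard m A, ∏ r ∈ S, (1 / (r.2 : ℝ) ^ 2) ≤ 1 := by
    refine (sqm_esymm (fun r : ℕ × ℕ => 1 / (r.2 : ℝ) ^ 2) (fun r => by positivity) A m).trans ?_
    exact pow_le_one₀ (sum_nonneg fun r _ => by positivity) h3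
  have h5 : A.card.choose m ≤ (L * z) ^ m := by
    refine (Nat.choose_le_pow _ _).trans (Nat.pow_le_pow_left ?_ m)
    rw [hA, card_product, Nat.card_Ioc]
    have e : 2 * L - L = L := by omega
    rw [e]
    apply Nat.mul_le_mul_left
    refine (card_filter_le _ _).trans ?_
    rw [Nat.card_Ioc]
    omega
  have h6 : ((((Ioc N (2 * N)).filter (fun n => T ≤ (A.filter
      (fun r : ℕ × ℕ => r.2 ^ 2 ∣ n + r.1)).card)).card * T.choose m : ℕ) : ℝ) ≤
      ((N + (L * z) ^ m : ℕ) : ℝ) := by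
    have h7 : ((((Ioc N (2 * N)).filter (fun n => T ≤ (A.filter
      (fun r : ℕ × ℕ => r.2 ^ 2 ∣ n + r.1)).card)).card * T.choose m : ℕ) : ℝ) ≤ _ :=
      (Nat.cast_le.2 h1).trans h2
    refine h7.trans ?_
    rw [Nat.cast_add]
    apply add_le_add
    · calc (N : ℝ) * _ ≤ N * 1 := mul_le_mul_of_nonneg_left h4 (Nat.cast_nonneg N)
        _ = N := mul_one _
    · exact_mod_cast h5
  exact_mod_cast h6

end Pool.Agent.K9h59.VS
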