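import Mathlib

/-!
Leaves (Mathlib only).

PART (file Pool/Agent/K9h59/VS/Part.lean, theorem `part : S_PART`).
Random colourings. Average over all `χ : P → Fin m` (extend by a fixed colour outside `P`; `m ≥ 1`).
For fixed `n ∈ Q` and `c`: the sum over `χ` of `exp (-∑ p ∈ P, if χ p = c then a n p else 0)` is
`∏ p ∈ P, (m - 1 + exp (-a n p))` (Finset.prod_univ_sum / Fintype.piFinset), and
`m - 1 + exp (-a) ≤ m (1 - a / (2m)) ≤ m exp (-a / (2m))` for `0 ≤ a ≤ 1`
(`exp (-a) ≤ 1 / (1 + a) ≤ 1 - a / 2`). So the sum is `≤ m ^ |P| exp (-T / (2m))`. If `χ` is bad for `(n, c)`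
(that is, `∑ p ∈ P.filter (χ p = c), a n p < T / (4m)`), its term is `≥ exp (-T / (4m))`; hence at most
`m ^ |P| exp (-T / (4m))` colourings are bad for `(n, c)`, and fewer than `m ^ |P|` are bad for some `(n, c)`.

SQM (file Pool/Agent/K9h59/VS/Sqm.lean, theorem `sqm : S_SQM`).
`J n` = set of the pairs `(k, p)`, `L < k ≤ 2L`, `p` prime, `2L < p ≤ z`, `p ^ 2 ∣ n + k`. If `T ≤ |J n|` then
`C(T, m) ≤ |powersetCard m (J n)|`. So the left side is at most the number of pairs `(n, S)` with `S` an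
`m`-subset of all pairs and `S ⊆ J n`. For given `S` with some such `n`: two different pairs of `S` have different
primes (the same prime `p > 2L` would divide `k - k'`, so `k = k'`), and all such `n` are congruent modulo the
product `q` of the `p ^ 2`, so there are at most `N / q + 1` of them in `(N, 2N]`. The sum over `S` of
`∏ 1 / p ^ 2` is at most `(∑ over all pairs of 1 / p ^ 2) ^ m ≤ (L * (1 / (2L))) ^ m ≤ 1` (induction on the set for
the elementary symmetric polynomial, and `sum_Ioc_inv_sq_le_sub`); the number of `S` is at most `(L z) ^ m`.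
-/

set_option autoImplicit false

namespace Pool.Agent.K9h59.VS

open Finset

/-- random colourings -/
def S_PART : Prop :=
  ∀ (m : ℕ), 1 ≤ m → ∀ (P Q : Finset ℕ) (a : ℕ → ℕ → ℝ) (T : ℝ),
    (∀ n ∈ Q, ∀ p ∈ P, 0 ≤ a n p ∧ a n p ≤ 1) → (∀ n ∈ Q, T ≤ ∑ p ∈ P, a n p) →
    (Q.card : ℝ) * m < Real.exp (T / (4 * m)) →
    ∃ χ : ℕ → Fin m, ∀ n ∈ Q, ∀ c : Fin m, T / (4 * m) ≤ ∑ p ∈ P.filter (fun p => χ p = c), a n p

/-- moments of the number of squares of primes -/
def S_SQM : Prop :=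
  ∀ m L z N T : ℕ, 1 ≤ m → 1 ≤ L →
    ((Ioc N (2 * N)).filter (fun n => T ≤ (((Ioc L (2 * L)) ×ˢ ((Ioc (2 * L) z).filter Nat.Prime)).filter
      (fun r : ℕ × ℕ => r.2 ^ 2 ∣ n + r.1)).card)).card * T.choose m ≤ N + (L * z) ^ m

end Pool.Agent.K9h59.VS
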