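import Pool.Agent.K9h59.VS.Stm
import Pool.Agent.K9h59.VS.Mu
import Pool.Agent.K9h59.VS.M

/-!
Smooth runs, with a saving of any power of their length.
-/

set_option autoImplicit false

namespace Pool.Agent.K9h59.VS

open Finset Filter Topology

/-- the pairs `(k, p)` with `p ^ 2 ∣ n + k` -/
def ZZ (L z n : ℕ) : Finset (ℕ × ℕ) :=
  ((Ioc L (2 * L)) ×ˢ ((Ioc (2 * L) z).filter Nat.Prime)).filter (fun r : ℕ × ℕ => r.2 ^ 2 ∣ n + r.1)

open Classical in
lemma sq_card_le (L y n : ℕ) (hrun : Run L y n) :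
    ((Ioc L (2 * L)).filter (fun k => Sq (2 * L) (n + k))).card ≤ (ZZ L y n).card := by
  have h : (Ioc L (2 * L)).filter (fun k => Sq (2 * L) (n + k)) ⊆ (ZZ L y n).image Prod.fst := by
    intro k hk
    rw [mem_filter, mem_Ioc] at hk
    obtain ⟨hk1, p, hp, hpL, hpd⟩ := hk
    rw [mem_image]
    refine ⟨(k, p), ?_, rfl⟩
    unfold ZZ
    rw [mem_filter, mem_product, mem_filter, mem_Ioc, mem_Ioc]
    exact ⟨⟨hk1, ⟨hpL, hrun k hk1.1 hk1.2 p hp ((dvd_pow_self p two_ne_zero).trans hpd)⟩, hp⟩, hpd⟩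
  exact (card_le_card h).trans card_image_le

open Classical in
/-- **Few integers are followed by a smooth run.** -/
theorem run_block_pow (hpart : S_PART) (hsq : S_SQM) (m : ℕ) (hm : 1 ≤ m) :
    ∃ (C : ℝ) (N₀ : ℕ), 0 < C ∧ ∀ L N y : ℕ, N₀ ≤ N → 2 * Real.log N ≤ L → 2 * L ≤ y →
      y ^ (8 * m) ≤ N →
      (((Ioc N (2 * N)).filter (Run L y)).card : ℝ) ≤ C * (N / (L : ℝ) ^ m) := by
  obtain ⟨C₁, hC₁⟩ := Pool.Agent.Helper601.Mertens.mertens_log
  have hC₁0 : 0 ≤ C₁ := (abs_nonneg _).trans (hC₁ 1 le_rfl)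
  have hm0 : (0 : ℝ) < m := by exact_mod_cast hm
  have hm1 : (1 : ℝ) ≤ m := by exact_mod_cast hm
  -- the number of primes is small
  have hpi : ∀ᶠ L : ℕ in atTop, ((SP (2 * L)).card : ℝ) ≤ L / 16 := by
    have ht : Tendsto (fun L : ℕ => 2 * L) atTop atTop :=
      tendsto_atTop_mono (fun L => by simp only [id]; omega) tendsto_id
    have h1 : ∀ᶠ L : ℕ in atTop, 96 ≤ Real.log ((2 * L : ℕ) : ℝ) :=
      (logN_atTop.comp ht).eventually_ge_atTop 96
    filter_upwards [ht.eventually SP_le, h1, eventually_ge_atTop 1] with L h2 h3 h4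
    refine h2.trans ?_
    rw [div_le_div_iff₀ (by linarith) (by norm_num)]
    push_cast at h3 ⊢
    have hL0 : (0 : ℝ) ≤ L := by positivity
    nlinarith
  obtain ⟨L₀, hL₀⟩ := eventually_atTop.1 hpi
  have hlN : ∀ᶠ N : ℕ in atTop, (L₀ : ℝ) + 64 * m * (C₁ + 1) + 64 * m + Real.log m + 100 ≤ Real.log N :=
    logN_atTop.eventually_ge_atTop _
  obtain ⟨N₀, hN₀⟩ := eventually_atTop.1 (hlN.and (eventually_ge_atTop 9))
  refine ⟨18 * (64 * m) ^ (2 * m) + 2 * (m.factorial * 32 ^ m), N₀, by positivity,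
    fun L N y hNN hL2 h2Ly hyN => ?_⟩
  obtain ⟨hlogN, hN9⟩ := hN₀ N hNN
  have hlogm : 0 ≤ Real.log m := Real.log_nonneg hm1
  have hL₀0 : (0 : ℝ) ≤ L₀ := by positivity
  have hmC : 0 ≤ 64 * (m : ℝ) * (C₁ + 1) := by positivity
  have hlog100 : 100 ≤ Real.log N := by linarith
  have hlog0 : 0 < Real.log N := by linarith
  have hN0 : (0 : ℝ) < N := by exact_mod_cast (by omega : 0 < N)
  have hLR : (200 : ℝ) ≤ L := by linarith
  have hL0 : (0 : ℝ) < L := by linarith
  have hL1 : 1 ≤ L := by exact_mod_cast (by linarith : (1 : ℝ) ≤ L)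
  have hLm : (128 * m : ℝ) ≤ L := by linarith
  have hpiL : ((SP (2 * L)).card : ℝ) ≤ L / 16 := hL₀ L (by
    have : (L₀ : ℝ) ≤ L := by linarith
    exact_mod_cast this)
  have hy1 : 1 ≤ y := by omega
  have hyR : (0 : ℝ) < y := by exact_mod_cast hy1
  have hy4 : (2 : ℝ) ≤ y := by exact_mod_cast (by omega : 2 ≤ y)
  have hlogy0 : 0 < Real.log y := Real.log_pos (by linarith)
  have hlogyN : 8 * m * Real.log y ≤ Real.log N := by
    have h1 : ((y ^ (8 * m) : ℕ) : ℝ) ≤ N := by exact_mod_cast hyN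
    have h2 := Real.log_le_log (by positivity) h1
    push_cast at h2
    rw [Real.log_pow] at h2
    push_cast at h2
    linarith
  have hlogy8 : Real.log y ≤ Real.log N / (8 * m) := by
    rw [le_div_iff₀ (by positivity)]
    linarith
  have hlogy8' : 8 * Real.log y ≤ Real.log N := by nlinarith
  have hlogL : Real.log L ≤ Real.log y := by
    apply Real.log_le_log hL0
    exact_mod_cast (by omega : L ≤ y)
  have hlog4 : Real.log (4 * N) ≤ Real.log N + 2 := by
    rw [Real.log_mul (by norm_num) hN0.ne']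
    have h9 : Real.log 4 = 2 * Real.log 2 := by
      rw [show (4 : ℝ) = 2 ^ 2 by norm_num, Real.log_pow]; norm_num
    have := Real.log_two_lt_d9
    linarith
  have hlog40 : 0 < Real.log (4 * N) := Real.log_pos (by
    have : (9 : ℝ) ≤ N := by exact_mod_cast hN9
    linarith)
  have hyN1 : y ≤ N := by
    calc y = y ^ 1 := (pow_one y).symm
      _ ≤ y ^ (8 * m) := Nat.pow_le_pow_right hy1 (by omega)
      _ ≤ N := hyN
  have hLN : L ≤ N := by omega
  set P := (Ioc (2 * L) y).filter Nat.Prime with hP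
  have hPm : ∀ p ∈ P, p.Prime ∧ 2 * L < p ∧ p ≤ y := by
    intro p hp
    rw [hP, mem_filter, mem_Ioc] at hp
    exact ⟨hp.2, hp.1.1, hp.1.2⟩
  have hmeanS : ∀ Q : Finset ℕ, Q ⊆ P → ∑ p ∈ Q, Real.log p / p ≤ Real.log y + C₁ := by
    intro Q hQ
    have h7 := abs_le.1 (hC₁ y hy1)
    have h8 : ∑ p ∈ Q, Real.log p / p ≤ ∑ p ∈ (Icc 1 y).filter Nat.Prime, Real.log p / p := by
      refine sum_le_sum_of_subset_of_nonneg ?_
        (fun p _ _ => div_nonneg (Real.log_natCast_nonneg p) (by positivity))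
      intro p hp
      have := hPm p (hQ hp)
      rw [mem_filter, mem_Icc]
      exact ⟨⟨this.1.one_lt.le, this.2.2⟩, this.1⟩
    linarith [h7.2]
  have hvarS : ∀ Q : Finset ℕ, Q ⊆ P → ∑ p ∈ Q, Real.log p ^ 2 / p ≤ Real.log N ^ 2 := by
    intro Q hQ
    calc ∑ p ∈ Q, Real.log p ^ 2 / p ≤ ∑ p ∈ Q, Real.log y * (Real.log p / p) := by
          refine sum_le_sum fun p hp => ?_
          have hp1 := hPm p (hQ hp)
          have hp0 : (0 : ℝ) < p := by exact_mod_cast hp1.1.pos
          have e1 : Real.log p ≤ Real.log y := Real.log_le_log hp0 (by exact_mod_cast hp1.2.2)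
          have e2 : 0 ≤ Real.log p := Real.log_natCast_nonneg p
          rw [mul_div_assoc']
          apply div_le_div_of_nonneg_right _ hp0.le
          nlinarith
      _ = Real.log y * ∑ p ∈ Q, Real.log p / p := by rw [mul_sum]
      _ ≤ Real.log y * (Real.log y + C₁) := mul_le_mul_of_nonneg_left (hmeanS Q hQ) hlogy0.le
      _ ≤ Real.log N * Real.log N := by
          apply mul_le_mul (by linarith) _ (by linarith) hlog0.le
          have : 64 * C₁ ≤ 64 * (m : ℝ) * (C₁ + 1) := by nlinarith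
          linarith
      _ = _ := by ring
  set T₀ : ℕ := ⌈(L : ℝ) / 16⌉₊ with hT₀
  set E1 := (Ioc N (2 * N)).filter (fun n => Run L y n ∧ (ZZ L y n).card < T₀) with hE1
  set E2 := (Ioc N (2 * N)).filter (fun n => T₀ ≤ (ZZ L y n).card) with hE2
  have hcup : (Ioc N (2 * N)).filter (Run L y) ⊆ E1 ∪ E2 := by
    intro n hn
    rw [mem_filter] at hn
    rw [mem_union, hE1, hE2, mem_filter, mem_filter]
    rcases Nat.lt_or_ge (ZZ L y n).card T₀ with h | h
    · exact Or.inl ⟨hn.1, hn.2, h⟩
    · exact Or.inr ⟨hn.1, h⟩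
  have hcard : (((Ioc N (2 * N)).filter (Run L y)).card : ℝ) ≤ E1.card + E2.card := by
    have := (card_le_card hcup).trans (card_union_le E1 E2)
    exact_mod_cast this
  -- the squares
  have hE2le : (E2.card : ℝ) ≤ 2 * (m.factorial * 32 ^ m) * (N / (L : ℝ) ^ m) := by
    have h1 : E2.card * T₀.choose m ≤ N + (L * y) ^ m := hsq m L y N T₀ hm hL1
    have h2 : (L * y) ^ m ≤ N := by
      calc (L * y) ^ m ≤ (y * y) ^ m := Nat.pow_le_pow_left (Nat.mul_le_mul_right _ (by omega)) m
        _ = y ^ (2 * m) := by rw [← pow_two, ← pow_mul]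
        _ ≤ y ^ (8 * m) := Nat.pow_le_pow_right hy1 (by omega)
        _ ≤ N := hyN
    have h3 : (E2.card : ℝ) * (T₀.choose m : ℝ) ≤ 2 * N := by
      have : E2.card * T₀.choose m ≤ 2 * N := by omega
      exact_mod_cast this
    have hT1 : (L : ℝ) / 16 ≤ T₀ := Nat.le_ceil _
    have h4 : ((L : ℝ) / 32) ^ m ≤ m.factorial * (T₀.choose m : ℝ) := by
      have e1 : (((T₀ + 1 - m : ℕ) ^ m : ℕ) : ℝ) ≤ ((m.factorial * T₀.choose m : ℕ) : ℝ) := by
        exact_mod_cast Nat.pow_sub_le_descFactorial T₀ m |>.trans_eq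
          (Nat.descFactorial_eq_factorial_mul_choose T₀ m)
      push_cast at e1
      refine le_trans (pow_le_pow_left₀ (by positivity) ?_ m) e1
      have hmT : m ≤ T₀ + 1 := by
        have : (m : ℝ) ≤ (T₀ : ℝ) + 1 := by linarith
        exact_mod_cast this
      rw [Nat.cast_sub hmT]
      push_cast
      linarith
    have h5 : (E2.card : ℝ) * ((L : ℝ) / 32) ^ m ≤ 2 * (m.factorial : ℝ) * N := by
      calc (E2.card : ℝ) * ((L : ℝ) / 32) ^ m ≤ (E2.card : ℝ) * (m.factorial * (T₀.choose m : ℝ)) :=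
            mul_le_mul_of_nonneg_left h4 (by positivity)
        _ = m.factorial * ((E2.card : ℝ) * (T₀.choose m : ℝ)) := by ring
        _ ≤ m.factorial * (2 * N) := mul_le_mul_of_nonneg_left h3 (by positivity)
        _ = _ := by ring
    rw [mul_div_assoc', le_div_iff₀ (by positivity)]
    calc (E2.card : ℝ) * (L : ℝ) ^ m = (E2.card : ℝ) * ((L : ℝ) / 32) ^ m * 32 ^ m := by
          rw [div_pow]
          field_simp
      _ ≤ 2 * (m.factorial : ℝ) * N * 32 ^ m := mul_le_mul_of_nonneg_right h5 (by positivity)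
      _ = _ := by ring
  -- the main part
  have hIc : ((Ioc L (2 * L)).card : ℝ) = L := by
    rw [Nat.card_Ioc]
    have : 2 * L - L = L := by omega
    rw [this]
  set a : ℕ → ℕ → ℝ := fun n p =>
    (∑ k ∈ Ioc L (2 * L), if p ∣ n + k then Real.log p else 0) / Real.log y with ha
  set T : ℝ := 5 / 8 * L * Real.log N / Real.log y with hT
  have ha01 : ∀ n ∈ E1, ∀ p ∈ P, 0 ≤ a n p ∧ a n p ≤ 1 := by
    intro n _ p hp
    have hpp := hPm p hp
    have hlp : 0 ≤ Real.log p := Real.log_natCast_nonneg p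
    have hlpy : Real.log p ≤ Real.log y :=
      Real.log_le_log (by exact_mod_cast hpp.1.pos) (by exact_mod_cast hpp.2.2)
    constructor
    · refine div_nonneg (sum_nonneg fun k _ => ?_) hlogy0.le
      split_ifs
      · exact hlp
      · exact le_rfl
    · rw [ha]
      simp only
      rw [div_le_one hlogy0]
      by_cases hex : ∃ k ∈ Ioc L (2 * L), p ∣ n + k
      · obtain ⟨k, hk, hkd⟩ := hex
        rw [sum_eq_single k]
        · rw [if_pos hkd]
          exact hlpy
        · intro k' hk' hne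
          rw [if_neg]
          intro hkd'
          rw [mem_Ioc] at hk hk'
          apply hne
          rcases Nat.lt_or_ge k k' with h | h
          · have h2 : p ∣ (n + k') - (n + k) := Nat.dvd_sub hkd' hkd
            have h3 := Nat.le_of_dvd (by omega) h2
            omega
          · have h2 : p ∣ (n + k) - (n + k') := Nat.dvd_sub hkd hkd'
            by_contra hne'
            have h3 := Nat.le_of_dvd (by omega) h2
            omega
        · intro h
          exact absurd hk h
      · push Not at hex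
        rw [sum_eq_zero fun k hk => if_neg (hex k hk)]
        exact hlogy0.le
  have haT : ∀ n ∈ E1, T ≤ ∑ p ∈ P, a n p := by
    intro n hn
    rw [hE1, mem_filter, mem_Ioc] at hn
    obtain ⟨hnN, hrun, hz⟩ := hn
    have h1 : ∑ k ∈ Ioc L (2 * L), (Real.log ((n + k : ℕ) : ℝ) - sm (2 * L) (n + k) -
        (if Sq (2 * L) (n + k) then Real.log ((n + k : ℕ) : ℝ) else 0)) ≤
        ∑ k ∈ Ioc L (2 * L), ∑ p ∈ P, if p ∣ n + k then Real.log (p : ℝ) else 0 := by
      refine sum_le_sum fun k hk => ?_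
      rw [mem_Ioc] at hk
      exact pointwise_up (2 * L) y (n + k) (by omega)
        (fun q hq hqd => hrun k hk.1 hk.2 q hq hqd)
    rw [sum_sub_distrib, sum_sub_distrib] at h1
    have h2 : (L : ℝ) * Real.log N ≤ ∑ k ∈ Ioc L (2 * L), Real.log ((n + k : ℕ) : ℝ) := by
      calc (L : ℝ) * Real.log N = ∑ _k ∈ Ioc L (2 * L), Real.log N := by
            rw [sum_const, nsmul_eq_mul, hIc]
        _ ≤ _ := sum_le_sum fun k _ => Real.log_le_log hN0 (by exact_mod_cast (by omega : N ≤ n + k))
    have h3 := sm_sum n L hL1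
    have h4 : Real.log ((n + 2 * L : ℕ) : ℝ) ≤ Real.log (4 * N) := by
      apply Real.log_le_log
      · exact_mod_cast (by omega : 0 < n + 2 * L)
      · exact_mod_cast (by omega : n + 2 * L ≤ 4 * N)
    have h5 : ((SP (2 * L)).card : ℝ) * Real.log ((n + 2 * L : ℕ) : ℝ) ≤ L / 16 * (Real.log N + 2) :=
      mul_le_mul hpiL (h4.trans hlog4) (Real.log_natCast_nonneg _) (by positivity)
    have hsqc : (((Ioc L (2 * L)).filter (fun k => Sq (2 * L) (n + k))).card : ℝ) ≤ L / 16 := by
      have e1 := sq_card_le L y n hrun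
      have e2 : ((ZZ L y n).card : ℝ) < L / 16 := by
        rw [hT₀, Nat.lt_ceil] at hz
        exact hz
      have e3 : (((Ioc L (2 * L)).filter (fun k => Sq (2 * L) (n + k))).card : ℝ) ≤ (ZZ L y n).card := by
        exact_mod_cast e1
      linarith
    have h6 : ∑ k ∈ Ioc L (2 * L), (if Sq (2 * L) (n + k) then Real.log ((n + k : ℕ) : ℝ) else 0) ≤
        L / 16 * (Real.log N + 2) := by
      rw [← sum_filter]
      calc ∑ k ∈ (Ioc L (2 * L)).filter (fun k => Sq (2 * L) (n + k)), Real.log ((n + k : ℕ) : ℝ)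
          ≤ ∑ _k ∈ (Ioc L (2 * L)).filter (fun k => Sq (2 * L) (n + k)), Real.log (4 * N) := by
            refine sum_le_sum fun k hk => ?_
            rw [mem_filter, mem_Ioc] at hk
            apply Real.log_le_log
            · exact_mod_cast (by omega : 0 < n + k)
            · exact_mod_cast (by omega : n + k ≤ 4 * N)
        _ = (((Ioc L (2 * L)).filter (fun k => Sq (2 * L) (n + k))).card : ℝ) * Real.log (4 * N) := by
            rw [sum_const, nsmul_eq_mul]
        _ ≤ _ := mul_le_mul hsqc hlog4 hlog40.le (by positivity)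
    have h7 : (L : ℝ) * Real.log L ≤ L * (Real.log N / 8) :=
      mul_le_mul_of_nonneg_left (by linarith) hL0.le
    have h8 : 5 / 8 * L * Real.log N ≤ ∑ k ∈ Ioc L (2 * L), ∑ p ∈ P, if p ∣ n + k then Real.log (p : ℝ) else 0 := by
      refine le_trans ?_ h1
      have e1 : 5 / 8 * L * Real.log N ≤ L * Real.log N - (L * (Real.log N / 8) + L / 16 * (Real.log N + 2)) -
          L / 16 * (Real.log N + 2) := by nlinarith
      linarith
    rw [hT]
    simp only [ha]
    rw [← sum_div, sum_comm]
    exact div_le_div_of_nonneg_right h8 hlogy0.le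
  have hT4 : 5 / 2 * Real.log N ≤ T / (4 * m) := by
    rw [hT, div_div, le_div_iff₀ (by positivity)]
    have e1 : 5 / 2 * Real.log N * (Real.log y * (4 * m)) = 5 / 4 * Real.log N * (8 * m * Real.log y) := by ring
    rw [e1]
    calc 5 / 4 * Real.log N * (8 * m * Real.log y) ≤ 5 / 4 * Real.log N * Real.log N :=
          mul_le_mul_of_nonneg_left hlogyN (by positivity)
      _ ≤ 5 / 8 * L * Real.log N := by nlinarith
  have hcond : (E1.card : ℝ) * m < Real.exp (T / (4 * m)) := by
    have e1 : (E1.card : ℝ) ≤ N := by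
      have : E1.card ≤ N := by
        refine (card_filter_le _ _).trans ?_
        rw [Nat.card_Ioc]
        omega
      exact_mod_cast this
    calc (E1.card : ℝ) * m ≤ N * m := mul_le_mul_of_nonneg_right e1 hm0.le
      _ = Real.exp (Real.log N + Real.log m) := by rw [Real.exp_add, Real.exp_log hN0, Real.exp_log hm0]
      _ < Real.exp (T / (4 * m)) := Real.exp_lt_exp.2 (by linarith)
  obtain ⟨χ, hχ⟩ := hpart m hm P E1 a T ha01 haT hcond
  have hE1le : (E1.card : ℝ) ≤ 18 * (64 * m) ^ (2 * m) * (N / (L : ℝ) ^ m) := by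
    set Q : Fin m → Finset ℕ := fun c => P.filter (fun p => χ p = c) with hQ
    have hQP : ∀ c, Q c ⊆ P := fun c => filter_subset _ _
    have hkey := multi_key (2 * N) y hy1 E1 (Ioc L (2 * L)) (by
        intro n hn
        rw [hE1, mem_filter, mem_Ioc] at hn
        rw [mem_Icc]
        omega) Q (by
        intro c c' hcc
        rw [disjoint_left]
        intro p hp hp'
        simp only [hQ, mem_filter] at hp hp'
        exact hcc (hp.2.symm.trans hp'.2)) (fun p => Real.log p)
        (fun c p hp => ⟨(hPm p (hQP c hp)).1, (hPm p (hQP c hp)).2.2⟩)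
        (by
          intro c p hp k hk k' hk' h
          rw [mem_Ioc] at hk hk'
          have h2 := (hPm p (hQP c hp)).2.1
          have h3 : |(k : ℤ) - k'| < p := by
            rw [abs_lt]
            constructor <;> omega
          have h4 := Int.eq_zero_of_abs_lt_dvd h h3
          omega) (L * Real.log N / (64 * m)) (Real.log N ^ 2) (by positivity)
        (by
          intro n hn c
          have e1 := hχ n hn c
          have e2 : ∑ p ∈ Q c, a n p =
              (∑ k ∈ Ioc L (2 * L), ∑ p ∈ Q c, if p ∣ n + k then Real.log (p : ℝ) else 0) / Real.log y := by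
            simp only [ha]
            rw [← sum_div, sum_comm]
          rw [show (∑ p ∈ P.filter (fun p => χ p = c), a n p) = ∑ p ∈ Q c, a n p from rfl, e2,
            le_div_iff₀ hlogy0] at e1
          have e3 : T / (4 * m) * Real.log y = 5 * (L * Real.log N / (32 * m)) := by
            rw [hT]
            field_simp
            ring
          rw [e3] at e1
          have e4 : (Ioc L (2 * L)).card * ∑ p ∈ Q c, Real.log p / p ≤
              4 * (L * Real.log N / (32 * m)) + L * C₁ := by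
            rw [hIc]
            calc L * ∑ p ∈ Q c, Real.log p / p ≤ L * (Real.log y + C₁) :=
                  mul_le_mul_of_nonneg_left (hmeanS _ (hQP c)) hL0.le
              _ ≤ L * (Real.log N / (8 * m) + C₁) :=
                  mul_le_mul_of_nonneg_left (by linarith) hL0.le
              _ = _ := by
                  field_simp
                  ring
          have e5 : L * C₁ ≤ L * Real.log N / (64 * m) := by
            rw [mul_div_assoc]
            apply mul_le_mul_of_nonneg_left _ hL0.le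
            rw [le_div_iff₀ (by positivity)]
            nlinarith
          have e6 : L * Real.log N / (64 * m) = L * Real.log N / (32 * m) / 2 := by
            field_simp
            norm_num
          have e7 : 0 ≤ L * Real.log N / (32 * m) := by positivity
          linarith)
        (fun c => hvarS _ (hQP c))
    rw [hIc] at hkey
    have hym : (((y ^ m) ^ 2 : ℕ) : ℝ) ≤ N := by
      have : (y ^ m) ^ 2 ≤ N := by
        calc (y ^ m) ^ 2 = y ^ (m * 2) := by rw [← pow_mul]
          _ ≤ y ^ (8 * m) := Nat.pow_le_pow_right hy1 (by omega)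
          _ ≤ N := hyN
      exact_mod_cast this
    have h3 : (E1.card : ℝ) * ((L * Real.log N / (64 * m)) ^ m) ^ 2 ≤ 18 * N * (L * Real.log N ^ 2) ^ m := by
      refine hkey.trans (mul_le_mul_of_nonneg_right ?_ (by positivity))
      push_cast at hym ⊢
      linarith
    have h4 : ((L * Real.log N / (64 * m)) ^ m) ^ 2 =
        (L * Real.log N ^ 2) ^ m * ((L : ℝ) ^ m / (64 * m) ^ (2 * m)) := by
      rw [← pow_mul, mul_comm m 2, pow_mul, div_pow, mul_pow, pow_mul (64 * (m : ℝ)) 2 m]
      rw [← div_pow, ← mul_pow]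
      congr 1
      ring
    rw [h4] at h3
    have h5 : (0 : ℝ) < (L * Real.log N ^ 2) ^ m := by positivity
    have h6 : (E1.card : ℝ) * ((L : ℝ) ^ m / (64 * m) ^ (2 * m)) ≤ 18 * N := by
      refine le_of_mul_le_mul_left ?_ h5
      calc (L * Real.log N ^ 2) ^ m * ((E1.card : ℝ) * ((L : ℝ) ^ m / (64 * m) ^ (2 * m)))
          = (E1.card : ℝ) * ((L * Real.log N ^ 2) ^ m * ((L : ℝ) ^ m / (64 * m) ^ (2 * m))) := by ring
        _ ≤ _ := h3
        _ = _ := by ring
    have h7 : (0 : ℝ) < (64 * m) ^ (2 * m) := by positivity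
    have h8 : (0 : ℝ) < (L : ℝ) ^ m := by positivity
    rw [mul_div_assoc', div_le_iff₀ h7] at h6
    rw [mul_div_assoc', le_div_iff₀ h8]
    linarith
  calc (((Ioc N (2 * N)).filter (Run L y)).card : ℝ) ≤ E1.card + E2.card := hcard
    _ ≤ 18 * (64 * m) ^ (2 * m) * (N / (L : ℝ) ^ m) + 2 * (m.factorial * 32 ^ m) * (N / (L : ℝ) ^ m) :=
        add_le_add hE1le hE2le
    _ = _ := by ring

end Pool.Agent.K9h59.VS
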