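import Pool.Agent.K9h59.VS.R
import Pool.Agent.K9h59.VS.T
import Pool.Agent.K9h59.VS.Part
import Pool.Agent.K9h59.VS.Sqm

/-!
The integers in long admissible intervals: a saving of any power of the length.
-/

set_option autoImplicit false

namespace Pool.Agent.K9h59.VS

open Finset Filter

open Classical in
/-- the integers near a multiple of the square of a large prime -/
lemma near_square (N s y : ℕ) (hy : 1 ≤ y) :
    (((Ioc N (2 * N)).filter (fun n => ∃ m' p : ℕ, y < p ∧ p ≤ Nat.sqrt (4 * N) ∧ p ^ 2 ∣ m' ∧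
      n ≤ m' + s ∧ m' ≤ n + s)).card : ℝ) ≤ (2 * s + 1) * (N / y + Nat.sqrt (4 * N)) := by
  set Z := Nat.sqrt (4 * N) with hZ
  set A := (Ioc N (2 * N)).filter (fun n => ∃ m' p : ℕ, y < p ∧ p ≤ Z ∧ p ^ 2 ∣ m' ∧
      n ≤ m' + s ∧ m' ≤ n + s) with hA
  have h1 : (A.card : ℝ) ≤ ∑ n ∈ Ioc N (2 * N), ∑ i ∈ range (2 * s + 1), ∑ p ∈ Ioc y Z,
      if p ^ 2 ∣ n + (i + (p ^ 2 - 1) * s) then (1 : ℝ) else 0 := by
    rw [hA, card_filter]
    push_cast
    refine sum_le_sum fun n hn => ?_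
    by_cases h : ∃ m' p : ℕ, y < p ∧ p ≤ Z ∧ p ^ 2 ∣ m' ∧ n ≤ m' + s ∧ m' ≤ n + s
    · rw [if_pos h]
      obtain ⟨m', p, hp1, hp2, hpm, h2, h3⟩ := h
      have hd : p ^ 2 ∣ n + ((m' + s - n) + (p ^ 2 - 1) * s) := by
        have hp0 : 1 ≤ p ^ 2 := Nat.one_le_pow _ _ (by omega)
        have e1 : n + ((m' + s - n) + (p ^ 2 - 1) * s) = m' + p ^ 2 * s := by
          have e2 : (p ^ 2 - 1) * s + s = p ^ 2 * s := by
            calc (p ^ 2 - 1) * s + s = (p ^ 2 - 1 + 1) * s := by ring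
              _ = p ^ 2 * s := by rw [Nat.sub_add_cancel hp0]
          omega
        rw [e1]
        exact dvd_add hpm (Dvd.intro _ rfl)
      calc (1 : ℝ) = if p ^ 2 ∣ n + ((m' + s - n) + (p ^ 2 - 1) * s) then (1 : ℝ) else 0 :=
            (if_pos hd).symm
        _ ≤ ∑ p ∈ Ioc y Z, if p ^ 2 ∣ n + ((m' + s - n) + (p ^ 2 - 1) * s) then (1 : ℝ) else 0 :=
            single_le_sum (f := fun p : ℕ =>
              if p ^ 2 ∣ n + ((m' + s - n) + (p ^ 2 - 1) * s) then (1 : ℝ) else 0)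
              (fun _ _ => by positivity) (mem_Ioc.2 ⟨hp1, hp2⟩)
        _ ≤ _ := single_le_sum (f := fun i : ℕ => ∑ p ∈ Ioc y Z,
              if p ^ 2 ∣ n + (i + (p ^ 2 - 1) * s) then (1 : ℝ) else 0)
              (fun _ _ => sum_nonneg fun _ _ => by positivity) (mem_range.2 (by omega))
    · rw [if_neg h]
      exact sum_nonneg fun _ _ => sum_nonneg fun _ _ => by positivity
  refine h1.trans ?_
  have hy0 : (0 : ℝ) < y := by exact_mod_cast hy
  calc ∑ n ∈ Ioc N (2 * N), ∑ i ∈ range (2 * s + 1), ∑ p ∈ Ioc y Z,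
      (if p ^ 2 ∣ n + (i + (p ^ 2 - 1) * s) then (1 : ℝ) else 0)
      = ∑ i ∈ range (2 * s + 1), ∑ p ∈ Ioc y Z, ∑ n ∈ Ioc N (2 * N),
          if p ^ 2 ∣ n + (i + (p ^ 2 - 1) * s) then (1 : ℝ) else 0 := by
        rw [sum_comm]
        refine sum_congr rfl fun i _ => ?_
        rw [sum_comm]
    _ ≤ ∑ i ∈ range (2 * s + 1), ∑ p ∈ Ioc y Z, (N * (((p : ℝ) ^ 2)⁻¹) + 1) := by
        refine sum_le_sum fun i _ => sum_le_sum fun p hp => ?_
        rw [mem_Ioc] at hp
        have h3 := count_mult N (i + (p ^ 2 - 1) * s) (p ^ 2) (Nat.one_le_pow _ _ (by omega))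
        rw [card_filter] at h3
        push_cast at h3
        rwa [div_eq_mul_inv] at h3
    _ ≤ ∑ i ∈ range (2 * s + 1), ((N : ℝ) / y + Z) := by
        refine sum_le_sum fun i _ => ?_
        rw [sum_add_distrib, ← mul_sum, sum_const, nsmul_eq_mul, mul_one, Nat.card_Ioc]
        refine add_le_add ?_ (by exact_mod_cast Nat.sub_le _ _)
        rw [div_eq_mul_inv]
        refine mul_le_mul_of_nonneg_left ?_ (by positivity)
        by_cases hle : y ≤ Z
        · have h4 := sum_Ioc_inv_sq_le_sub (α := ℝ) (k := y) (n := Z) (by omega) hle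
          have h5 : (0 : ℝ) ≤ ((Z : ℕ) : ℝ)⁻¹ := by positivity
          linarith
        · rw [Ioc_eq_empty (by omega), sum_empty]
          positivity
    _ = _ := by
        rw [sum_const, nsmul_eq_mul, card_range]
        push_cast
        ring

open Classical in
/-- the block bound -/
theorem cov_block_pow (hpart : S_PART) (hsq : S_SQM) (m : ℕ) (hm : 1 ≤ m) :
    ∃ (C : ℝ) (N₁ : ℕ), 0 < C ∧ ∀ k N : ℕ, N₁ ≤ N → 16 * Real.log N ≤ k →
      (k ^ m) ^ (16 * m) ≤ N →
      (((Ioc N (2 * N)).filter (Cov k)).card : ℝ) ≤ C * (N / (k : ℝ) ^ m) := by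
  obtain ⟨C₂, N₀, hC₂, hrun⟩ := run_block_pow hpart hsq m hm
  obtain ⟨C₃, N₃, hC₃, hcov⟩ := cov_block
  obtain ⟨U₀, hsm⟩ := adm_smooth
  have hlN : ∀ᶠ N : ℕ in atTop, 1 ≤ Real.log N := logN_atTop.eventually_ge_atTop _
  obtain ⟨N₄, hN₄⟩ := eventually_atTop.1 hlN
  refine ⟨2 * C₂ * 9 ^ m + 1 + 9 + 2 * C₃, N₀ + N₃ + 2 * U₀ + N₄ + 9, by positivity,
    fun k N hN hkN hpow => ?_⟩
  set s := k ^ m with hs
  have hlog1 : 1 ≤ Real.log N := hN₄ N (by omega)
  have hk16R : (16 : ℝ) ≤ k := by linarith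
  have hk16 : 16 ≤ k := by exact_mod_cast hk16R
  have hk0 : (0 : ℝ) < k := by linarith
  have hks : k ≤ s := by
    calc k = k ^ 1 := (pow_one k).symm
      _ ≤ k ^ m := Nat.pow_le_pow_right (by omega) hm
  have hs1 : 1 ≤ s := by omega
  have hsR : (s : ℝ) = (k : ℝ) ^ m := by rw [hs]; push_cast; rfl
  have hs0 : (0 : ℝ) < s := by exact_mod_cast hs1
  have hs16 : s ^ 16 ≤ N := (Nat.pow_le_pow_right hs1 (by omega)).trans hpow
  have hs4 : s ^ 4 ≤ N := (Nat.pow_le_pow_right hs1 (by norm_num)).trans hs16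
  have hs2 : s ^ 2 ≤ N := (Nat.pow_le_pow_right hs1 (by norm_num)).trans hs16
  have hs3 : s ^ 3 ≤ N := (Nat.pow_le_pow_right hs1 (by norm_num)).trans hs16
  have hsN : s ≤ N := by
    calc s = s ^ 1 := (pow_one s).symm
      _ ≤ s ^ 2 := Nat.pow_le_pow_right hs1 (by norm_num)
      _ ≤ N := hs2
  set y := s ^ 2 with hy
  have hy1 : 1 ≤ y := Nat.one_le_pow _ _ hs1
  have hyN : y ^ (8 * m) ≤ N := by
    rw [hy, ← pow_mul, show 2 * (8 * m) = 16 * m by ring]
    exact hpow
  set L := (k - 2) / 4 with hL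
  have hL4 : 4 * L + 2 ≤ k := by omega
  have hL9 : k ≤ 9 * L := by omega
  have hL1 : 1 ≤ L := by omega
  have hL2 : 2 * Real.log N ≤ L := by
    have h1 : k ≤ 4 * L + 5 := by omega
    have h2 : (k : ℝ) ≤ 4 * L + 5 := by exact_mod_cast h1
    linarith
  have h2Ly : 2 * L ≤ y := by
    have : s ≤ s ^ 2 := Nat.le_self_pow (by norm_num) s
    omega
  have hb := hrun L N y (by omega) hL2 h2Ly hyN
  set A := (Ioc N (2 * N)).filter (Run L y) with hA
  set Z := Nat.sqrt (4 * N) with hZ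
  set B := (Ioc N (2 * N)).filter (fun n => ∃ m' p : ℕ, y < p ∧ p ≤ Z ∧ p ^ 2 ∣ m' ∧
      n ≤ m' + s ∧ m' ≤ n + s) with hB
  have hBle : (B.card : ℝ) ≤ (2 * s + 1) * (N / y + Z) := near_square N s y hy1
  have hcovs := hcov s N hs1 (by omega)
  have hsub : (Ioc N (2 * N)).filter (Cov k) ⊆
      ((A ∪ A.image (fun n => n + (2 * L + 1))) ∪ Ioc N (N + (2 * L + 1))) ∪
        (B ∪ (Ioc N (2 * N)).filter (Cov s)) := by
    intro n hn
    rw [mem_filter, mem_Ioc] at hn
    obtain ⟨hnN, u, v, hadm, hun, hnv, hkv⟩ := hn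
    have hvu := adm_lt hadm
    have hU : U₀ ≤ u := by omega
    have hsmooth := hsm u v hU hadm
    have hadm' := hadm
    obtain ⟨hu1, huv, p, hp, hp2, hmax⟩ := hadm'
    rw [mem_union, mem_union, mem_union, mem_union, mem_image]
    by_cases hpy : p ≤ y
    · have hall : ∀ i : ℕ, u ≤ i → i ≤ v → ∀ q : ℕ, q.Prime → q ∣ i → q ≤ y := by
        intro i hi1 hi2 q hq hqi
        exact (hmax q hq ((dvd_prod_iff hq).2 ⟨i, hi1, hi2, hqi⟩)).trans hpy
      refine Or.inl ?_
      by_cases hr : 2 * L + 1 ≤ v - n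
      · refine Or.inl (Or.inl ?_)
        rw [hA, mem_filter, mem_Ioc]
        exact ⟨hnN, fun j hj1 hj2 q hq hqd => hall (n + j) (by omega) (by omega) q hq hqd⟩
      · by_cases hl : N < n - (2 * L + 1)
        · refine Or.inl (Or.inr ⟨n - (2 * L + 1), ?_, by omega⟩)
          rw [hA, mem_filter, mem_Ioc]
          exact ⟨⟨hl, by omega⟩, fun j hj1 hj2 q hq hqd =>
            hall (n - (2 * L + 1) + j) (by omega) (by omega) q hq hqd⟩
        · refine Or.inr ?_
          rw [mem_Ioc]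
          omega
    · push Not at hpy
      refine Or.inr ?_
      by_cases hh : v - u < s
      · refine Or.inl ?_
        have hsy : s ≤ y := Nat.le_self_pow (by norm_num) s
        obtain ⟨m', hm1, hm2, hd⟩ := sq_dvd hp hu1 hp2 (by omega)
        rw [hB, mem_filter, mem_Ioc]
        have hple : p ^ 2 ≤ 2 * u := hsmooth m' hm1 hm2 p hp ((dvd_pow_self p two_ne_zero).trans hd)
        refine ⟨hnN, m', p, hpy, ?_, hd, by omega, by omega⟩
        rw [hZ, Nat.le_sqrt']
        omega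
      · refine Or.inr ?_
        rw [mem_filter, mem_Ioc]
        exact ⟨hnN, u, v, hadm, hun, hnv, by omega⟩
  have hcard : (((Ioc N (2 * N)).filter (Cov k)).card : ℝ) ≤ A.card + A.card + (2 * L + 1) +
      (B.card + ((Ioc N (2 * N)).filter (Cov s)).card) := by
    have h1 := (card_le_card hsub).trans ((card_union_le _ _).trans
      (Nat.add_le_add ((card_union_le _ _).trans (Nat.add_le_add_right (card_union_le _ _) _))
        (card_union_le _ _)))
    have h2 : (A.image (fun n => n + (2 * L + 1))).card ≤ A.card := card_image_le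
    have h3 : (Ioc N (N + (2 * L + 1))).card = 2 * L + 1 := by
      rw [Nat.card_Ioc]
      omega
    rw [h3] at h1
    have h4 : ((Ioc N (2 * N)).filter (Cov k)).card ≤ A.card + A.card + (2 * L + 1) +
        (B.card + ((Ioc N (2 * N)).filter (Cov s)).card) := by omega
    exact_mod_cast h4
  -- the bounds
  have hN0 : (0 : ℝ) < N := by exact_mod_cast (by omega : 0 < N)
  set G : ℝ := N / (k : ℝ) ^ m with hG
  have hGs : (N : ℝ) / s = G := by rw [hG, hsR]
  have hG0 : 0 ≤ G := by positivity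
  have hL0 : (0 : ℝ) < L := by exact_mod_cast hL1
  have hAle : (A.card : ℝ) ≤ C₂ * 9 ^ m * G := by
    refine hb.trans ?_
    rw [mul_assoc]
    refine mul_le_mul_of_nonneg_left ?_ hC₂.le
    rw [hG, mul_div_assoc', div_le_div_iff₀ (by positivity) (by positivity)]
    have h1 : (k : ℝ) ^ m ≤ (9 * L) ^ m := pow_le_pow_left₀ hk0.le (by exact_mod_cast hL9) m
    calc (N : ℝ) * (k : ℝ) ^ m ≤ N * (9 * L) ^ m := mul_le_mul_of_nonneg_left h1 hN0.le
      _ = 9 ^ m * N * (L : ℝ) ^ m := by rw [mul_pow]; ring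
  have hLG : (2 * (L : ℝ) + 1) ≤ G := by
    rw [← hGs, le_div_iff₀ hs0]
    have h1 : (2 * L + 1) * s ≤ N := by
      calc (2 * L + 1) * s ≤ s * s := Nat.mul_le_mul_right _ (by omega)
        _ = s ^ 2 := by ring
        _ ≤ N := hs2
    exact_mod_cast h1
  have hZle : (Z : ℝ) ≤ 2 * √N := by
    have h4 : (Z : ℝ) ≤ √((4 * N : ℕ) : ℝ) := Real.nat_sqrt_le_real_sqrt
    have h5 : √((4 * N : ℕ) : ℝ) = 2 * √N := by
      push_cast
      rw [Real.sqrt_mul (by norm_num), show (4 : ℝ) = 2 ^ 2 by norm_num, Real.sqrt_sq (by norm_num)]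
    rw [h5] at h4
    exact h4
  have hsqrt : √(N : ℝ) ≤ G / s := by
    rw [le_div_iff₀ hs0, ← hGs, le_div_iff₀ hs0]
    have h1 : (s : ℝ) * s ≤ √(N : ℝ) := by
      apply Real.le_sqrt_of_sq_le
      have : (s * s) ^ 2 ≤ N := by
        calc (s * s) ^ 2 = s ^ 4 := by ring
          _ ≤ N := hs4
      exact_mod_cast this
    calc √(N : ℝ) * s * s = √(N : ℝ) * (s * s) := by ring
      _ ≤ √(N : ℝ) * √(N : ℝ) := mul_le_mul_of_nonneg_left h1 (Real.sqrt_nonneg _)
      _ = N := Real.mul_self_sqrt hN0.le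
  have hs1R : (1 : ℝ) ≤ s := by exact_mod_cast hs1
  have hsqrtG : √(N : ℝ) ≤ G := hsqrt.trans (div_le_self hG0 hs1R)
  have hBG : (B.card : ℝ) ≤ 9 * G := by
    refine hBle.trans ?_
    have h1 : (N : ℝ) / y = G / s := by
      rw [← hGs, hy]
      push_cast
      rw [div_div, pow_two]
    rw [h1]
    calc (2 * (s : ℝ) + 1) * (G / s + Z) ≤ (3 * s) * (G / s + 2 * (G / s)) := by
          apply mul_le_mul (by linarith) (by linarith) (by positivity) (by positivity)
      _ = 9 * G := by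
          field_simp
          ring
  have hCG : (((Ioc N (2 * N)).filter (Cov s)).card : ℝ) ≤ 2 * C₃ * G := by
    refine hcovs.trans ?_
    rw [hGs]
    nlinarith
  calc (((Ioc N (2 * N)).filter (Cov k)).card : ℝ) ≤ A.card + A.card + (2 * L + 1) +
      (B.card + ((Ioc N (2 * N)).filter (Cov s)).card) := hcard
    _ ≤ C₂ * 9 ^ m * G + C₂ * 9 ^ m * G + G + (9 * G + 2 * C₃ * G) := by linarith
    _ = _ := by ring

open Classical in
/-- **The integers in long admissible intervals.** -/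
theorem cov_total_pow (hpart : S_PART) (hsq : S_SQM) (m : ℕ) (hm : 1 ≤ m) :
    ∃ C : ℝ, 0 < C ∧ ∀ (k : ℕ) (x : ℝ), 2 ≤ x → 16 * Real.log x ≤ k → (k : ℝ) ^ (32 * m ^ 2) ≤ x →
      (((Icc 1 ⌊x⌋₊).filter (Cov k)).card : ℝ) ≤ C * (x / (k : ℝ) ^ m) := by
  obtain ⟨C, N₁, hC, hblock⟩ := cov_block_pow hpart hsq m hm
  refine ⟨2 * C + 2 + 4 * (N₁ + 2), by positivity, fun k x hx hkx hpow => ?_⟩
  have hx0 : 0 < x := by linarith
  have hlogx : 0 < Real.log x := Real.log_pos (by linarith)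
  have hk0R : (0 : ℝ) < k := lt_of_lt_of_le (by positivity) hkx
  have hk1 : 1 ≤ k := by exact_mod_cast hk0R
  have hk1R : (1 : ℝ) ≤ k := by exact_mod_cast hk1
  set X := ⌊x⌋₊ with hX
  have hXx : (X : ℝ) ≤ x := Nat.floor_le hx0.le
  set M₀ := 2 * (N₁ + 1 + k ^ (16 * m ^ 2)) with hM₀
  have hkm1 : 1 ≤ (k : ℝ) ^ m := one_le_pow₀ hk1R
  have claim : ∀ M : ℕ, M ≤ X → (((Icc 1 M).filter (Cov k)).card : ℝ) ≤
      M₀ + (2 * C + 2) * (M / (k : ℝ) ^ m) := by
    intro M
    induction M using Nat.strong_induction_on with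
    | _ M ih =>
      intro hMX
      have hMk : 0 ≤ (M : ℝ) / (k : ℝ) ^ m := by positivity
      by_cases hcase : M ≤ M₀
      · have h1 : ((Icc 1 M).filter (Cov k)).card ≤ M := by
          refine (card_filter_le _ _).trans ?_
          rw [Nat.card_Icc]
          omega
        have h2 : (((Icc 1 M).filter (Cov k)).card : ℝ) ≤ M₀ := by exact_mod_cast h1.trans hcase
        have h3 : 0 ≤ (2 * C + 2) * ((M : ℝ) / (k : ℝ) ^ m) := by positivity
        linarith
      · push Not at hcase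
        set N := M / 2 with hN
        have hNM : 2 * N ≤ M ∧ M ≤ 2 * N + 1 := by omega
        have hNlt : N < M := by omega
        have hN1 : 1 ≤ N := by omega
        have hNN : N₁ ≤ N := by omega
        have hkN : k ^ (16 * m ^ 2) ≤ N := by omega
        have hN0 : (0 : ℝ) < N := by exact_mod_cast hN1
        have hlogN : 16 * Real.log N ≤ k := by
          have : Real.log N ≤ Real.log x := by
            apply Real.log_le_log hN0
            have : (N : ℝ) ≤ X := by exact_mod_cast (by omega : N ≤ X)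
            linarith
          linarith
        have h1 := ih N hNlt (by omega)
        have h2 := hblock k N hNN hlogN (by
          rw [← pow_mul, show m * (16 * m) = 16 * m ^ 2 by ring]
          exact hkN)
        have hsub : (Icc 1 M).filter (Cov k) ⊆
            ((Icc 1 N).filter (Cov k) ∪ (Ioc N (2 * N)).filter (Cov k)) ∪ {M} := by
          intro n hn
          rw [mem_filter, mem_Icc] at hn
          rw [mem_union, mem_union, mem_filter, mem_filter, mem_Icc, mem_Ioc, mem_singleton]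
          by_cases h3 : n ≤ N
          · exact Or.inl (Or.inl ⟨⟨hn.1.1, h3⟩, hn.2⟩)
          · by_cases h4 : n ≤ 2 * N
            · exact Or.inl (Or.inr ⟨⟨by omega, h4⟩, hn.2⟩)
            · exact Or.inr (by omega)
        have h3 : (((Icc 1 M).filter (Cov k)).card : ℝ) ≤ ((Icc 1 N).filter (Cov k)).card +
            ((Ioc N (2 * N)).filter (Cov k)).card + 1 := by
          have := (card_le_card hsub).trans ((card_union_le _ _).trans
            (Nat.add_le_add_right (card_union_le _ _) _))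
          rw [card_singleton] at this
          exact_mod_cast this
        have h4 : (N : ℝ) / (k : ℝ) ^ m ≤ (M : ℝ) / (k : ℝ) ^ m / 2 := by
          rw [div_div, mul_comm ((k : ℝ) ^ m) 2, ← div_div]
          apply div_le_div_of_nonneg_right _ (by positivity)
          have : ((2 * N : ℕ) : ℝ) ≤ M := by exact_mod_cast hNM.1
          push_cast at this
          linarith
        have h5 : 1 ≤ (M : ℝ) / (k : ℝ) ^ m := by
          rw [le_div_iff₀ (by positivity), one_mul]
          have : k ^ m ≤ M := by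
            calc k ^ m ≤ k ^ (16 * m ^ 2) := Nat.pow_le_pow_right hk1 (by nlinarith)
              _ ≤ N := hkN
              _ ≤ M := by omega
          exact_mod_cast this
        have h6 : (2 * C + 2) * ((N : ℝ) / (k : ℝ) ^ m) ≤ (2 * C + 2) * ((M : ℝ) / (k : ℝ) ^ m / 2) :=
          mul_le_mul_of_nonneg_left h4 (by positivity)
        have h7 : C * ((N : ℝ) / (k : ℝ) ^ m) ≤ C * ((M : ℝ) / (k : ℝ) ^ m / 2) :=
          mul_le_mul_of_nonneg_left h4 hC.le
        have h9 : (((Icc 1 M).filter (Cov k)).card : ℝ) ≤ M₀ + (2 * C + 2) * ((M : ℝ) / (k : ℝ) ^ m / 2) +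
            C * ((M : ℝ) / (k : ℝ) ^ m / 2) + (M : ℝ) / (k : ℝ) ^ m := by linarith
        refine h9.trans ?_
        have h10 : 0 ≤ C * ((M : ℝ) / (k : ℝ) ^ m) := by positivity
        nlinarith
  have h1 := claim X le_rfl
  have hxk : 1 ≤ x / (k : ℝ) ^ m := by
    rw [le_div_iff₀ (by positivity), one_mul]
    exact (pow_le_pow_right₀ hk1R (by nlinarith)).trans hpow
  have hM₀le : (M₀ : ℝ) ≤ 4 * (N₁ + 2) * (x / (k : ℝ) ^ m) := by
    have h2 : (k : ℝ) ^ (16 * m ^ 2) ≤ x / (k : ℝ) ^ m := by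
      rw [le_div_iff₀ (by positivity), ← pow_add]
      exact (pow_le_pow_right₀ hk1R (by nlinarith)).trans hpow
    rw [hM₀]
    push_cast
    have hN₁0 : (0 : ℝ) ≤ N₁ := by positivity
    nlinarith
  have h2 : (X : ℝ) / (k : ℝ) ^ m ≤ x / (k : ℝ) ^ m := div_le_div_of_nonneg_right hXx (by positivity)
  calc (((Icc 1 X).filter (Cov k)).card : ℝ) ≤ M₀ + (2 * C + 2) * (X / (k : ℝ) ^ m) := h1
    _ ≤ 4 * (N₁ + 2) * (x / (k : ℝ) ^ m) + (2 * C + 2) * (x / (k : ℝ) ^ m) :=
        add_le_add hM₀le (mul_le_mul_of_nonneg_left h2 (by positivity))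
    _ = _ := by ring

end Pool.Agent.K9h59.VS
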